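import Pool.Agent.Lib.MP_0e7911_co_h38.Rank

/-!
# The heights `Bht a b i` satisfy the hypotheses of `lineSum_path`
-/

set_option autoImplicit false

namespace Pool.Agent.Lib.MP0e7911H38

open Finset MP_0e7911_co_full

theorem Bht_zero (a b i : ℕ) : Bht a b i 0 = 0 := by simp [Bht]

theorem Bht_last {a b d i : ℕ} (ha : 0 < a) (hi : i < d) : Bht a b i (a * d) = b * d := by
  have h1 : ¬ a * d = 0 := by
    have : 0 < d := by omega
    positivity
  have h2 : ¬ a * d ≤ i * a := by
    rw [mul_comm i a]
    exact not_le.2 (Nat.mul_lt_mul_of_pos_left hi ha)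
  rw [Bht, if_neg h1, if_neg h2]
  have h3 : b * (a * d) + a - 1 = (a - 1) + a * (b * d) := by
    have : b * (a * d) = a * (b * d) := by ring
    omega
  rw [h3, Nat.add_mul_div_left _ _ ha, Nat.div_eq_of_lt (by omega), zero_add]

/-- `a B(x) - b x` -/
theorem Bht_spec {a b i x : ℕ} (ha : 0 < a) (hx : 0 < x) :
    b * x ≤ a * Bht a b i x ∧
      (x ≤ i * a → 1 ≤ a * Bht a b i x - b * x ∧ a * Bht a b i x - b * x ≤ a) ∧
      (i * a < x → a * Bht a b i x - b * x < a) := by
  have hd := Nat.div_add_mod (b * x) a
  have hm := Nat.mod_lt (b * x) ha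
  by_cases h : x ≤ i * a
  · have hB : Bht a b i x = b * x / a + 1 := by rw [Bht, if_neg hx.ne', if_pos h]
    rw [hB, mul_add, mul_one]
    refine ⟨by omega, fun _ => by omega, fun h' => by omega⟩
  · have hB : Bht a b i x = (b * x + a - 1) / a := by rw [Bht, if_neg hx.ne', if_neg h]
    rw [hB]
    have hd' := Nat.div_add_mod (b * x + a - 1) a
    have hm' := Nat.mod_lt (b * x + a - 1) ha
    refine ⟨by omega, fun h' => absurd h' h, fun _ => by omega⟩

theorem Bht_above {a b d i x : ℕ} (ha : 0 < a) : b * d * x ≤ a * d * Bht a b i x := by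
  rcases Nat.eq_zero_or_pos x with rfl | hx
  · simp
  · have h := (Bht_spec (b := b) (i := i) ha hx).1
    calc b * d * x = d * (b * x) := by ring
      _ ≤ d * (a * Bht a b i x) := Nat.mul_le_mul_left _ h
      _ = a * d * Bht a b i x := by ring

theorem Bht_window {a b d i x : ℕ} (ha : 0 < a) (hi : i < d) (hx : 0 < x) (hxm : x < a * d) :
    i * a + 1 ≤ rk (a * d) (b * d) x (Bht a b i x) ∧
      rk (a * d) (b * d) x (Bht a b i x) < i * a + 1 + (a * d + 1) * (a * d) := by
  obtain ⟨h1, h2, h3⟩ := Bht_spec (b := b) (i := i) ha hx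
  have h4 : a * d * Bht a b i x - b * d * x = d * (a * Bht a b i x - b * x) := by
    rw [Nat.mul_sub]
    congr 1 <;> ring
  have hia : i * a + 1 ≤ a * d := by
    have := Nat.mul_lt_mul_of_pos_left hi ha
    rw [mul_comm a i] at this
    exact this
  have hd : 0 < d := by omega
  rw [rk, h4]
  set r := a * Bht a b i x - b * x with hr
  rcases le_or_gt x (i * a) with h | h
  · obtain ⟨h5, h6⟩ := h2 h
    constructor
    · have h7 : a * d + 1 ≤ (a * d + 1) * (d * r) :=
        Nat.le_mul_of_pos_right _ (Nat.mul_pos hd h5)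
      omega
    · have h7 : (a * d + 1) * (d * r) ≤ (a * d + 1) * (a * d) := by
        rw [mul_comm a d]
        exact Nat.mul_le_mul_left _ (Nat.mul_le_mul_left _ h6)
      omega
  · have h5 := h3 h
    constructor
    · have := Nat.zero_le ((a * d + 1) * (d * r))
      omega
    · have h7 : (a * d + 1) * (d * r) + (a * d + 1) ≤ (a * d + 1) * (a * d) := by
        have h8 : d * r + 1 ≤ a * d := by
          have h9 : d * (r + 1) ≤ d * a := Nat.mul_le_mul_left _ h5
          rw [mul_add, mul_one, mul_comm d a] at h9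
          omega
        calc (a * d + 1) * (d * r) + (a * d + 1) = (a * d + 1) * (d * r + 1) := by ring
          _ ≤ _ := Nat.mul_le_mul_left _ h8
      omega

theorem Bht_mono {a b i x : ℕ} (ha : 0 < a) (hb : 0 < b) : Bht a b i x ≤ Bht a b i (x + 1) := by
  rcases Nat.eq_zero_or_pos x with rfl | hx
  · rw [Bht_zero]; exact Nat.zero_le _
  · rcases le_or_gt (x + 1) (i * a) with h | h
    · have h1 : Bht a b i x = b * x / a + 1 := by rw [Bht, if_neg hx.ne', if_pos (by omega)]
      have h2 : Bht a b i (x + 1) = b * (x + 1) / a + 1 := by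
        rw [Bht, if_neg (by omega), if_pos h]
      rw [h1, h2]
      exact Nat.add_le_add_right (Nat.div_le_div_right (Nat.mul_le_mul_left _ (by omega))) _
    · have h2 : Bht a b i (x + 1) = (b * (x + 1) + a - 1) / a := by
        rw [Bht, if_neg (by omega), if_neg (by omega)]
      rcases le_or_gt x (i * a) with h' | h'
      · have hxe : x = i * a := by omega
        have h1 : Bht a b i x = b * x / a + 1 := by rw [Bht, if_neg hx.ne', if_pos h']
        rw [h1, h2, hxe]
        have h3 : b * (i * a) / a = b * i := by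
          rw [show b * (i * a) = b * i * a by ring, Nat.mul_div_cancel _ ha]
        rw [h3, Nat.le_div_iff_mul_le ha]
        have h4 : (b * i + 1) * a = b * (i * a) + a := by ring
        have h5 : b * (i * a + 1) = b * (i * a) + b := by ring
        omega
      · have h1 : Bht a b i x = (b * x + a - 1) / a := by
          rw [Bht, if_neg hx.ne', if_neg (by omega)]
        rw [h1, h2]
        refine Nat.div_le_div_right ?_
        have : b * (x + 1) = b * x + b := by ring
        omega

variable {L : Type*} [Field L]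

/-- The line sums of the problem through the functional `Lf`. -/
theorem lineSum_Bht {K : Type*} [Field K] [Algebra K L] (q t : K) (a b d i N M : ℕ) (ha : 0 < a)
    (hi : i < d) (hM : a * d = M + 1) (x : Fin N → L) (R : ℕ) (hR : M * (b * d) < R) :
    MvPolynomial.aeval x (lineSum q t (a * d) (b * d) N (Bht a b i)) =
      ∑ k ∈ range R, algebraMap K L t ^ k * ∑ e ∈ Finset.Nat.antidiagonalTuple M k,
        Lf (algebraMap K L q) (M + 1)
          (mo (fun j : Fin (M + 1) => -(((Bht a b i (j + 1) : ℤ) - Bht a b i j : ℤ) : ℚ)) *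
            Om (M + 1) (List.ofFn x) *
            dn (mo (-(nexp e))) * up (Qe (algebraMap K L q) M e)) := by
  rw [hM]
  refine lineSum_path q t M (b * d) N (Bht a b i) (Bht_zero a b i) ?_ ?_ (i * a + 1) ?_ x R hR
  · rw [← hM]
    exact Bht_last ha hi
  · intro y _
    rw [← hM]
    exact Bht_above ha
  · intro y hy1 hy2
    rw [← hM]
    have := Bht_window (b := b) (x := y) ha hi hy1 (by omega)
    exact this

end Pool.Agent.Lib.MP0e7911H38
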