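import Pool.Agent.Lib.MP_0e7911_co_h38.Ops2

set_option autoImplicit false

namespace Pool.Agent.Lib.MP0e7911H38

open Finset

variable {K : Type*} [Field K] {m : ℕ}

theorem braid_abs {R : Type*} [CommRing R] [IsDomain R] (s1 s2 : R →+* R) (z1 z2 z3 q : R)
    (h11 : s1 z1 = z2) (h12 : s1 z2 = z1) (h13 : s1 z3 = z3)
    (h21 : s2 z1 = z1) (h22 : s2 z2 = z3) (h23 : s2 z3 = z2) (hq1 : s1 q = q) (hq2 : s2 q = q)
    (hi1 : ∀ x, s1 (s1 x) = x) (hi2 : ∀ x, s2 (s2 x) = x)
    (hbr : ∀ x, s1 (s2 (s1 x)) = s2 (s1 (s2 x)))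
    (n12 : z1 ≠ z2) (n23 : z2 ≠ z3) (n13 : z1 ≠ z3)
    (f g1 g2 g3 e1 e2 e3 : R) (A B C : Prop) [Decidable A] [Decidable B] [Decidable C]
    (hABC : A → B → C) (hABC' : ¬ A → ¬ B → ¬ C)
    (a1 : (z1 - z2) * g1 = (z1 - q * z2) * s1 f - (1 - q) * ((if A then z1 else z2) * f))
    (a2 : (z2 - z3) * g2 = (z2 - q * z3) * s2 g1 - (1 - q) * ((if C then z2 else z3) * g1))
    (a3 : (z1 - z2) * g3 = (z1 - q * z2) * s1 g2 - (1 - q) * ((if B then z1 else z2) * g2))
    (b1 : (z2 - z3) * e1 = (z2 - q * z3) * s2 f - (1 - q) * ((if B then z2 else z3) * f))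
    (b2 : (z1 - z2) * e2 = (z1 - q * z2) * s1 e1 - (1 - q) * ((if C then z1 else z2) * e1))
    (b3 : (z2 - z3) * e3 = (z2 - q * z3) * s2 e2 - (1 - q) * ((if A then z2 else z3) * e2)) :
    g3 = e3 := by
  have d12 : z1 - z2 ≠ 0 := sub_ne_zero.2 n12
  have d23 : z2 - z3 ≠ 0 := sub_ne_zero.2 n23
  have d13 : z1 - z3 ≠ 0 := sub_ne_zero.2 n13
  have a1s1 := congrArg s1 a1
  have a1s2 := congrArg s2 a1
  have a1s12 := congrArg (fun x => s1 (s2 x)) a1
  have a2s1 := congrArg s1 a2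
  have b1s2 := congrArg s2 b1
  have b1s1 := congrArg s1 b1
  have b1s21 := congrArg (fun x => s2 (s1 x)) b1
  have b2s2 := congrArg s2 b2
  apply mul_left_cancel₀ (mul_ne_zero (mul_ne_zero (mul_ne_zero d12 d12) (mul_ne_zero d23 d23)) d13)
  by_cases hA : A <;> by_cases hB : B <;> by_cases hC : C
  all_goals first
    | exact absurd (hABC hA hB) hC
    | exact absurd hC (hABC' hA hB)
    | skip
  all_goals
    simp only [hA, hB, hC, if_true, if_false, map_mul, map_sub, map_one, h11, h12, h13, h21, h22, h23,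
      hq1, hq2, hi1, hi2, hbr] at *
  · linear_combination (z2 - z3) * ((z1 - z2) * (z1 - z3) * (z2 - z3) * a3
        + (z1 - q * z2) * (z1 - z2) * (z2 - z3) * a2s1
        + (z1 - q * z2) * (z1 - q * z3) * (z1 - z2) * a1s12
        + (1 - q) * z1 * (z1 - q * z2) * (z2 - z3) * a1s1
        - (1 - q) * z1 * (z1 - z3) * (z1 - z2) * a2
        - (1 - q) * z1 * (z2 - q * z3) * (z1 - z2) * a1s2
        + (1 - q) ^ 2 * z1 * z2 * (z1 - z3) * a1)
      - (z1 - z2) * ((z2 - z3) * (z1 - z3) * (z1 - z2) * b3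
        + (z2 - q * z3) * (z1 - z2) * (z2 - z3) * b2s2
        + (z2 - q * z3) * (z1 - q * z3) * (z2 - z3) * b1s21
        + (1 - q) * z1 * (z2 - q * z3) * (z1 - z2) * b1s2
        - (1 - q) * z2 * (z1 - z3) * (z2 - z3) * b2
        - (1 - q) * z2 * (z1 - q * z2) * (z2 - z3) * b1s1
        + (1 - q) ^ 2 * z1 * z2 * (z1 - z3) * b1)
  · linear_combination (z2 - z3) * ((z1 - z2) * (z1 - z3) * (z2 - z3) * a3
        + (z1 - q * z2) * (z1 - z2) * (z2 - z3) * a2s1
        + (z1 - q * z2) * (z1 - q * z3) * (z1 - z2) * a1s12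
        + (1 - q) * z1 * (z1 - q * z2) * (z2 - z3) * a1s1
        - (1 - q) * z2 * (z1 - z3) * (z1 - z2) * a2
        - (1 - q) * z2 * (z2 - q * z3) * (z1 - z2) * a1s2
        + (1 - q) ^ 2 * z2 * z2 * (z1 - z3) * a1)
      - (z1 - z2) * ((z2 - z3) * (z1 - z3) * (z1 - z2) * b3
        + (z2 - q * z3) * (z1 - z2) * (z2 - z3) * b2s2
        + (z2 - q * z3) * (z1 - q * z3) * (z2 - z3) * b1s21
        + (1 - q) * z1 * (z2 - q * z3) * (z1 - z2) * b1s2
        - (1 - q) * z2 * (z1 - z3) * (z2 - z3) * b2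
        - (1 - q) * z2 * (z1 - q * z2) * (z2 - z3) * b1s1
        + (1 - q) ^ 2 * z1 * z2 * (z1 - z3) * b1)
  · linear_combination (z2 - z3) * ((z1 - z2) * (z1 - z3) * (z2 - z3) * a3
        + (z1 - q * z2) * (z1 - z2) * (z2 - z3) * a2s1
        + (z1 - q * z2) * (z1 - q * z3) * (z1 - z2) * a1s12
        + (1 - q) * z3 * (z1 - q * z2) * (z2 - z3) * a1s1
        - (1 - q) * z2 * (z1 - z3) * (z1 - z2) * a2
        - (1 - q) * z2 * (z2 - q * z3) * (z1 - z2) * a1s2
        + (1 - q) ^ 2 * z2 * z3 * (z1 - z3) * a1)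
      - (z1 - z2) * ((z2 - z3) * (z1 - z3) * (z1 - z2) * b3
        + (z2 - q * z3) * (z1 - z2) * (z2 - z3) * b2s2
        + (z2 - q * z3) * (z1 - q * z3) * (z2 - z3) * b1s21
        + (1 - q) * z3 * (z2 - q * z3) * (z1 - z2) * b1s2
        - (1 - q) * z2 * (z1 - z3) * (z2 - z3) * b2
        - (1 - q) * z2 * (z1 - q * z2) * (z2 - z3) * b1s1
        + (1 - q) ^ 2 * z2 * z2 * (z1 - z3) * b1)
  · linear_combination (z2 - z3) * ((z1 - z2) * (z1 - z3) * (z2 - z3) * a3
        + (z1 - q * z2) * (z1 - z2) * (z2 - z3) * a2s1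
        + (z1 - q * z2) * (z1 - q * z3) * (z1 - z2) * a1s12
        + (1 - q) * z1 * (z1 - q * z2) * (z2 - z3) * a1s1
        - (1 - q) * z1 * (z1 - z3) * (z1 - z2) * a2
        - (1 - q) * z1 * (z2 - q * z3) * (z1 - z2) * a1s2
        + (1 - q) ^ 2 * z1 * z2 * (z1 - z3) * a1)
      - (z1 - z2) * ((z2 - z3) * (z1 - z3) * (z1 - z2) * b3
        + (z2 - q * z3) * (z1 - z2) * (z2 - z3) * b2s2
        + (z2 - q * z3) * (z1 - q * z3) * (z2 - z3) * b1s21
        + (1 - q) * z1 * (z2 - q * z3) * (z1 - z2) * b1s2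
        - (1 - q) * z3 * (z1 - z3) * (z2 - z3) * b2
        - (1 - q) * z3 * (z1 - q * z2) * (z2 - z3) * b1s1
        + (1 - q) ^ 2 * z1 * z3 * (z1 - z3) * b1)
  · linear_combination (z2 - z3) * ((z1 - z2) * (z1 - z3) * (z2 - z3) * a3
        + (z1 - q * z2) * (z1 - z2) * (z2 - z3) * a2s1
        + (z1 - q * z2) * (z1 - q * z3) * (z1 - z2) * a1s12
        + (1 - q) * z3 * (z1 - q * z2) * (z2 - z3) * a1s1
        - (1 - q) * z1 * (z1 - z3) * (z1 - z2) * a2
        - (1 - q) * z1 * (z2 - q * z3) * (z1 - z2) * a1s2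
        + (1 - q) ^ 2 * z1 * z3 * (z1 - z3) * a1)
      - (z1 - z2) * ((z2 - z3) * (z1 - z3) * (z1 - z2) * b3
        + (z2 - q * z3) * (z1 - z2) * (z2 - z3) * b2s2
        + (z2 - q * z3) * (z1 - q * z3) * (z2 - z3) * b1s21
        + (1 - q) * z3 * (z2 - q * z3) * (z1 - z2) * b1s2
        - (1 - q) * z3 * (z1 - z3) * (z2 - z3) * b2
        - (1 - q) * z3 * (z1 - q * z2) * (z2 - z3) * b1s1
        + (1 - q) ^ 2 * z2 * z3 * (z1 - z3) * b1)
  · linear_combination (z2 - z3) * ((z1 - z2) * (z1 - z3) * (z2 - z3) * a3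
        + (z1 - q * z2) * (z1 - z2) * (z2 - z3) * a2s1
        + (z1 - q * z2) * (z1 - q * z3) * (z1 - z2) * a1s12
        + (1 - q) * z3 * (z1 - q * z2) * (z2 - z3) * a1s1
        - (1 - q) * z2 * (z1 - z3) * (z1 - z2) * a2
        - (1 - q) * z2 * (z2 - q * z3) * (z1 - z2) * a1s2
        + (1 - q) ^ 2 * z2 * z3 * (z1 - z3) * a1)
      - (z1 - z2) * ((z2 - z3) * (z1 - z3) * (z1 - z2) * b3
        + (z2 - q * z3) * (z1 - z2) * (z2 - z3) * b2s2
        + (z2 - q * z3) * (z1 - q * z3) * (z2 - z3) * b1s21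
        + (1 - q) * z3 * (z2 - q * z3) * (z1 - z2) * b1s2
        - (1 - q) * z3 * (z1 - z3) * (z2 - z3) * b2
        - (1 - q) * z3 * (z1 - q * z2) * (z2 - z3) * b1s1
        + (1 - q) ^ 2 * z2 * z3 * (z1 - z3) * b1)


theorem Wr_norm {i j : Fin m} (hij : i ≠ j) {φ : Fin m → ℚ} (hi0 : 0 ≤ φ i) (hi1 : φ i < 1)
    (hj0 : 0 ≤ φ j) (hj1 : φ j < 1) (hne : φ i ≠ φ j) :
    (Wr K i j φ * mo (φ - φ ∘ Equiv.swap i j) : LR K m) = if φ j < φ i then zz i else zz j := by
  have h1 := swap_apply_exp i j hij φ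
  rw [Wr, mo_mul, h1]
  split_ifs with h
  · have : Int.fract (φ j - φ i) = φ j - φ i + 1 := by
      rw [Int.fract_eq_iff]
      refine ⟨by linarith, by linarith, -1, by push_cast; ring⟩
    rw [this, zz]
    congr 1
    rw [al]
    module
  · have hlt : φ i < φ j := lt_of_le_of_ne (not_lt.1 h) hne
    have : Int.fract (φ j - φ i) = φ j - φ i := by
      rw [Int.fract_eq_iff]
      refine ⟨by linarith, by linarith, 0, by push_cast; ring⟩
    rw [this, zz]
    congr 1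
    rw [al]
    module

theorem nint_of_fract {φ : Fin m → ℚ} {i j : Fin m} (hi0 : 0 ≤ φ i) (hi1 : φ i < 1)
    (hj0 : 0 ≤ φ j) (hj1 : φ j < 1) (hne : φ i ≠ φ j) : ∀ n : ℤ, φ j - φ i ≠ n := by
  intro n hn
  have h1 : (n : ℚ) < 1 := by linarith
  have h2 : (-1 : ℚ) < n := by linarith
  have h3 : n < 1 := by exact_mod_cast h1
  have h4 : -1 < n := by exact_mod_cast h2
  have h5 : n = 0 := by omega
  rw [h5] at hn
  push_cast at hn
  exact hne (by linarith)

theorem div_norm (q : K) {i j : Fin m} (hij : i ≠ j) {φ : Fin m → ℚ} (hi0 : 0 ≤ φ i)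
    (hi1 : φ i < 1) (hj0 : 0 ≤ φ j) (hj1 : φ j < 1) (hne : φ i ≠ φ j) {f : LR K m}
    (hf : f ∈ Cos K φ) :
    (zz i - zz j) * (mo (-(φ ∘ Equiv.swap i j)) * T q i j f) =
      (zz i - algebraMap K (LR K m) q * zz j) * sw i j (mo (-φ) * f) -
        (1 - algebraMap K (LR K m) q) * ((if φ j < φ i then zz i else zz j) * (mo (-φ) * f)) := by
  have h1 := div_T q hij (nint_of_fract hi0 hi1 hj0 hj1 hne) hf
  have h2 := Wr_norm (K := K) hij hi0 hi1 hj0 hj1 hne
  rw [← h2, map_mul, sw_mo]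
  have h3 : (-φ) ∘ Equiv.swap i j = -(φ ∘ Equiv.swap i j) := rfl
  rw [h3]
  have h4 : (mo (φ - φ ∘ Equiv.swap i j) * mo (-φ) : LR K m) = mo (-(φ ∘ Equiv.swap i j)) := by
    rw [mo_mul]
    congr 1
    abel
  simp only [Algebra.smul_def, map_sub, map_one] at h1
  linear_combination mo (-(φ ∘ Equiv.swap i j)) * h1 +
    (1 - algebraMap K (LR K m) q) * Wr K i j φ * f * h4

theorem sw_algebraMap (i j : Fin m) (r : K) :
    sw i j (algebraMap K (LR K m) r) = algebraMap K (LR K m) r := AlgHom.commutes _ _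

theorem swap_braid {i j k : Fin m} (hij : i ≠ j) (hjk : j ≠ k) (hik : i ≠ k) :
    Equiv.swap i j * Equiv.swap j k * Equiv.swap i j =
      Equiv.swap j k * Equiv.swap i j * Equiv.swap j k := by
  rw [Equiv.swap_mul_swap_mul_swap hij hik, Equiv.swap_comm i j,
    Equiv.swap_comm j k, Equiv.swap_mul_swap_mul_swap hjk.symm hik.symm, Equiv.swap_comm]

theorem swap_braid_comp {i j k : Fin m} (hij : i ≠ j) (hjk : j ≠ k) (hik : i ≠ k) (φ : Fin m → ℚ) :
    ((φ ∘ Equiv.swap j k) ∘ Equiv.swap i j) ∘ Equiv.swap j k =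
      ((φ ∘ Equiv.swap i j) ∘ Equiv.swap j k) ∘ Equiv.swap i j := by
  funext l
  simp only [Function.comp_apply]
  congr 1
  have := congrArg (fun e : Equiv.Perm (Fin m) => e l) (swap_braid hij hjk hik)
  simpa [Equiv.Perm.mul_apply] using this.symm

theorem sw_braid {i j k : Fin m} (hij : i ≠ j) (hjk : j ≠ k) (hik : i ≠ k) (x : LR K m) :
    sw i j (sw j k (sw i j x)) = sw j k (sw i j (sw j k x)) := by
  have : (((sw i j).comp (sw j k)).comp (sw i j)).toLinearMap =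
      ((((sw j k).comp (sw i j)).comp (sw j k)).toLinearMap : LR K m →ₗ[K] LR K m) := by
    refine lin_ext fun c => ?_
    simp only [AlgHom.toLinearMap_apply, AlgHom.comp_apply, sw_mo]
    congr 1
    funext l
    simp only [Function.comp_apply]
    congr 1
    have := congrArg (fun e : Equiv.Perm (Fin m) => e l) (swap_braid hij hjk hik)
    simpa [Equiv.Perm.mul_apply] using this
  exact LinearMap.congr_fun this x

/-- The braid relation, normalized coset. -/
theorem T_braid_aux (q : K) {i j k : Fin m} (hij : i ≠ j) (hjk : j ≠ k) (hik : i ≠ k)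
    {φ : Fin m → ℚ} (h0 : ∀ l, 0 ≤ φ l) (h1 : ∀ l, φ l < 1) (nij : φ i ≠ φ j) (njk : φ j ≠ φ k)
    (nik : φ i ≠ φ k) {f : LR K m} (hf : f ∈ Cos K φ) :
    T q i j (T q j k (T q i j f)) = T q j k (T q i j (T q j k f)) := by
  have e1 : Equiv.swap i j i = j := Equiv.swap_apply_left _ _
  have e2 : Equiv.swap i j j = i := Equiv.swap_apply_right _ _
  have e3 : Equiv.swap i j k = k := Equiv.swap_apply_of_ne_of_ne hik.symm hjk.symm
  have e4 : Equiv.swap j k i = i := Equiv.swap_apply_of_ne_of_ne hij hik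
  have e5 : Equiv.swap j k j = k := Equiv.swap_apply_left _ _
  have e6 : Equiv.swap j k k = j := Equiv.swap_apply_right _ _
  have a1 := div_norm q hij (h0 i) (h1 i) (h0 j) (h1 j) nij hf
  have m1 := T_mem_Cos q i j hf
  have a2 := div_norm q hjk (φ := φ ∘ Equiv.swap i j) (h0 _) (h1 _) (h0 _) (h1 _)
    (by simp only [Function.comp, e2, e3]; exact nik) m1
  have m2 := T_mem_Cos q j k m1
  have a3 := div_norm q hij (φ := (φ ∘ Equiv.swap i j) ∘ Equiv.swap j k) (h0 _) (h1 _) (h0 _) (h1 _)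
    (by simp only [Function.comp, e1, e3, e4, e5]; exact njk) m2
  have b1 := div_norm q hjk (h0 j) (h1 j) (h0 k) (h1 k) njk hf
  have m3 := T_mem_Cos q j k hf
  have b2 := div_norm q hij (φ := φ ∘ Equiv.swap j k) (h0 _) (h1 _) (h0 _) (h1 _)
    (by simp only [Function.comp, e4, e5]; exact nik) m3
  have m4 := T_mem_Cos q i j m3
  have b3 := div_norm q hjk (φ := (φ ∘ Equiv.swap j k) ∘ Equiv.swap i j) (h0 _) (h1 _) (h0 _) (h1 _)
    (by simp only [Function.comp, e2, e3, e4, e6]; exact nij) m4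
  simp only [Function.comp_apply, e1, e2, e3, e4, e5, e6] at a2 a3 b2 b3
  have key := braid_abs (sw i j : LR K m →ₐ[K] LR K m).toRingHom (sw j k : LR K m →ₐ[K] LR K m).toRingHom
    (zz i) (zz j) (zz k) (algebraMap K (LR K m) q)
    (by simp [sw_zz]) (by simp [sw_zz]) (by simp [sw_zz, e3])
    (by simp [sw_zz, e4]) (by simp [sw_zz]) (by simp [sw_zz]) (sw_algebraMap _ _ _) (sw_algebraMap _ _ _)
    (fun x => sw_sw i j x) (fun x => sw_sw j k x) (fun x => sw_braid hij hjk hik x)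
    (sub_ne_zero.1 (zz_sub_ne_zero hij)) (sub_ne_zero.1 (zz_sub_ne_zero hjk))
    (sub_ne_zero.1 (zz_sub_ne_zero hik)) _ _ _ _ _ _ _ (φ j < φ i) (φ k < φ j) (φ k < φ i)
    (fun h h' => h'.trans h) (fun h h' => not_lt.2 ((not_lt.1 h).trans (not_lt.1 h'))) a1 a2 a3 b1 b2 b3
  rw [swap_braid_comp hij hjk hik] at key
  exact mul_left_cancel₀ (mo_ne_zero _) key


/-- The exponent is generic: the differences are not integers. -/
def Gen (c : Fin m → ℚ) : Prop := ∀ i j, i ≠ j → ∀ n : ℤ, c j - c i ≠ n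

theorem Gen.comp {c : Fin m → ℚ} (h : Gen c) (e : Equiv.Perm (Fin m)) : Gen (c ∘ e) :=
  fun i j hij => h (e i) (e j) (fun h' => hij (e.injective h'))

theorem Gen.ne {c : Fin m → ℚ} (h : Gen c) {i j : Fin m} (hij : i ≠ j) : c i ≠ c j := by
  intro h'
  exact h i j hij 0 (by rw [h']; simp)

theorem cong_fract (c : Fin m → ℚ) : Cong c (fun l => Int.fract (c l)) := fun k =>
  ⟨⌊c k⌋, (Int.fract_add_floor (c k)).symm⟩

theorem Gen.cong {c d : Fin m → ℚ} (h : Gen d) (hc : Cong c d) : Gen c :=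
  fun i j hij => nint_cong hc (h i j hij)

/-- The braid relation. -/
theorem T_braid (q : K) {i j k : Fin m} (hij : i ≠ j) (hjk : j ≠ k) (hik : i ≠ k)
    {φ : Fin m → ℚ} (hφ : Gen φ) {f : LR K m} (hf : f ∈ Cos K φ) :
    T q i j (T q j k (T q i j f)) = T q j k (T q i j (T q j k f)) := by
  have h1 := cong_fract φ
  have h2 : Gen (fun l => Int.fract (φ l)) := hφ.cong h1.symm
  rw [Cos_congr h1] at hf
  exact T_braid_aux q hij hjk hik (fun l => Int.fract_nonneg _) (fun l => Int.fract_lt_one _)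
    (h2.ne hij) (h2.ne hjk) (h2.ne hik) hf

/-- Far commutation. -/
theorem T_far (q : K) {i j k l : Fin m} (hij : i ≠ j) (hkl : k ≠ l) (hik : i ≠ k) (hil : i ≠ l)
    (hjk : j ≠ k) (hjl : j ≠ l) {φ : Fin m → ℚ} (hφ : Gen φ) {f : LR K m} (hf : f ∈ Cos K φ) :
    T q i j (T q k l f) = T q k l (T q i j f) := by
  have e1 : Equiv.swap i j k = k := Equiv.swap_apply_of_ne_of_ne hik.symm hjk.symm
  have e2 : Equiv.swap i j l = l := Equiv.swap_apply_of_ne_of_ne hil.symm hjl.symm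
  have e3 : Equiv.swap k l i = i := Equiv.swap_apply_of_ne_of_ne hik hil
  have e4 : Equiv.swap k l j = j := Equiv.swap_apply_of_ne_of_ne hjk hjl
  have m1 := T_mem_Cos q i j hf
  have m2 := T_mem_Cos q k l hf
  have a1 := div_T q hij (hφ i j hij) hf
  have a2 := div_T q hkl (hφ k l hkl) hf
  have b1 := div_T q hij ((hφ.comp (Equiv.swap k l)) i j hij) m2
  have b2 := div_T q hkl ((hφ.comp (Equiv.swap i j)) k l hkl) m1
  have w1 : Wr K i j (φ ∘ Equiv.swap k l) = Wr K i j φ := by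
    simp only [Wr, Function.comp_apply, e3, e4]
  have w2 : Wr K k l (φ ∘ Equiv.swap i j) = Wr K k l φ := by
    simp only [Wr, Function.comp_apply, e1, e2]
  have w3 : sw k l (Wr K i j φ) = Wr K i j φ := by
    rw [Wr, sw_mo]
    congr 1
    funext x
    simp only [Function.comp_apply, Pi.add_apply, Pi.smul_apply]
    by_cases h1 : x = k
    · subst h1
      simp [ei_ne hik.symm, ei_ne hjk.symm, ei_ne hil.symm, ei_ne hjl.symm]
    · by_cases h2 : x = l
      · subst h2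
        simp [ei_ne hik.symm, ei_ne hjk.symm, ei_ne hil.symm, ei_ne hjl.symm]
      · rw [Equiv.swap_apply_of_ne_of_ne h1 h2]
  have w4 : sw i j (Wr K k l φ) = Wr K k l φ := by
    rw [Wr, sw_mo]
    congr 1
    funext x
    simp only [Function.comp_apply, Pi.add_apply, Pi.smul_apply]
    by_cases h1 : x = i
    · subst h1
      simp [ei_ne hik, ei_ne hjk, ei_ne hil, ei_ne hjl]
    · by_cases h2 : x = j
      · subst h2
        simp [ei_ne hik, ei_ne hjk, ei_ne hil, ei_ne hjl]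
      · rw [Equiv.swap_apply_of_ne_of_ne h1 h2]
  have w5 : sw i j (sw k l f) = sw k l (sw i j f) := by
    have : ((sw i j).comp (sw k l)).toLinearMap =
        (((sw k l).comp (sw i j)).toLinearMap : LR K m →ₗ[K] LR K m) := by
      refine lin_ext fun c => ?_
      simp only [AlgHom.toLinearMap_apply, AlgHom.comp_apply, sw_mo]
      congr 1
      funext x
      simp only [Function.comp_apply]
      congr 1
      have h5 : Equiv.swap i j * Equiv.swap k l = Equiv.swap k l * Equiv.swap i j :=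
        (Equiv.Perm.disjoint_iff_disjoint_support.2 (by
          rw [Equiv.Perm.support_swap hij, Equiv.Perm.support_swap hkl]
          simp [hik, hil, hjk, hjl, hik.symm, hil.symm, hjk.symm, hjl.symm])).commute
      have := congrArg (fun e : Equiv.Perm (Fin m) => e x) h5
      simpa [Equiv.Perm.mul_apply] using this.symm
    exact LinearMap.congr_fun this f
  have a2s := congrArg (sw i j) a2
  have a1s := congrArg (sw k l) a1
  simp only [Algebra.smul_def, map_sub, map_one, map_mul, sw_zz, e1, e2, e3, e4, w1, w2, w3, w4,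
    sw_algebraMap] at a1 a2 b1 b2 a1s a2s
  rw [← w5] at a1s
  apply mul_left_cancel₀ (mul_ne_zero (zz_sub_ne_zero (K := K) hij) (zz_sub_ne_zero (K := K) hkl))
  linear_combination (zz k - zz l) * b1 - (zz i - zz j) * b2 +
    (zz i - algebraMap K (LR K m) q * zz j) * a2s - (zz k - algebraMap K (LR K m) q * zz l) * a1s
    - (1 - algebraMap K (LR K m) q) * Wr K i j φ * a2 + (1 - algebraMap K (LR K m) q) * Wr K k l φ * a1

end Pool.Agent.Lib.MP0e7911H38
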