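import Pool.Agent.Lib.MP_0e7911_co_h38.FC

/-!
# Part B: the constant term functional and the kernel, definitions
-/

set_option autoImplicit false

namespace Pool.Agent.Lib.MP0e7911H38

open Finset

variable {K : Type*} [Field K] {m : ℕ}

/-- shift of the variables: `z_i ↦ z_{i+1}` -/
noncomputable def up : LR K m →ₐ[K] LR K (m + 1) :=
  AddMonoidAlgebra.mapDomainAlgHom K K
    { toFun := fun c => (Fin.cons 0 c : Fin (m + 1) → ℚ)
      map_zero' := by funext k; refine Fin.cases ?_ (fun k => ?_) k <;> simp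
      map_add' := fun c d => by funext k; refine Fin.cases ?_ (fun k => ?_) k <;> simp }

theorem up_mo (c : Fin m → ℚ) : up (mo c : LR K m) = mo (Fin.cons 0 c : Fin (m + 1) → ℚ) := by
  simp [up, mo]

/-- the inclusion of the first `m` variables -/
noncomputable def dn : LR K m →ₐ[K] LR K (m + 1) :=
  AddMonoidAlgebra.mapDomainAlgHom K K
    { toFun := fun c => (Fin.snoc c 0 : Fin (m + 1) → ℚ)
      map_zero' := by funext k; refine Fin.lastCases ?_ (fun k => ?_) k <;> simp
      map_add' := fun c d => by funext k; refine Fin.lastCases ?_ (fun k => ?_) k <;> simp }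

theorem dn_mo (c : Fin m → ℚ) : dn (mo c : LR K m) = mo (Fin.snoc c 0 : Fin (m + 1) → ℚ) := by
  simp [dn, mo]

/-- coefficients of `(1 - X) / (1 - q X)` -/
def eta (q : K) : ℕ → K
  | 0 => 1
  | k + 1 => q ^ (k + 1) - q ^ k

/-- coefficients of `(1 - q X) / (1 - X)` -/
def zeta (q : K) : ℕ → K
  | 0 => 1
  | _ + 1 => 1 - q

/-- `(1 - z X) / (1 - q z X)` -/
noncomputable def Eh {R : Type*} [CommRing R] [Algebra K R] (q : K) (z : R) : PowerSeries R :=
  PowerSeries.mk fun k => eta q k • z ^ k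

/-- `(1 - q z X) / (1 - z X)` -/
noncomputable def Ec {R : Type*} [CommRing R] [Algebra K R] (q : K) (z : R) : PowerSeries R :=
  PowerSeries.mk fun k => zeta q k • z ^ k

/-- `1 / (1 - z X)` -/
noncomputable def Eg {R : Type*} [CommRing R] (z : R) : PowerSeries R :=
  PowerSeries.mk fun k => z ^ k

/-- `H = ∏_j (1 - z_j X) / (1 - q z_j X)` -/
noncomputable def Hser (q : K) (m : ℕ) : PowerSeries (LR K m) := ∏ j, Eh q (zz j)

/-- `H_a` -/
noncomputable def Hc (q : K) (m : ℕ) (a : ℕ) : LR K m := PowerSeries.coeff a (Hser q m)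

/-- `C = ∏_j (1 - q z_j X) / (1 - z_j X) = 1 / H` -/
noncomputable def Cser (q : K) (m : ℕ) : PowerSeries (LR K m) := ∏ j, Ec q (zz j)

/-- `B = 1 / (1 - z_0 X) * ∏_{j > 0} (1 - q z_j X) / (1 - z_j X)` in `m + 1` variables -/
noncomputable def Bser (q : K) (m : ℕ) : PowerSeries (LR K (m + 1)) :=
  Eg (zz 0) * ∏ j : Fin m, Ec q (zz j.succ)

/-- `Q_e = ∏_i [X^{e_i}] B(z_i, z_{i+1}, ...)` -/
noncomputable def Qe (q : K) : (m : ℕ) → (Fin m → ℕ) → LR K m
  | 0, _ => 1
  | m + 1, e => PowerSeries.coeff (e 0) (Bser q m) * up (Qe q m (Fin.tail e))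

/-- The functional `L(f) = constant term of f * ∏_{i<j} (1 - z_j/z_i) / (1 - q z_j/z_i)`:
`L(z_0^a up(g)) = L(H_a g)` for `a ∈ ℕ`, and `0` otherwise. -/
noncomputable def Lf (q : K) : (m : ℕ) → (LR K m →ₗ[K] K)
  | 0 => lin fun _ => 1
  | m + 1 => lin fun c =>
      if c 0 = (⌊c 0⌋₊ : ℚ) then Lf q m (Hc q m ⌊c 0⌋₊ * mo (Fin.tail c)) else 0

/-- the exponent with natural coordinates -/
def nexp (e : Fin m → ℕ) : Fin m → ℚ := fun i => (e i : ℚ)

/-- `stat(c, S) = #{i < j : i ∉ S, j ∈ S, c_j < c_i < c_j + 1}` -/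
def stat (c : Fin m → ℚ) (S : Finset (Fin m)) : ℕ :=
  (univ.filter (fun p : Fin m × Fin m => p.1 < p.2 ∧ p.1 ∉ S ∧ p.2 ∈ S ∧ c p.2 < c p.1 ∧
    c p.1 < c p.2 + 1)).card

/-- indicator exponent of a set of columns -/
def ind (S : Finset (Fin m)) : Fin m → ℚ := fun i => if i ∈ S then 1 else 0

/-- The sum over the chains from `c` to `d`: at each label (element of the list) a set of columns
is raised. -/
noncomputable def chain (q : K) : List K → (Fin m → ℚ) → (Fin m → ℚ) → K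
  | [], c, d => if c = d then 1 else 0
  | x :: xs, c, d => ∑ S : Finset (Fin m), x ^ S.card * q ^ stat c S * chain q xs (c + ind S) d

/-- `∏_{x ∈ xs} ∏_i (1 + x z_i)` -/
noncomputable def Om (m : ℕ) (xs : List K) : LR K m :=
  (xs.map fun x => ∏ i : Fin m, (1 + x • zz i)).prod

end Pool.Agent.Lib.MP0e7911H38
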