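import Pool.Agent.Lib.MP_0e7911_co_h38.Braid

/-!
# Nonsymmetric Hall-Littlewood polynomials with rational index
-/

set_option autoImplicit false

namespace Pool.Agent.Lib.MP0e7911H38

open Finset

variable {K : Type*} [Field K] {m : ℕ}

/-- Inversions. -/
def Inv (c : Fin m → ℚ) : Finset (Fin m × Fin m) :=
  univ.filter (fun p => p.1 < p.2 ∧ c p.2 < c p.1)

theorem swap_lt {i j : Fin m} (hij : (i : ℕ) + 1 = j) {a b : Fin m} (hab : a < b)
    (h : ¬ (a = i ∧ b = j)) : Equiv.swap i j a < Equiv.swap i j b := by
  rw [Equiv.swap_apply_def, Equiv.swap_apply_def]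
  simp only [Fin.lt_def, Fin.ext_iff] at *
  split_ifs <;> omega

theorem card_Inv_swap {i j : Fin m} (hij : (i : ℕ) + 1 = j) {c : Fin m → ℚ} (h : c j < c i) :
    (Inv (c ∘ Equiv.swap i j)).card + 1 = (Inv c).card := by
  have hne : i ≠ j := by intro h'; rw [h'] at hij; omega
  have hmem : (i, j) ∈ Inv c := by
    rw [Inv, mem_filter]
    exact ⟨mem_univ _, by rw [Fin.lt_def]; simp only; omega, h⟩
  rw [← card_erase_add_one hmem]
  congr 1
  refine card_bij (fun p _ => (Equiv.swap i j p.1, Equiv.swap i j p.2)) ?_ ?_ ?_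
  · rintro ⟨a, b⟩ hp
    rw [Inv, mem_filter] at hp
    obtain ⟨-, h1, h2⟩ := hp
    simp only [Function.comp_apply] at h1 h2
    have h3 : ¬ (a = i ∧ b = j) := by
      rintro ⟨rfl, rfl⟩
      rw [Equiv.swap_apply_left, Equiv.swap_apply_right] at h2
      exact absurd h2 (not_lt.2 h.le)
    rw [mem_erase, Inv, mem_filter]
    refine ⟨?_, mem_univ _, swap_lt hij h1 h3, h2⟩
    intro h4
    rw [Prod.mk.injEq] at h4
    have h5 : a = j := by
      have := congrArg (Equiv.swap i j) h4.1
      rwa [Equiv.swap_apply_self, Equiv.swap_apply_left] at this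
    have h6 : b = i := by
      have := congrArg (Equiv.swap i j) h4.2
      rwa [Equiv.swap_apply_self, Equiv.swap_apply_right] at this
    rw [h5, h6, Fin.lt_def] at h1
    omega
  · rintro ⟨a, b⟩ _ ⟨a', b'⟩ _ h1
    simp only [Prod.mk.injEq, EmbeddingLike.apply_eq_iff_eq] at h1
    exact Prod.ext h1.1 h1.2
  · rintro ⟨a, b⟩ hp
    rw [mem_erase, Inv, mem_filter] at hp
    obtain ⟨h0, -, h1, h2⟩ := hp
    refine ⟨(Equiv.swap i j a, Equiv.swap i j b), ?_, by simp⟩
    rw [Inv, mem_filter]
    refine ⟨mem_univ _, swap_lt hij h1 (fun h3 => h0 (Prod.ext h3.1 h3.2)), ?_⟩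
    simpa using h2

open Classical in
/-- The nonsymmetric Hall-Littlewood polynomial with index `c`. -/
noncomputable def FC (q : K) (c : Fin m → ℚ) : LR K m :=
  if h : ∃ p : Fin m × Fin m, (p.1 : ℕ) + 1 = p.2 ∧ c p.2 < c p.1 then
    T q (Classical.choose h).1 (Classical.choose h).2
      (FC q (c ∘ Equiv.swap (Classical.choose h).1 (Classical.choose h).2))
  else mo c
termination_by (Inv c).card
decreasing_by
  have := card_Inv_swap (Classical.choose_spec h).1 (Classical.choose_spec h).2
  omega

theorem FC_mono (q : K) {c : Fin m → ℚ} (hc : ∀ i j : Fin m, (i : ℕ) + 1 = j → c i ≤ c j) :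
    FC q c = mo c := by
  rw [FC, dif_neg]
  rintro ⟨p, h1, h2⟩
  exact absurd (hc _ _ h1) (not_le.2 h2)

/-- Induction principle along sorting. -/
theorem sort_induction {P : (Fin m → ℚ) → Prop}
    (h : ∀ c, (∀ c', (Inv c').card < (Inv c).card → P c') → P c) (c : Fin m → ℚ) : P c := by
  induction hn : (Inv c).card using Nat.strong_induction_on generalizing c with
  | _ n ih =>
    subst hn
    exact h c fun c' hc' => ih _ hc' c' rfl

theorem FC_mem_Cos (q : K) (c : Fin m → ℚ) : FC q c ∈ Cos K c := by
  induction c using sort_induction with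
  | _ c ih =>
    rw [FC]
    split_ifs with h
    · have h1 := ih (c ∘ Equiv.swap (Classical.choose h).1 (Classical.choose h).2) (by
        have := card_Inv_swap (Classical.choose_spec h).1 (Classical.choose_spec h).2
        omega)
      have h2 := T_mem_Cos q (Classical.choose h).1 (Classical.choose h).2 h1
      have h3 : (c ∘ Equiv.swap (Classical.choose h).1 (Classical.choose h).2) ∘
          Equiv.swap (Classical.choose h).1 (Classical.choose h).2 = c := by
        funext l
        simp
      rwa [h3] at h2
    · exact mo_mem_Cos (Cong.refl c)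

theorem comp_swap_swap (c : Fin m → ℚ) (i j : Fin m) :
    (c ∘ Equiv.swap i j) ∘ Equiv.swap i j = c := by
  funext l
  simp

theorem swap_comm_comp {i j k l : Fin m} (hik : i ≠ k) (hil : i ≠ l) (hjk : j ≠ k) (hjl : j ≠ l)
    (c : Fin m → ℚ) :
    (c ∘ Equiv.swap k l) ∘ Equiv.swap i j = (c ∘ Equiv.swap i j) ∘ Equiv.swap k l := by
  funext x
  simp only [Function.comp_apply]
  congr 1
  by_cases h1 : x = i
  · subst h1
    rw [Equiv.swap_apply_left, Equiv.swap_apply_of_ne_of_ne hik hil,
      Equiv.swap_apply_of_ne_of_ne hjk hjl, Equiv.swap_apply_left]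
  · by_cases h2 : x = j
    · subst h2
      rw [Equiv.swap_apply_right, Equiv.swap_apply_of_ne_of_ne hik hil,
        Equiv.swap_apply_of_ne_of_ne hjk hjl, Equiv.swap_apply_right]
    · rw [Equiv.swap_apply_of_ne_of_ne h1 h2]
      by_cases h3 : x = k
      · subst h3
        rw [Equiv.swap_apply_left, Equiv.swap_apply_of_ne_of_ne hil.symm hjl.symm]
      · by_cases h4 : x = l
        · subst h4
          rw [Equiv.swap_apply_right, Equiv.swap_apply_of_ne_of_ne hik.symm hjk.symm]
        · rw [Equiv.swap_apply_of_ne_of_ne h3 h4, Equiv.swap_apply_of_ne_of_ne h1 h2]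

/-- The sorting step, any descent. -/
theorem FC_step (q : K) (c : Fin m → ℚ) (hc : Gen c) {i j : Fin m} (hij : (i : ℕ) + 1 = j)
    (h : c j < c i) : FC q c = T q i j (FC q (c ∘ Equiv.swap i j)) := by
  induction c using sort_induction generalizing i j with
  | _ c ih =>
    -- the chain lemma
    have chain : ∀ a b d : Fin m, (a : ℕ) + 1 = b → (b : ℕ) + 1 = d → c b < c a → c d < c b →
        T q a b (FC q (c ∘ Equiv.swap a b)) = T q b d (FC q (c ∘ Equiv.swap b d)) := by
      intro a b d hab hbd h1 h2
      have nab : a ≠ b := by intro h'; rw [h'] at hab; omega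
      have nbd : b ≠ d := by intro h'; rw [h'] at hbd; omega
      have nad : a ≠ d := by intro h'; rw [← h'] at hbd; omega
      have e1 : Equiv.swap a b a = b := Equiv.swap_apply_left _ _
      have e2 : Equiv.swap a b b = a := Equiv.swap_apply_right _ _
      have e3 : Equiv.swap a b d = d := Equiv.swap_apply_of_ne_of_ne nad.symm nbd.symm
      have e4 : Equiv.swap b d a = a := Equiv.swap_apply_of_ne_of_ne nab nad
      have e5 : Equiv.swap b d b = d := Equiv.swap_apply_left _ _
      have e6 : Equiv.swap b d d = b := Equiv.swap_apply_right _ _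
      -- first way
      have c1 := card_Inv_swap hab h1
      have h3 : (c ∘ Equiv.swap a b) d < (c ∘ Equiv.swap a b) b := by
        simp only [Function.comp_apply, e2, e3]; exact h2.trans h1
      have f1 := ih (c ∘ Equiv.swap a b) (by omega) (hc.comp _) hbd h3
      have c2 := card_Inv_swap hbd h3
      have h4 : ((c ∘ Equiv.swap a b) ∘ Equiv.swap b d) b < ((c ∘ Equiv.swap a b) ∘ Equiv.swap b d) a := by
        simp only [Function.comp_apply, e1, e2, e3, e4, e5, e6]; exact h2
      have f2 := ih ((c ∘ Equiv.swap a b) ∘ Equiv.swap b d) (by omega) ((hc.comp _).comp _) hab h4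
      -- second way
      have c3 := card_Inv_swap hbd h2
      have h5 : (c ∘ Equiv.swap b d) b < (c ∘ Equiv.swap b d) a := by
        simp only [Function.comp_apply, e4, e5]; exact h2.trans h1
      have f3 := ih (c ∘ Equiv.swap b d) (by omega) (hc.comp _) hab h5
      have c4 := card_Inv_swap hab h5
      have h6 : ((c ∘ Equiv.swap b d) ∘ Equiv.swap a b) d < ((c ∘ Equiv.swap b d) ∘ Equiv.swap a b) b := by
        simp only [Function.comp_apply, e1, e2, e3, e4, e5, e6]; exact h1
      have f4 := ih ((c ∘ Equiv.swap b d) ∘ Equiv.swap a b) (by omega) ((hc.comp _).comp _) hbd h6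
      rw [f1, f2, f3, f4, swap_braid_comp nab nbd nad]
      exact T_braid q nab nbd nad (((hc.comp _).comp _).comp _) (FC_mem_Cos q _)
    -- unfold
    have hex : ∃ p : Fin m × Fin m, (p.1 : ℕ) + 1 = p.2 ∧ c p.2 < c p.1 := ⟨(i, j), hij, h⟩
    have hF : FC q c = T q (Classical.choose hex).1 (Classical.choose hex).2
        (FC q (c ∘ Equiv.swap (Classical.choose hex).1 (Classical.choose hex).2)) := by
      rw [FC, dif_pos hex]
    obtain ⟨hkl, hd⟩ := Classical.choose_spec hex
    rw [hF]
    generalize (Classical.choose hex).1 = k at *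
    generalize (Classical.choose hex).2 = l at *
    rcases lt_trichotomy (k : ℕ) (i : ℕ) with hki | hki | hki
    · by_cases hli : (l : ℕ) = i
      · have hli' : l = i := Fin.ext hli
        subst hli'
        exact chain k l j hkl hij hd h
      · -- far
        have n1 : k ≠ l := by intro h'; rw [h'] at hkl; omega
        have n2 : i ≠ j := by intro h'; rw [h'] at hij; omega
        have n3 : k ≠ i := by intro h'; rw [h'] at hki; omega
        have n4 : k ≠ j := by intro h'; rw [h'] at hki; omega
        have n5 : l ≠ i := fun h' => hli (by rw [h'])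
        have n6 : l ≠ j := by intro h'; rw [← h'] at hij; omega
        have c1 := card_Inv_swap hkl hd
        have h3 : (c ∘ Equiv.swap k l) j < (c ∘ Equiv.swap k l) i := by
          simp only [Function.comp_apply, Equiv.swap_apply_of_ne_of_ne n3.symm n5.symm,
            Equiv.swap_apply_of_ne_of_ne n4.symm n6.symm]
          exact h
        have f1 := ih (c ∘ Equiv.swap k l) (by omega) (hc.comp _) hij h3
        have c2 := card_Inv_swap hij h
        have h4 : (c ∘ Equiv.swap i j) l < (c ∘ Equiv.swap i j) k := by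
          simp only [Function.comp_apply, Equiv.swap_apply_of_ne_of_ne n3 n4,
            Equiv.swap_apply_of_ne_of_ne n5 n6]
          exact hd
        have f2 := ih (c ∘ Equiv.swap i j) (by omega) (hc.comp _) hkl h4
        have e : (c ∘ Equiv.swap k l) ∘ Equiv.swap i j = (c ∘ Equiv.swap i j) ∘ Equiv.swap k l :=
          swap_comm_comp n3.symm n5.symm n4.symm n6.symm c
        rw [f1, f2, e]
        exact T_far q n1 n2 n3 n4 n5 n6 ((hc.comp _).comp _) (FC_mem_Cos q _)
    · have hki' : k = i := Fin.ext hki
      have hlj : l = j := Fin.ext (by omega)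
      rw [hki', hlj]
    · by_cases hkj : (k : ℕ) = j
      · have hkj' : k = j := Fin.ext hkj
        subst hkj'
        exact (chain i k l hij hkl h hd).symm
      · have n1 : k ≠ l := by intro h'; rw [h'] at hkl; omega
        have n2 : i ≠ j := by intro h'; rw [h'] at hij; omega
        have n3 : k ≠ i := by intro h'; rw [h'] at hki; omega
        have n4 : k ≠ j := fun h' => hkj (by rw [h'])
        have n5 : l ≠ i := by intro h'; rw [h'] at hkl; omega
        have n6 : l ≠ j := by intro h'; rw [h'] at hkl; omega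
        have c1 := card_Inv_swap hkl hd
        have h3 : (c ∘ Equiv.swap k l) j < (c ∘ Equiv.swap k l) i := by
          simp only [Function.comp_apply, Equiv.swap_apply_of_ne_of_ne n3.symm n5.symm,
            Equiv.swap_apply_of_ne_of_ne n4.symm n6.symm]
          exact h
        have f1 := ih (c ∘ Equiv.swap k l) (by omega) (hc.comp _) hij h3
        have c2 := card_Inv_swap hij h
        have h4 : (c ∘ Equiv.swap i j) l < (c ∘ Equiv.swap i j) k := by
          simp only [Function.comp_apply, Equiv.swap_apply_of_ne_of_ne n3 n4,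
            Equiv.swap_apply_of_ne_of_ne n5 n6]
          exact hd
        have f2 := ih (c ∘ Equiv.swap i j) (by omega) (hc.comp _) hkl h4
        have e : (c ∘ Equiv.swap k l) ∘ Equiv.swap i j = (c ∘ Equiv.swap i j) ∘ Equiv.swap k l :=
          swap_comm_comp n3.symm n5.symm n4.symm n6.symm c
        rw [f1, f2, e]
        exact T_far q n1 n2 n3 n4 n5 n6 ((hc.comp _).comp _) (FC_mem_Cos q _)

end Pool.Agent.Lib.MP0e7911H38
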