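import Pool.Agent.Lib.MP_0e7911_co_h38.Defs2

/-!
# Properties of the family `FC`
-/

set_option autoImplicit false

namespace Pool.Agent.Lib.MP0e7911H38

open Finset

variable {K : Type*} [Field K] {m : ℕ}

theorem ne_of_adj {i j : Fin m} (hij : (i : ℕ) + 1 = j) : i ≠ j := by
  intro h'; rw [h'] at hij; omega

theorem T_FC_of_lt (q : K) {c : Fin m → ℚ} (hc : Gen c) {i j : Fin m} (hij : (i : ℕ) + 1 = j)
    (h : c i < c j) : T q i j (FC q c) = FC q (c ∘ Equiv.swap i j) := by
  have h1 : (c ∘ Equiv.swap i j) j < (c ∘ Equiv.swap i j) i := by simpa using h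
  rw [FC_step q (c ∘ Equiv.swap i j) (hc.comp _) hij h1, comp_swap_swap]

theorem T_FC_of_gt (q : K) {c : Fin m → ℚ} (hc : Gen c) {i j : Fin m} (hij : (i : ℕ) + 1 = j)
    (h : c j < c i) : T q i j (FC q c) = q • FC q (c ∘ Equiv.swap i j) := by
  rw [FC_step q c hc hij h]
  exact T_T q (ne_of_adj hij) ((hc.comp _) i j (ne_of_adj hij)) (FC_mem_Cos q _)

theorem T_mul_sym (q : K) {i j : Fin m} (hij : i ≠ j) {φ : Fin m → ℚ} (hφ : ∀ n : ℤ, φ j - φ i ≠ n)
    {P f : LR K m} (hP : P ∈ Cos K 0) (hs : sw i j P = P) (hf : f ∈ Cos K φ) :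
    T q i j (P * f) = P * T q i j f := by
  have h1 := div_T q hij hφ hf
  have h2 : P * f ∈ Cos K φ := by
    have := mul_mem_Cos hP hf
    rwa [zero_add] at this
  have h3 := div_T q hij hφ h2
  rw [map_mul (sw i j), hs] at h3
  apply mul_left_cancel₀ (zz_sub_ne_zero (K := K) hij)
  simp only [Algebra.smul_def] at h1 h3
  linear_combination h3 - P * h1

theorem Tm_add (q : K) {i j : Fin m} {v : Fin m → ℚ} (hv : v i = v j) (c : Fin m → ℚ) :
    Tm q i j (v + c) = mo v * Tm q i j c := by
  have h1 : (v + c) ∘ Equiv.swap i j = v + c ∘ Equiv.swap i j := by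
    funext k
    simp only [Function.comp_apply, Pi.add_apply]
    congr 1
    by_cases h1 : k = i
    · subst h1; simp [hv]
    · by_cases h2 : k = j
      · subst h2; simp [hv]
      · rw [Equiv.swap_apply_of_ne_of_ne h1 h2]
  have h2 : (v + c) j - (v + c) i = c j - c i := by simp only [Pi.add_apply]; linarith
  have h3 : (v + c) i - (v + c) j = c i - c j := by simp only [Pi.add_apply]; linarith
  rw [Tm, Tm, h1, h2, h3]
  by_cases h : c i < c j
  · rw [if_pos h, if_pos (by simp only [Pi.add_apply]; linarith), mul_add, mul_smul_comm, mul_sum, mo_mul]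
    congr 2
    refine sum_congr rfl fun k _ => ?_
    rw [mo_mul]
    congr 1
    abel
  · rw [if_neg h, if_neg (by simp only [Pi.add_apply]; linarith), mul_sub, mul_smul_comm,
      mul_smul_comm, mul_sum, mo_mul]
    congr 2
    refine sum_congr rfl fun k _ => ?_
    rw [mo_mul]
    congr 1
    abel

theorem T_mo_mul (q : K) {i j : Fin m} {v : Fin m → ℚ} (hv : v i = v j) (f : LR K m) :
    T q i j (mo v * f) = mo v * T q i j f := by
  have : (T q i j) ∘ₗ (LinearMap.mulLeft K (mo v)) = (LinearMap.mulLeft K (mo v)) ∘ₗ (T q i j) := by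
    refine lin_ext fun c => ?_
    simp only [LinearMap.comp_apply, LinearMap.mulLeft_apply, mo_mul, T_mo, Tm_add q hv]
  exact LinearMap.congr_fun this f

theorem cons_comp_swap (i j : Fin m) (a : ℚ) (c : Fin m → ℚ) :
    (Fin.cons a c : Fin (m + 1) → ℚ) ∘ Equiv.swap i.succ j.succ = Fin.cons a (c ∘ Equiv.swap i j) := by
  funext k
  refine Fin.cases ?_ (fun k => ?_) k
  · simp only [Function.comp_apply, Fin.cons_zero]
    rw [Equiv.swap_apply_of_ne_of_ne (Fin.succ_ne_zero i).symm (Fin.succ_ne_zero j).symm,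
      Fin.cons_zero]
  · simp only [Function.comp_apply, Fin.cons_succ]
    rw [← (Fin.succ_injective m).map_swap, Fin.cons_succ]

theorem snoc_comp_swap (i j : Fin m) (a : ℚ) (c : Fin m → ℚ) :
    (Fin.snoc c a : Fin (m + 1) → ℚ) ∘ Equiv.swap i.castSucc j.castSucc =
      Fin.snoc (c ∘ Equiv.swap i j) a := by
  funext k
  refine Fin.lastCases ?_ (fun k => ?_) k
  · simp only [Function.comp_apply, Fin.snoc_last]
    rw [Equiv.swap_apply_of_ne_of_ne (Fin.castSucc_lt_last i).ne' (Fin.castSucc_lt_last j).ne',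
      Fin.snoc_last]
  · simp only [Function.comp_apply, Fin.snoc_castSucc]
    rw [← (Fin.castSucc_injective m).map_swap, Fin.snoc_castSucc]

theorem al_succ (i j : Fin m) : (al i.succ j.succ : Fin (m + 1) → ℚ) = Fin.cons 0 (al i j) := by
  funext k
  refine Fin.cases ?_ (fun k => ?_) k
  · simp [al, ei]
  · simp only [al, ei, Pi.sub_apply, Fin.cons_succ, Pi.single_apply, Fin.succ_inj]

theorem al_castSucc (i j : Fin m) :
    (al i.castSucc j.castSucc : Fin (m + 1) → ℚ) = Fin.snoc (al i j) 0 := by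
  funext k
  refine Fin.lastCases ?_ (fun k => ?_) k
  · simp [al, ei, (Fin.castSucc_lt_last i).ne', (Fin.castSucc_lt_last j).ne']
  · simp only [al, ei, Pi.sub_apply, Fin.snoc_castSucc, Pi.single_apply, Fin.castSucc_inj]

theorem T_up (q : K) (i j : Fin m) (f : LR K m) :
    T q i.succ j.succ (up f) = up (T q i j f) := by
  have : (T q i.succ j.succ) ∘ₗ (up : LR K m →ₐ[K] LR K (m + 1)).toLinearMap =
      (up : LR K m →ₐ[K] LR K (m + 1)).toLinearMap ∘ₗ (T q i j) := by
    refine lin_ext fun c => ?_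
    simp only [LinearMap.comp_apply, AlgHom.toLinearMap_apply, up_mo, T_mo, Tm, Fin.cons_succ,
      cons_comp_swap, al_succ]
    split_ifs
    · simp only [map_add, map_smul, map_sum, up_mo]
      congr 2
      refine sum_congr rfl fun k _ => ?_
      congr 1
      funext l
      refine Fin.cases ?_ (fun l => ?_) l <;> simp
    · simp only [map_sub, map_smul, map_sum, up_mo]
      congr 2
      refine sum_congr rfl fun k _ => ?_
      congr 1
      funext l
      refine Fin.cases ?_ (fun l => ?_) l <;> simp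
  exact LinearMap.congr_fun this f

theorem T_dn (q : K) (i j : Fin m) (f : LR K m) :
    T q i.castSucc j.castSucc (dn f) = dn (T q i j f) := by
  have : (T q i.castSucc j.castSucc) ∘ₗ (dn : LR K m →ₐ[K] LR K (m + 1)).toLinearMap =
      (dn : LR K m →ₐ[K] LR K (m + 1)).toLinearMap ∘ₗ (T q i j) := by
    refine lin_ext fun c => ?_
    simp only [LinearMap.comp_apply, AlgHom.toLinearMap_apply, dn_mo, T_mo, Tm, Fin.snoc_castSucc,
      snoc_comp_swap, al_castSucc]
    split_ifs
    · simp only [map_add, map_smul, map_sum, dn_mo]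
      congr 2
      refine sum_congr rfl fun k _ => ?_
      congr 1
      funext l
      refine Fin.lastCases ?_ (fun l => ?_) l <;> simp
    · simp only [map_sub, map_smul, map_sum, dn_mo]
      congr 2
      refine sum_congr rfl fun k _ => ?_
      congr 1
      funext l
      refine Fin.lastCases ?_ (fun l => ?_) l <;> simp
  exact LinearMap.congr_fun this f

/-- Case distinction: no descent, or a descent. -/
theorem desc_cases (c : Fin m → ℚ) :
    (∀ i j : Fin m, (i : ℕ) + 1 = j → c i ≤ c j) ∨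
      ∃ i j : Fin m, (i : ℕ) + 1 = j ∧ c j < c i := by
  by_cases h : ∃ i j : Fin m, (i : ℕ) + 1 = j ∧ c j < c i
  · exact Or.inr h
  · push Not at h
    exact Or.inl fun i j hij => h i j hij

theorem Gen.add_const {c : Fin m → ℚ} (hc : Gen c) (p : ℚ) : Gen (c + fun _ => p) := by
  intro i j hij n hn
  apply hc i j hij n
  simp only [Pi.add_apply] at hn
  linarith

/-- translation -/
theorem FC_trans (q : K) (c : Fin m → ℚ) (hc : Gen c) (p : ℚ) :
    FC q (c + fun _ => p) = mo (fun _ => p) * FC q c := by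
  induction c using sort_induction with
  | _ c ih =>
    rcases desc_cases c with h | ⟨i, j, hij, h⟩
    · rw [FC_mono q h, FC_mono q (fun i j hij => by
        simp only [Pi.add_apply]; have := h i j hij; linarith), mo_mul]
      congr 1
      abel
    · rw [FC_step q c hc hij h, FC_step q (c + fun _ => p) (hc.add_const p) hij (by
        simp only [Pi.add_apply]; linarith)]
      have h1 : (c + fun _ => p) ∘ Equiv.swap i j = (c ∘ Equiv.swap i j) + fun _ => p := rfl
      rw [h1, ih _ (by have := card_Inv_swap hij h; omega) (hc.comp _)]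
      exact T_mo_mul q (by rfl) _

/-- nearly increasing index -/
theorem FC_near (q : K) (c : Fin m → ℚ) (hc : Gen c) (h : ∀ a b, a < b → c a < c b + 1) :
    FC q c = mo c := by
  induction c using sort_induction with
  | _ c ih =>
    rcases desc_cases c with h' | ⟨i, j, hij, h'⟩
    · exact FC_mono q h'
    · have h1 : ∀ a b, a < b → (c ∘ Equiv.swap i j) a < (c ∘ Equiv.swap i j) b + 1 := by
        intro a b hab
        by_cases h2 : a = i ∧ b = j
        · obtain ⟨rfl, rfl⟩ := h2
          simp only [Function.comp_apply, Equiv.swap_apply_left, Equiv.swap_apply_right]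
          linarith
        · exact h _ _ (swap_lt hij hab h2)
      rw [FC_step q c hc hij h', ih _ (by have := card_Inv_swap hij h'; omega) (hc.comp _) h1,
        T_mo, Tm, if_pos (by simpa using h'), comp_swap_swap]
      have h3 : ⌈(c ∘ Equiv.swap i j) j - (c ∘ Equiv.swap i j) i⌉₊ = 1 := by
        simp only [Function.comp_apply, Equiv.swap_apply_left, Equiv.swap_apply_right]
        rw [Nat.ceil_eq_iff one_ne_zero]
        have := h i j (by rw [Fin.lt_def]; omega)
        push_cast
        constructor <;> linarith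
      rw [h3]
      simp

theorem Gen.tail {a : ℚ} {c : Fin m → ℚ} (h : Gen (Fin.cons a c : Fin (m + 1) → ℚ)) : Gen c := by
  intro i j hij n
  have := h i.succ j.succ (fun h' => hij (Fin.succ_injective m h')) n
  simpa using this

theorem Gen.init {a : ℚ} {c : Fin m → ℚ} (h : Gen (Fin.snoc c a : Fin (m + 1) → ℚ)) : Gen c := by
  intro i j hij n
  have := h i.castSucc j.castSucc (fun h' => hij (Fin.castSucc_injective m h')) n
  simpa using this

theorem mono_of_adj {c : Fin m → ℚ} (h : ∀ i j : Fin m, (i : ℕ) + 1 = j → c i ≤ c j) :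
    Monotone c := by
  intro a b hab
  obtain ⟨k, hk⟩ := Nat.exists_eq_add_of_le (Fin.le_def.1 hab)
  induction k generalizing b with
  | zero =>
    have : a = b := Fin.ext (by omega)
    rw [this]
  | succ k ih =>
    have hlt : (a : ℕ) + k < m := by have := b.isLt; omega
    exact (ih (b := ⟨a + k, hlt⟩) (by rw [Fin.le_def]; simp) (by simp)).trans
      (h ⟨a + k, hlt⟩ b (by simp only; omega))

theorem FC_cons (q : K) (a : ℚ) (c : Fin m → ℚ) (hc : Gen (Fin.cons a c : Fin (m + 1) → ℚ))
    (h : ∀ k, a < c k + 1) :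
    FC q (Fin.cons a c : Fin (m + 1) → ℚ) = mo (Fin.cons a 0 : Fin (m + 1) → ℚ) * up (FC q c) := by
  induction c using sort_induction with
  | _ c ih =>
    rcases desc_cases c with h' | ⟨i, j, hij, h'⟩
    · have hm := mono_of_adj h'
      rw [FC_mono q h', up_mo, mo_mul, FC_near q _ hc]
      · congr 1
        funext k
        refine Fin.cases ?_ (fun k => ?_) k <;> simp
      · intro x y hxy
        rcases Fin.eq_zero_or_eq_succ x with rfl | ⟨x, rfl⟩
        · rcases Fin.eq_zero_or_eq_succ y with rfl | ⟨y, rfl⟩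
          · exact absurd hxy (lt_irrefl _)
          · simpa using h y
        · rcases Fin.eq_zero_or_eq_succ y with rfl | ⟨y, rfl⟩
          · exact absurd hxy (Fin.not_lt_zero _)
          · simp only [Fin.cons_succ]
            have := hm (Fin.succ_lt_succ_iff.1 hxy).le
            linarith
    · have hadj : (i.succ : ℕ) + 1 = j.succ := by simp only [Fin.val_succ]; omega
      rw [FC_step q c hc.tail hij h', FC_step q (Fin.cons a c : Fin (m + 1) → ℚ) hc hadj (by simpa using h'),
        cons_comp_swap, ih (c ∘ Equiv.swap i j) (by have := card_Inv_swap hij h'; omega)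
          (by rw [← cons_comp_swap]; exact hc.comp _) (fun k => h _),
        T_mo_mul q (by simp), T_up]

theorem FC_snoc (q : K) (a : ℚ) (c : Fin m → ℚ) (hc : Gen (Fin.snoc c a : Fin (m + 1) → ℚ))
    (h : ∀ k, c k < a + 1) :
    FC q (Fin.snoc c a : Fin (m + 1) → ℚ) = mo (Fin.snoc 0 a : Fin (m + 1) → ℚ) * dn (FC q c) := by
  induction c using sort_induction with
  | _ c ih =>
    rcases desc_cases c with h' | ⟨i, j, hij, h'⟩
    · have hm := mono_of_adj h'
      rw [FC_mono q h', dn_mo, mo_mul, FC_near q _ hc]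
      · congr 1
        funext k
        refine Fin.lastCases ?_ (fun k => ?_) k <;> simp
      · intro x y hxy
        induction x using Fin.lastCases with
        | last => exact absurd hxy (not_lt.2 (Fin.le_last y))
        | cast x =>
          induction y using Fin.lastCases with
          | last => simpa using h x
          | cast y =>
            simp only [Fin.snoc_castSucc]
            have := hm (Fin.castSucc_lt_castSucc_iff.1 hxy).le
            linarith
    · have hadj : (i.castSucc : ℕ) + 1 = j.castSucc := by simp only [Fin.val_castSucc]; omega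
      rw [FC_step q c hc.init hij h', FC_step q (Fin.snoc c a : Fin (m + 1) → ℚ) hc hadj (by simpa using h'),
        snoc_comp_swap, ih (c ∘ Equiv.swap i j) (by have := card_Inv_swap hij h'; omega)
          (by rw [← snoc_comp_swap]; exact hc.comp _) (fun k => h _),
        T_mo_mul q (by simp), T_dn]


/-! ### supports -/

theorem mem_span_mo {A : Set (Fin m → ℚ)} {f : LR K m} :
    f ∈ Submodule.span K (mo '' A) ↔ ∀ ν ∈ f.coeff.support, ν ∈ A := by
  classical
  constructor
  · intro hf
    refine Submodule.span_induction (p := fun f _ => ∀ ν ∈ f.coeff.support, ν ∈ A) ?_ ?_ ?_ ?_ hf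
    · rintro _ ⟨c, hc, rfl⟩ ν hν
      rw [mo, AddMonoidAlgebra.coeff_single] at hν
      have := Finsupp.support_single_subset hν
      rw [mem_singleton] at this
      rwa [this]
    · simp
    · intro f g _ _ hf hg ν hν
      rw [AddMonoidAlgebra.coeff_add] at hν
      rcases mem_union.1 (Finsupp.support_add hν) with h | h
      · exact hf ν h
      · exact hg ν h
    · intro r f _ hf ν hν
      rw [AddMonoidAlgebra.coeff_smul] at hν
      exact hf ν (Finsupp.support_smul hν)
  · intro h
    have h1 : f = ∑ ν ∈ f.coeff.support, f.coeff ν • mo ν := by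
      conv_lhs => rw [← AddMonoidAlgebra.sum_coeff_single f]
      rw [Finsupp.sum]
      refine sum_congr rfl fun ν _ => ?_
      simp [mo]
    rw [h1]
    exact Submodule.sum_mem _ fun ν hν => Submodule.smul_mem _ _ (Submodule.subset_span ⟨ν, h ν hν, rfl⟩)

/-- stability of a set of exponents -/
def Stab (Q : Set (Fin m → ℚ)) : Prop :=
  ∀ ν ∈ Q, ∀ i j, i ≠ j → ∀ t : ℚ, (0 ≤ t ∧ t ≤ ν j - ν i ∨ ν j - ν i ≤ t ∧ t ≤ 0) →
    ν + t • al i j ∈ Q

theorem T_stab (q : K) {Q : Set (Fin m → ℚ)} (hQ : Stab Q) {i j : Fin m} (hij : i ≠ j)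
    {f : LR K m} (hf : f ∈ Submodule.span K (mo '' Q)) :
    T q i j f ∈ Submodule.span K (mo '' Q) := by
  refine Submodule.span_induction (p := fun f _ => T q i j f ∈ Submodule.span K (mo '' Q))
    ?_ ?_ ?_ ?_ hf
  · rintro _ ⟨c, hc, rfl⟩
    have h0 : c ∘ Equiv.swap i j ∈ Q := by
      rw [swap_apply_exp i j hij c]
      refine hQ c hc i j hij _ ?_
      rcases le_total 0 (c j - c i) with h | h
      · exact Or.inl ⟨h, le_refl _⟩
      · exact Or.inr ⟨le_refl _, h⟩
    rw [T_mo, Tm]
    split_ifs with h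
    · refine Submodule.add_mem _ (Submodule.subset_span ⟨_, h0, rfl⟩) (Submodule.smul_mem _ _
        (Submodule.sum_mem _ fun k hk => Submodule.subset_span ⟨_, ?_, rfl⟩))
      have h1 : (k : ℚ) < c j - c i := Nat.lt_ceil.1 (mem_Ico.1 hk).2
      have h2 : c ∘ Equiv.swap i j - (k : ℚ) • al i j = c + (c j - c i - k) • al i j := by
        rw [swap_apply_exp i j hij c]
        module
      rw [h2]
      exact hQ c hc i j hij _ (Or.inl ⟨by linarith, by
        have : (0 : ℚ) ≤ k := Nat.cast_nonneg k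
        linarith⟩)
    · refine Submodule.sub_mem _ (Submodule.smul_mem _ _ (Submodule.subset_span ⟨_, h0, rfl⟩))
        (Submodule.smul_mem _ _
        (Submodule.sum_mem _ fun k hk => Submodule.subset_span ⟨_, ?_, rfl⟩))
      have h1 : (k : ℚ) < c i - c j := Nat.lt_ceil.1 (mem_Ico.1 hk).2
      have h2 : c ∘ Equiv.swap i j + (k : ℚ) • al i j = c + (c j - c i + k) • al i j := by
        rw [swap_apply_exp i j hij c]
        module
      rw [h2]
      exact hQ c hc i j hij _ (Or.inr ⟨by
        have : (0 : ℚ) ≤ k := Nat.cast_nonneg k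
        linarith, by linarith⟩)
  · simp
  · intro f g _ _ hf hg
    rw [map_add]
    exact Submodule.add_mem _ hf hg
  · intro r f _ hf
    rw [map_smul]
    exact Submodule.smul_mem _ _ hf

theorem Stab.swap {Q : Set (Fin m → ℚ)} (hQ : Stab Q) {i j : Fin m} (hij : i ≠ j)
    {c : Fin m → ℚ} (hc : c ∈ Q) : c ∘ Equiv.swap i j ∈ Q := by
  rw [swap_apply_exp i j hij c]
  refine hQ c hc i j hij _ ?_
  rcases le_total 0 (c j - c i) with h | h
  · exact Or.inl ⟨h, le_refl _⟩
  · exact Or.inr ⟨le_refl _, h⟩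

theorem FC_supp (q : K) {Q : Set (Fin m → ℚ)} (hQ : Stab Q) (c : Fin m → ℚ) (hg : Gen c)
    (hc : c ∈ Q) : FC q c ∈ Submodule.span K (mo '' Q) := by
  induction c using sort_induction with
  | _ c ih =>
    rcases desc_cases c with h' | ⟨i, j, hij, h'⟩
    · rw [FC_mono q h']
      exact Submodule.subset_span ⟨c, hc, rfl⟩
    · rw [FC_step q c hg hij h']
      exact T_stab q hQ (ne_of_adj hij) (ih _ (by have := card_Inv_swap hij h'; omega) (hg.comp _)
        (hQ.swap (ne_of_adj hij) hc))

theorem al_self (i j : Fin m) (hij : i ≠ j) : al i j i = 1 := by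
  simp [al, ei_self, ei_ne hij]

theorem al_right (i j : Fin m) (hij : i ≠ j) : al i j j = -1 := by
  simp [al, ei_self, ei_ne hij.symm]

theorem al_other {i j k : Fin m} (hi : k ≠ i) (hj : k ≠ j) : al i j k = 0 := by
  simp [al, ei_ne hi, ei_ne hj]

theorem sum_ei (ν : Fin m → ℚ) (i : Fin m) : ∑ k, ν k * ei i k = ν i := by
  simp [ei, Pi.single_apply]

theorem sum_al (i j : Fin m) : ∑ k, al i j k = 0 := by
  have h1 := sum_ei (fun _ : Fin m => (1 : ℚ)) i
  have h2 := sum_ei (fun _ : Fin m => (1 : ℚ)) j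
  simp only [one_mul] at h1 h2
  simp only [al, Pi.sub_apply, sum_sub_distrib, h1, h2, sub_self]

theorem sum_sq_al {i j : Fin m} (hij : i ≠ j) (ν : Fin m → ℚ) (t : ℚ) :
    ∑ k, (ν + t • al i j) k ^ 2 = ∑ k, ν k ^ 2 - 2 * t * (ν j - ν i - t) := by
  have h1 : ∀ k, (ν + t • al i j) k ^ 2 =
      ν k ^ 2 + 2 * t * (ν k * ei i k - ν k * ei j k) +
        t ^ 2 * (ei i k * ei i k - 2 * (ei i k * ei j k) + ei j k * ei j k) := by
    intro k
    simp only [Pi.add_apply, Pi.smul_apply, al, Pi.sub_apply, smul_eq_mul]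
    ring
  rw [sum_congr rfl fun k _ => h1 k]
  simp only [sum_add_distrib, ← mul_sum, sum_sub_distrib, sum_ei, ei_self, ei_ne hij.symm]
  ring

theorem stab_sq (N : ℚ) : Stab {ν : Fin m → ℚ | ∑ k, ν k ^ 2 < N} := by
  intro ν hν i j hij t ht
  rw [Set.mem_ofPred_eq] at hν ⊢
  rw [sum_sq_al hij]
  have : 0 ≤ t * (ν j - ν i - t) := by
    rcases ht with ⟨h1, h2⟩ | ⟨h1, h2⟩
    · exact mul_nonneg h1 (by linarith)
    · exact mul_nonneg_of_nonpos_of_nonpos h2 (by linarith)
  nlinarith

theorem sum_sq_swap (c : Fin m → ℚ) (i j : Fin m) :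
    ∑ k, (c ∘ Equiv.swap i j) k ^ 2 = ∑ k, c k ^ 2 :=
  Equiv.sum_comp (Equiv.swap i j) (fun k => c k ^ 2)

/-- leading term -/
theorem FC_lead (q : K) (c : Fin m → ℚ) (hc : Gen c) :
    FC q c - mo c ∈ Submodule.span K (mo '' {ν : Fin m → ℚ | ∑ k, ν k ^ 2 < ∑ k, c k ^ 2}) := by
  induction c using sort_induction with
  | _ c ih =>
    rcases desc_cases c with h' | ⟨i, j, hij, h'⟩
    · rw [FC_mono q h', sub_self]
      exact Submodule.zero_mem _
    · have h1 := ih (c ∘ Equiv.swap i j) (by have := card_Inv_swap hij h'; omega) (hc.comp _)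
      rw [sum_sq_swap] at h1
      have h2 := T_stab q (stab_sq _) (ne_of_adj hij) h1
      rw [map_sub, ← FC_step q c hc hij h'] at h2
      have h3 : T q i j (mo (c ∘ Equiv.swap i j)) - mo c ∈
          Submodule.span K (mo '' {ν : Fin m → ℚ | ∑ k, ν k ^ 2 < ∑ k, c k ^ 2}) := by
        rw [T_mo, Tm, if_pos (by simpa using h'), comp_swap_swap, add_sub_cancel_left]
        refine Submodule.smul_mem _ _ (Submodule.sum_mem _ fun k hk =>
          Submodule.subset_span ⟨_, ?_, rfl⟩)
        obtain ⟨hk1, hk2⟩ := mem_Ico.1 hk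
        have hk3 := Nat.lt_ceil.1 hk2
        simp only [Function.comp_apply, Equiv.swap_apply_left, Equiv.swap_apply_right] at hk3
        have hk4 : (1 : ℚ) ≤ k := by exact_mod_cast hk1
        rw [Set.mem_ofPred_eq, sub_eq_add_neg, ← neg_smul, sum_sq_al (ne_of_adj hij)]
        nlinarith
      have h4 := Submodule.add_mem _ h2 h3
      rwa [sub_add_sub_cancel] at h4

theorem stab_ge (w N : ℚ) : Stab {ν : Fin m → ℚ | (∀ k, w ≤ ν k) ∧ ∑ k, ν k = N} := by
  rintro ν ⟨h1, h2⟩ i j hij t ht
  refine ⟨fun k => ?_, ?_⟩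
  · simp only [Pi.add_apply, Pi.smul_apply, smul_eq_mul]
    by_cases hk : k = i
    · subst hk
      rw [al_self _ _ hij]
      have := h1 k
      have := h1 j
      rcases ht with ht | ht <;> linarith [ht.1, ht.2]
    · by_cases hk' : k = j
      · subst hk'
        rw [al_right _ _ hij]
        have := h1 k
        have := h1 i
        rcases ht with ht | ht <;> linarith [ht.1, ht.2]
      · rw [al_other hk hk']
        have := h1 k
        linarith
  · simp only [Pi.add_apply, Pi.smul_apply, smul_eq_mul, sum_add_distrib, ← mul_sum, sum_al, h2]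
    ring

theorem stab_le (w N : ℚ) : Stab {ν : Fin m → ℚ | (∀ k, ν k ≤ w) ∧ ∑ k, ν k = N} := by
  rintro ν ⟨h1, h2⟩ i j hij t ht
  refine ⟨fun k => ?_, ?_⟩
  · simp only [Pi.add_apply, Pi.smul_apply, smul_eq_mul]
    by_cases hk : k = i
    · subst hk
      rw [al_self _ _ hij]
      have := h1 k
      have := h1 j
      rcases ht with ht | ht <;> linarith [ht.1, ht.2]
    · by_cases hk' : k = j
      · subst hk'
        rw [al_right _ _ hij]
        have := h1 k
        have := h1 i
        rcases ht with ht | ht <;> linarith [ht.1, ht.2]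
      · rw [al_other hk hk']
        have := h1 k
        linarith
  · simp only [Pi.add_apply, Pi.smul_apply, smul_eq_mul, sum_add_distrib, ← mul_sum, sum_al, h2]
    ring

theorem Gen.nexp_add {φ : Fin m → ℚ} (hφ : Gen φ) (a : Fin m → ℕ) : Gen (nexp a + φ) := by
  refine hφ.cong fun k => ⟨(a k : ℤ), ?_⟩
  simp only [Pi.add_apply, nexp]
  push_cast
  ring

theorem Gen.neg {φ : Fin m → ℚ} (hφ : Gen φ) : Gen (-φ) := by
  intro i j hij n hn
  apply hφ i j hij (-n)
  simp only [Pi.neg_apply] at hn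
  push_cast
  linarith

theorem FC_poly (q : K) {φ : Fin m → ℚ} {w : ℚ} (h0 : ∀ k, w ≤ φ k) (h1 : ∀ k, φ k < w + 1)
    (hφ : Gen φ) (a : Fin m → ℕ) :
    FC q (nexp a + φ) ∈ Submodule.span K
      (mo '' {ν : Fin m → ℚ | ∃ b : Fin m → ℕ, ∑ k, b k = ∑ k, a k ∧ ν = nexp b + φ}) := by
  have hg := hφ.nexp_add a
  have h2 := FC_supp q (stab_ge w (∑ k, (nexp a + φ) k)) (nexp a + φ) hg
    ⟨fun k => by
      have := h0 k
      have h3 : (0 : ℚ) ≤ nexp a k := Nat.cast_nonneg _
      simp only [Pi.add_apply]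
      linarith, rfl⟩
  have h3 := FC_mem_Cos q (nexp a + φ)
  rw [Cos] at h3
  rw [mem_span_mo] at h2 h3 ⊢
  intro ν hν
  obtain ⟨h4, h5⟩ := h2 ν hν
  have h6 := h3 ν hν
  have h7 : ∀ k, ∃ n : ℕ, ν k = n + φ k := by
    intro k
    obtain ⟨n, hn⟩ := h6 k
    have h8 := h4 k
    have h9 := h1 k
    simp only [Pi.add_apply, nexp] at hn
    have h10 : (-1 : ℚ) < ((a k : ℤ) + n : ℤ) := by push_cast; linarith
    have h11 : (-1 : ℤ) < (a k : ℤ) + n := by exact_mod_cast h10
    obtain ⟨b, hb⟩ := Int.eq_ofNat_of_zero_le (show 0 ≤ (a k : ℤ) + n by omega)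
    refine ⟨b, ?_⟩
    have h12 : ((a k : ℤ) : ℚ) + n = b := by exact_mod_cast hb
    push_cast at h12
    linarith
  choose b hb using h7
  refine ⟨b, ?_, funext fun k => by simp only [hb k, Pi.add_apply, nexp]⟩
  have h8 : ∑ k, ((b k : ℚ) + φ k) = ∑ k, (nexp a + φ) k := by
    rw [← h5]
    exact sum_congr rfl fun k _ => (hb k).symm
  simp only [Pi.add_apply, nexp, sum_add_distrib] at h8
  have h9 : ∑ k, (b k : ℚ) = ∑ k, (a k : ℚ) := by linarith
  exact_mod_cast h9

theorem FC_poly_neg (q : K) {φ : Fin m → ℚ} {w : ℚ} (h0 : ∀ k, w ≤ φ k) (h1 : ∀ k, φ k < w + 1)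
    (hφ : Gen φ) (a : Fin m → ℕ) :
    FC q (-(nexp a + φ)) ∈ Submodule.span K
      (mo '' {ν : Fin m → ℚ | ∃ b : Fin m → ℕ, ∑ k, b k = ∑ k, a k ∧ ν = -(nexp b + φ)}) := by
  have hg := (hφ.nexp_add a).neg
  have h2 := FC_supp q (stab_le (-w) (∑ k, (-(nexp a + φ)) k)) (-(nexp a + φ)) hg
    ⟨fun k => by
      have := h0 k
      have h3 : (0 : ℚ) ≤ nexp a k := Nat.cast_nonneg _
      simp only [Pi.add_apply, Pi.neg_apply]
      linarith, rfl⟩
  have h3 := FC_mem_Cos q (-(nexp a + φ))
  rw [Cos] at h3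
  rw [mem_span_mo] at h2 h3 ⊢
  intro ν hν
  obtain ⟨h4, h5⟩ := h2 ν hν
  have h6 := h3 ν hν
  have h7 : ∀ k, ∃ n : ℕ, ν k = -(n + φ k) := by
    intro k
    obtain ⟨n, hn⟩ := h6 k
    have h8 := h4 k
    have h9 := h1 k
    simp only [Pi.add_apply, Pi.neg_apply, nexp] at hn
    have h10 : (-1 : ℚ) < ((a k : ℤ) - n : ℤ) := by push_cast; linarith
    have h11 : (-1 : ℤ) < (a k : ℤ) - n := by exact_mod_cast h10
    obtain ⟨b, hb⟩ := Int.eq_ofNat_of_zero_le (show 0 ≤ (a k : ℤ) - n by omega)
    refine ⟨b, ?_⟩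
    have h12 : ((a k : ℤ) : ℚ) - n = b := by exact_mod_cast hb
    push_cast at h12
    linarith
  choose b hb using h7
  refine ⟨b, ?_, funext fun k => by simp only [hb k, Pi.add_apply, Pi.neg_apply, nexp]⟩
  have h8 : ∑ k, (-((b k : ℚ) + φ k)) = ∑ k, (-(nexp a + φ)) k := by
    rw [← h5]
    exact sum_congr rfl fun k _ => (hb k).symm
  simp only [Pi.add_apply, Pi.neg_apply, nexp, sum_neg_distrib, sum_add_distrib] at h8
  have h9 : ∑ k, (b k : ℚ) = ∑ k, (a k : ℚ) := by linarith
  exact_mod_cast h9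


/-! ### Pieri -/

theorem one_mem_Cos : (1 : LR K m) ∈ Cos K 0 := mo_mem_Cos (Cong.refl 0)

theorem mul_mem_Cos_zero {f g : LR K m} (hf : f ∈ Cos K 0) (hg : g ∈ Cos K 0) : f * g ∈ Cos K 0 := by
  have := mul_mem_Cos hf hg
  rwa [zero_add] at this

theorem zz_mem_Cos (i : Fin m) : (zz i : LR K m) ∈ Cos K 0 := mo_mem_Cos (ei_cong i)

theorem Om1_mem (x : K) : (∏ i : Fin m, (1 + x • zz i) : LR K m) ∈ Cos K 0 := by
  refine Finset.prod_induction _ (fun f : LR K m => f ∈ Cos K 0) (fun _ _ => mul_mem_Cos_zero)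
    one_mem_Cos ?_
  intro i _
  exact Submodule.add_mem _ one_mem_Cos (Submodule.smul_mem _ _ (zz_mem_Cos i))

theorem sw_Om1 (x : K) (i j : Fin m) :
    sw i j (∏ k : Fin m, (1 + x • zz k) : LR K m) = ∏ k : Fin m, (1 + x • zz k) := by
  rw [map_prod]
  simp only [map_add, map_one, map_smul, sw_zz]
  exact Equiv.prod_comp (Equiv.swap i j) (fun k => (1 + x • zz k : LR K m))

theorem prod_zz (x : K) (S : Finset (Fin m)) :
    (∏ i ∈ S, x • zz i : LR K m) = x ^ S.card • mo (ind S) := by
  classical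
  induction S using Finset.induction_on with
  | empty =>
    have h : ind (∅ : Finset (Fin m)) = 0 := by
      funext k
      simp [ind]
    rw [prod_empty, card_empty, pow_zero, one_smul, h, mo_zero]
  | insert a S ha ih =>
    rw [prod_insert ha, ih, card_insert_of_notMem ha, pow_succ', mul_smul, smul_mul_smul_comm,
      zz, mo_mul, mul_smul]
    congr 3
    funext k
    simp only [Pi.add_apply, ind, mem_insert]
    by_cases hk : k = a
    · subst hk
      simp [ei_self, ha]
    · simp [ei_ne hk, hk]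

theorem Om1_expand (x : K) :
    (∏ i : Fin m, (1 + x • zz i) : LR K m) = ∑ S : Finset (Fin m), x ^ S.card • mo (ind S) := by
  rw [Finset.prod_one_add, Finset.powerset_univ]
  exact sum_congr rfl fun S _ => prod_zz x S

/-- image of a set of columns under a transposition -/
def sS (i j : Fin m) : Finset (Fin m) ≃ Finset (Fin m) := (Equiv.swap i j).finsetCongr

theorem mem_sS (i j k : Fin m) (S : Finset (Fin m)) : k ∈ sS i j S ↔ Equiv.swap i j k ∈ S := by
  simp only [sS, Equiv.finsetCongr_apply, mem_map, Equiv.coe_toEmbedding]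
  constructor
  · rintro ⟨a, ha, rfl⟩
    rwa [Equiv.swap_apply_self]
  · intro h
    exact ⟨_, h, Equiv.swap_apply_self _ _ _⟩

theorem card_sS (i j : Fin m) (S : Finset (Fin m)) : (sS i j S).card = S.card := by
  simp [sS]

theorem ind_sS (i j : Fin m) (S : Finset (Fin m)) : ind (sS i j S) = ind S ∘ Equiv.swap i j := by
  funext k
  simp only [ind, mem_sS, Function.comp_apply]

theorem Gen.ind_add {c : Fin m → ℚ} (hc : Gen c) (S : Finset (Fin m)) : Gen (c + ind S) := by
  refine hc.cong fun k => ?_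
  by_cases h : k ∈ S
  · exact ⟨1, by simp [ind, h]⟩
  · exact ⟨0, by simp [ind, h]⟩

theorem stat_swap {i j : Fin m} (hij : (i : ℕ) + 1 = j) {c : Fin m → ℚ} (h : c j < c i)
    (S : Finset (Fin m)) :
    stat c (sS i j S) = stat (c ∘ Equiv.swap i j) S +
      if (c ∘ Equiv.swap i j + ind S) j < (c ∘ Equiv.swap i j + ind S) i then 1 else 0 := by
  classical
  have hne := ne_of_adj hij
  have hlt : i < j := by rw [Fin.lt_def]; omega
  set A := univ.filter (fun p : Fin m × Fin m => p.1 < p.2 ∧ p.1 ∉ sS i j S ∧ p.2 ∈ sS i j S ∧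
    c p.2 < c p.1 ∧ c p.1 < c p.2 + 1) with hA
  set B := univ.filter (fun p : Fin m × Fin m => p.1 < p.2 ∧ p.1 ∉ S ∧ p.2 ∈ S ∧
    (c ∘ Equiv.swap i j) p.2 < (c ∘ Equiv.swap i j) p.1 ∧
      (c ∘ Equiv.swap i j) p.1 < (c ∘ Equiv.swap i j) p.2 + 1) with hB
  have h1 : stat c (sS i j S) = A.card := rfl
  have h2 : stat (c ∘ Equiv.swap i j) S = B.card := rfl
  have h3 : (A.erase (i, j)).card = B.card := by
    refine card_bij (fun p _ => (Equiv.swap i j p.1, Equiv.swap i j p.2)) ?_ ?_ ?_
    · rintro ⟨a, b⟩ hp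
      rw [mem_erase, hA, mem_filter] at hp
      obtain ⟨h0, -, h1, h2, h3, h4, h5⟩ := hp
      simp only [mem_sS] at h2 h3
      rw [hB, mem_filter]
      refine ⟨mem_univ _, swap_lt hij h1 (fun h6 => h0 (Prod.ext h6.1 h6.2)), h2, h3, ?_, ?_⟩
      · simpa using h4
      · simpa using h5
    · rintro ⟨a, b⟩ _ ⟨a', b'⟩ _ h1
      simp only [Prod.mk.injEq, EmbeddingLike.apply_eq_iff_eq] at h1
      exact Prod.ext h1.1 h1.2
    · rintro ⟨a, b⟩ hp
      rw [hB, mem_filter] at hp
      obtain ⟨-, h1, h2, h3, h4, h5⟩ := hp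
      have h6 : ¬ (a = i ∧ b = j) := by
        rintro ⟨rfl, rfl⟩
        simp only [Function.comp_apply, Equiv.swap_apply_left, Equiv.swap_apply_right] at h4
        exact absurd h4 (not_lt.2 h.le)
      refine ⟨(Equiv.swap i j a, Equiv.swap i j b), ?_, by simp⟩
      rw [mem_erase, hA, mem_filter]
      refine ⟨?_, mem_univ _, swap_lt hij h1 h6, ?_, ?_, h4, h5⟩
      · intro h7
        rw [Prod.mk.injEq] at h7
        have h8 : a = j := by
          have := congrArg (Equiv.swap i j) h7.1
          rwa [Equiv.swap_apply_self, Equiv.swap_apply_left] at this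
        have h9 : b = i := by
          have := congrArg (Equiv.swap i j) h7.2
          rwa [Equiv.swap_apply_self, Equiv.swap_apply_right] at this
        rw [h8, h9] at h1
        exact absurd h1 (not_lt.2 hlt.le)
      · simpa [mem_sS] using h2
      · simpa [mem_sS] using h3
  rw [h1, h2, ← h3]
  have h4 : (i, j) ∈ A ↔ (c ∘ Equiv.swap i j + ind S) j < (c ∘ Equiv.swap i j + ind S) i := by
    rw [hA, mem_filter]
    simp only [mem_univ, true_and, mem_sS, Equiv.swap_apply_left, Equiv.swap_apply_right,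
      Pi.add_apply, Function.comp_apply, ind]
    constructor
    · rintro ⟨-, h5, h6, -, h7⟩
      rw [if_neg h5, if_pos h6]
      linarith
    · intro h5
      by_cases h6 : i ∈ S
      · by_cases h7 : j ∈ S
        · rw [if_pos h6, if_pos h7] at h5
          linarith
        · rw [if_pos h6, if_neg h7] at h5
          exact ⟨hlt, h7, h6, h, by linarith⟩
      · rw [if_neg h6] at h5
        split_ifs at h5 <;> linarith
  split_ifs with h5
  · rw [card_erase_add_one (h4.2 h5)]
  · rw [erase_eq_of_notMem (fun h6 => h5 (h4.1 h6)), add_zero]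

theorem FC_pieri (q : K) (c : Fin m → ℚ) (hc : Gen c) (x : K) :
    (∏ i : Fin m, (1 + x • zz i)) * FC q c =
      ∑ S : Finset (Fin m), (x ^ S.card * q ^ stat c S) • FC q (c + ind S) := by
  induction c using sort_induction with
  | _ c ih =>
    rcases desc_cases c with h' | ⟨i, j, hij, h'⟩
    · have hm := mono_of_adj h'
      rw [FC_mono q h', Om1_expand, sum_mul]
      refine sum_congr rfl fun S _ => ?_
      have h1 : stat c S = 0 := by
        rw [stat, card_eq_zero, filter_eq_empty_iff]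
        rintro ⟨a, b⟩ - ⟨h1, -, -, h2, -⟩
        exact absurd h2 (not_lt.2 (hm h1.le))
      rw [h1, pow_zero, mul_one, smul_mul_assoc, mo_mul, FC_near q _ (hc.ind_add S)]
      · congr 2
        abel
      · intro a b hab
        have h2 : c a < c b := lt_of_le_of_ne (hm hab.le) (hc.ne hab.ne)
        simp only [Pi.add_apply, ind]
        split_ifs <;> linarith
    · have hne := ne_of_adj hij
      have h1 := ih (c ∘ Equiv.swap i j) (by have := card_Inv_swap hij h'; omega) (hc.comp _)
      rw [FC_step q c hc hij h', ← T_mul_sym q hne ((hc.comp (Equiv.swap i j)) i j hne) (Om1_mem x)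
        (sw_Om1 x i j) (FC_mem_Cos q _), h1, map_sum,
        ← Equiv.sum_comp (sS i j) (fun S => (x ^ S.card * q ^ stat c S) • FC q (c + ind S))]
      refine sum_congr rfl fun S _ => ?_
      rw [map_smul, card_sS, stat_swap hij h' S, ind_sS]
      have hg := (hc.comp (Equiv.swap i j)).ind_add S
      have h2 : (c ∘ Equiv.swap i j + ind S) ∘ Equiv.swap i j = c + ind S ∘ Equiv.swap i j := by
        funext k
        simp
      split_ifs with h3
      · rw [T_FC_of_gt q hg hij h3, h2, smul_smul]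
        congr 1
        ring
      · have h4 : (c ∘ Equiv.swap i j + ind S) i < (c ∘ Equiv.swap i j + ind S) j :=
          lt_of_le_of_ne (not_lt.1 h3) (hg.ne hne)
        rw [T_FC_of_lt q hg hij h4, h2, add_zero]

end Pool.Agent.Lib.MP0e7911H38
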