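import Pool.Agent.Lib.MP_0e7911_co_h38.FCprop

/-!
# The path formula (W)

The orthogonality and the Cauchy identity enter as hypotheses here.
-/

set_option autoImplicit false

namespace Pool.Agent.Lib.MP0e7911H38

open Finset

variable {K : Type*} [Field K] {m : ℕ}

/-- The orthogonality relation. -/
def Orth (q : K) (m : ℕ) : Prop := ∀ c d : Fin m → ℚ, Gen d → Cong c d →
  Lf q m (FC q (-c) * FC q d) = if c = d then 1 else 0

/-- The Cauchy identity. -/
def Cauchy (q : K) (m : ℕ) : Prop := ∀ (w : ℚ) (φ : Fin m → ℚ), (∀ k, w ≤ φ k) →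
  (∀ k, φ k < w + 1) → Gen φ → ∀ e : Fin m → ℕ,
  mo φ * Qe q m e = ∑ a ∈ Finset.Nat.antidiagonalTuple m (∑ k, e k),
      (FC q (-(nexp a + φ))).coeff (-(nexp e + φ)) • FC q (nexp a + φ)

theorem Om_cons (x : K) (xs : List K) :
    (Om m (x :: xs) : LR K m) = (∏ i : Fin m, (1 + x • zz i)) * Om m xs := by
  simp [Om]

theorem Lf_chain {q : K} (ho : Orth q m) (xs : List K) (c d : Fin m → ℚ) (hc : Gen c)
    (hcd : Cong d c) :
    Lf q m (FC q (-d) * Om m xs * FC q c) = chain q xs c d := by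
  induction xs generalizing c with
  | nil =>
    rw [chain, Om, List.map_nil, List.prod_nil, mul_one, ho d c hc hcd]
    simp only [eq_comm]
  | cons x xs ih =>
    have h1 : FC q (-d) * Om m (x :: xs) * FC q c =
        FC q (-d) * Om m xs * ((∏ i : Fin m, (1 + x • zz i)) * FC q c) := by
      rw [Om_cons]
      ring
    rw [chain, h1, FC_pieri q c hc x, mul_sum, map_sum]
    refine sum_congr rfl fun S _ => ?_
    rw [mul_smul_comm, map_smul, smul_eq_mul, ih (c + ind S) (hc.ind_add S)]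
    refine hcd.trans fun k => ?_
    by_cases h : k ∈ S
    · exact ⟨-1, by simp [ind, h]⟩
    · exact ⟨0, by simp [ind, h]⟩

theorem FC_neg_expand (q : K) {φ : Fin m → ℚ} {w : ℚ} (h0 : ∀ k, w ≤ φ k) (h1 : ∀ k, φ k < w + 1)
    (hφ : Gen φ) (n : ℕ) (a : Fin m → ℕ) (ha : ∑ k, a k = n) :
    FC q (-(nexp a + φ)) = ∑ e ∈ Finset.Nat.antidiagonalTuple m n,
      (FC q (-(nexp a + φ))).coeff (-(nexp e + φ)) • mo (-(nexp e + φ)) := by
  classical
  have h2 := FC_poly_neg q h0 h1 hφ a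
  rw [mem_span_mo] at h2
  have hinj : Set.InjOn (fun e : Fin m → ℕ => (-(nexp e + φ) : Fin m → ℚ))
      (Finset.Nat.antidiagonalTuple m n : Set (Fin m → ℕ)) := by
    intro e _ e' _ h
    funext k
    have := congrFun h k
    simp only [Pi.neg_apply, Pi.add_apply, nexp, neg_inj, add_left_inj, Nat.cast_inj] at this
    exact this
  have h3 : FC q (-(nexp a + φ)) = ∑ ν ∈ (FC q (-(nexp a + φ))).coeff.support,
      (FC q (-(nexp a + φ))).coeff ν • mo ν := by
    conv_lhs => rw [← AddMonoidAlgebra.sum_coeff_single (FC q (-(nexp a + φ)))]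
    rw [Finsupp.sum]
    refine sum_congr rfl fun ν _ => ?_
    simp [mo]
  conv_lhs => rw [h3]
  have h4 : ∑ e ∈ Finset.Nat.antidiagonalTuple m n,
      (FC q (-(nexp a + φ))).coeff (-(nexp e + φ)) • (mo (-(nexp e + φ)) : LR K m) =
      ∑ ν ∈ (Finset.Nat.antidiagonalTuple m n).image (fun e : Fin m → ℕ => (-(nexp e + φ) : Fin m → ℚ)),
        (FC q (-(nexp a + φ))).coeff ν • mo ν :=
    (sum_image (f := fun ν => (FC q (-(nexp a + φ))).coeff ν • (mo ν : LR K m)) hinj).symm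
  rw [h4]
  refine sum_subset ?_ ?_
  · intro ν hν
    obtain ⟨b, hb1, hb2⟩ := h2 ν hν
    rw [mem_image]
    exact ⟨b, Finset.Nat.mem_antidiagonalTuple.2 (hb1.trans ha), hb2.symm⟩
  · intro ν _ hν
    rw [Finsupp.notMem_support_iff] at hν
    rw [hν, zero_smul]

/-- (W), degree `n` in `t`, with `m + 1` columns; `φ = (φ_1, ..., φ_m)`, `a ∈ ℕ^m`. -/
theorem final_W {q : K} (ho : Orth q (m + 1)) (hcau : Cauchy q m) (n : ℕ) (p φ0 φl w : ℚ)
    (φ : Fin m → ℚ) (h0 : ∀ k, w ≤ φ k)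
    (h1 : ∀ k, φ k < w + 1) (h00 : ∀ k, φ0 < φ k + 1) (h0l : ∀ k, φl < φ k + 1)
    (hg0 : Gen (Fin.cons φ0 φ : Fin (m + 1) → ℚ)) (hgl : Gen (Fin.snoc φ φl : Fin (m + 1) → ℚ))
    (b : Fin (m + 1) → ℤ)
    (hb : ∀ k, (b k : ℚ) = p + (Fin.snoc φ φl : Fin (m + 1) → ℚ) k - (Fin.cons φ0 φ : Fin (m + 1) → ℚ) k)
    (xs : List K) :
    ∑ e ∈ Finset.Nat.antidiagonalTuple m n,
        Lf q (m + 1) (mo (fun k => -(b k : ℚ)) * Om (m + 1) xs * dn (mo (-(nexp e))) * up (Qe q m e)) =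
      ∑ a ∈ Finset.Nat.antidiagonalTuple m n,
        chain q xs (Fin.cons φ0 (nexp a + φ) : Fin (m + 1) → ℚ)
          ((Fin.snoc (nexp a + φ) φl : Fin (m + 1) → ℚ) + fun _ => p) := by
  have hφ : Gen φ := hg0.tail
  -- step 1
  have hQ : ∀ e ∈ Finset.Nat.antidiagonalTuple m n, Qe q m e =
      ∑ a ∈ Finset.Nat.antidiagonalTuple m n,
        (FC q (-(nexp a + φ))).coeff (-(nexp e + φ)) • (mo (-φ) * FC q (nexp a + φ)) := by
    intro e he
    have h2 := hcau w φ h0 h1 hφ e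
    rw [Finset.Nat.mem_antidiagonalTuple.1 he] at h2
    have h3 : Qe q m e = mo (-φ) * (mo φ * Qe q m e) := by
      rw [← mul_assoc, mo_mul, neg_add_cancel, mo_zero, one_mul]
    rw [h3, h2, mul_sum]
    refine sum_congr rfl fun a _ => ?_
    rw [mul_smul_comm]
  have hE : ∀ a ∈ Finset.Nat.antidiagonalTuple m n,
      ∑ e ∈ Finset.Nat.antidiagonalTuple m n,
        (FC q (-(nexp a + φ))).coeff (-(nexp e + φ)) • (mo (-(nexp e)) : LR K m) =
      mo φ * FC q (-(nexp a + φ)) := by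
    intro a ha
    conv_rhs => rw [FC_neg_expand q h0 h1 hφ n a (Finset.Nat.mem_antidiagonalTuple.1 ha), mul_sum]
    refine sum_congr rfl fun e _ => ?_
    rw [mul_smul_comm, mo_mul]
    congr 2
    abel
  have step1 : ∑ e ∈ Finset.Nat.antidiagonalTuple m n,
      (dn (mo (-(nexp e))) * up (Qe q m e) : LR K (m + 1)) =
      ∑ a ∈ Finset.Nat.antidiagonalTuple m n,
        dn (mo φ * FC q (-(nexp a + φ))) * up (mo (-φ) * FC q (nexp a + φ)) := by
    have h2 : ∀ e ∈ Finset.Nat.antidiagonalTuple m n,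
        (dn (mo (-(nexp e))) * up (Qe q m e) : LR K (m + 1)) =
        ∑ a ∈ Finset.Nat.antidiagonalTuple m n,
          dn ((FC q (-(nexp a + φ))).coeff (-(nexp e + φ)) • (mo (-(nexp e)) : LR K m)) *
            up (mo (-φ) * FC q (nexp a + φ)) := by
      intro e he
      rw [hQ e he, map_sum, mul_sum]
      refine sum_congr rfl fun a _ => ?_
      rw [map_smul, map_smul, mul_smul_comm, smul_mul_assoc]
    rw [sum_congr rfl h2, sum_comm]
    refine sum_congr rfl fun a ha => ?_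
    rw [← sum_mul, ← map_sum, hE a ha]
  rw [← map_sum]
  have step2 : ∑ e ∈ Finset.Nat.antidiagonalTuple m n,
      (mo (fun k => -(b k : ℚ)) * Om (m + 1) xs * dn (mo (-(nexp e))) * up (Qe q m e) : LR K (m + 1)) =
      mo (fun k => -(b k : ℚ)) * Om (m + 1) xs * ∑ a ∈ Finset.Nat.antidiagonalTuple m n,
        dn (mo φ * FC q (-(nexp a + φ))) * up (mo (-φ) * FC q (nexp a + φ)) := by
    rw [← step1, mul_sum]
    refine sum_congr rfl fun e _ => ?_
    ring
  rw [step2, mul_sum, map_sum]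
  refine sum_congr rfl fun a ha => ?_
  -- the vectors
  have hga : Gen (Fin.cons φ0 (nexp a + φ) : Fin (m + 1) → ℚ) := by
    refine hg0.cong fun k => ?_
    refine Fin.cases ⟨0, by simp⟩ (fun k => ⟨(a k : ℤ), ?_⟩) k
    simp only [Fin.cons_succ, Pi.add_apply, nexp]
    push_cast
    ring
  have hgb : Gen (Fin.snoc (-(nexp a + φ)) (-φl) : Fin (m + 1) → ℚ) := by
    refine hgl.neg.cong fun k => ?_
    refine Fin.lastCases ⟨0, by simp⟩ (fun k => ⟨-(a k : ℤ), ?_⟩) k
    simp only [Fin.snoc_castSucc, Pi.neg_apply, Pi.add_apply, nexp]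
    push_cast
    ring
  have hnn : ∀ k, 0 ≤ nexp a k := fun k => Nat.cast_nonneg _
  have h2 := FC_cons q φ0 (nexp a + φ) hga (fun k => by
    have := h00 k
    have := hnn k
    simp only [Pi.add_apply]
    linarith)
  have h3 := FC_snoc q (-φl) (-(nexp a + φ)) hgb (fun k => by
    have := h0l k
    have := hnn k
    simp only [Pi.add_apply, Pi.neg_apply]
    linarith)
  have h4 : FC q (-((Fin.snoc (nexp a + φ) φl : Fin (m + 1) → ℚ) + fun _ => p)) =
      mo (fun _ => -p) * FC q (Fin.snoc (-(nexp a + φ)) (-φl) : Fin (m + 1) → ℚ) := by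
    rw [← FC_trans q _ hgb]
    congr 1
    funext k
    refine Fin.lastCases ?_ (fun k => ?_) k
    · simp only [Pi.neg_apply, Pi.add_apply, Fin.snoc_last]
      ring
    · simp only [Pi.neg_apply, Pi.add_apply, Fin.snoc_castSucc]
      ring
  rw [← Lf_chain ho xs _ _ hga, h4, h3, h2]
  · congr 1
    have h5 : (mo (fun k => -(b k : ℚ)) * dn (mo φ) * up (mo (-φ)) : LR K (m + 1)) =
        mo (fun _ => -p) * mo (Fin.snoc 0 (-φl) : Fin (m + 1) → ℚ) *
          mo (Fin.cons φ0 0 : Fin (m + 1) → ℚ) := by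
      rw [dn_mo, up_mo, mo_mul, mo_mul, mo_mul, mo_mul]
      congr 1
      have h6 : (Fin.snoc φ φl : Fin (m + 1) → ℚ) =
          (Fin.snoc φ 0 : Fin (m + 1) → ℚ) - (Fin.snoc 0 (-φl) : Fin (m + 1) → ℚ) := by
        funext k
        refine Fin.lastCases ?_ (fun k => ?_) k <;> simp
      have h7 : (Fin.cons φ0 φ : Fin (m + 1) → ℚ) =
          (Fin.cons φ0 0 : Fin (m + 1) → ℚ) - (Fin.cons 0 (-φ) : Fin (m + 1) → ℚ) := by
        funext k
        refine Fin.cases ?_ (fun k => ?_) k <;> simp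
      funext k
      have h8 := hb k
      rw [h6, h7] at h8
      simp only [Pi.add_apply, Pi.sub_apply] at h8 ⊢
      linarith
    rw [map_mul, map_mul]
    linear_combination (Om (m + 1) xs * dn (FC q (-(nexp a + φ))) * up (FC q (nexp a + φ))) * h5
  · intro k
    refine ⟨b k + (Fin.snoc (fun i => (a i : ℤ)) 0 : Fin (m + 1) → ℤ) k -
      (Fin.cons 0 (fun i => (a i : ℤ)) : Fin (m + 1) → ℤ) k, ?_⟩
    have h8 := hb k
    push_cast
    rw [h8]
    have h6 : (Fin.snoc (nexp a + φ) φl : Fin (m + 1) → ℚ) k =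
        (Fin.snoc φ φl : Fin (m + 1) → ℚ) k + (((Fin.snoc (fun i => (a i : ℤ)) 0 : Fin (m + 1) → ℤ) k : ℤ) : ℚ) := by
      refine Fin.lastCases ?_ (fun k => ?_) k
      · simp
      · simp only [Fin.snoc_castSucc, Pi.add_apply, nexp]
        push_cast
        ring
    have h7 : (Fin.cons φ0 (nexp a + φ) : Fin (m + 1) → ℚ) k =
        (Fin.cons φ0 φ : Fin (m + 1) → ℚ) k + (((Fin.cons 0 (fun i => (a i : ℤ)) : Fin (m + 1) → ℤ) k : ℤ) : ℚ) := by
      refine Fin.cases ?_ (fun k => ?_) k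
      · simp
      · simp only [Fin.cons_succ, Pi.add_apply, nexp]
        push_cast
        ring
    rw [Pi.add_apply, h6, h7]
    ring

end Pool.Agent.Lib.MP0e7911H38
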