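import Pool.Agent.Lib.MP_0e7911_co_h38.Final

/-!
# Orthogonality, from the properties of the functional
-/

set_option autoImplicit false

namespace Pool.Agent.Lib.MP0e7911H38

open Finset

variable {K : Type*} [Field K] {m : ℕ}

/-- The three properties of the functional. -/
structure LProp (q : K) (m : ℕ) : Prop where
  one : Lf q m 1 = 1
  pos : ∀ γ : Fin m → ℚ, Lf q m (mo γ) ≠ 0 → ∀ d : Fin m → ℚ, Monotone d → ∑ k, γ k * d k ≤ 0
  adj : ∀ i j : Fin m, (i : ℕ) + 1 = j → ∀ φ : Fin m → ℚ, Gen φ → ∀ f g : LR K m,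
    f ∈ Cos K (-(φ ∘ Equiv.swap i j)) → g ∈ Cos K φ → Lf q m (f * T q i j g) = Lf q m (T q i j f * g)

theorem sum_sq_add (ν d : Fin m → ℚ) :
    ∑ k, (ν + d) k ^ 2 = ∑ k, ν k ^ 2 + 2 * ∑ k, (ν + d) k * d k - ∑ k, d k ^ 2 := by
  rw [mul_sum, ← sum_add_distrib, ← sum_sub_distrib]
  refine sum_congr rfl fun k _ => ?_
  simp only [Pi.add_apply]
  ring

theorem orth_aux {q : K} (hL : LProp q m) (c d : Fin m → ℚ) (hd : Gen d) (hcd : Cong c d)
    (hn : ∑ k, c k ^ 2 ≤ ∑ k, d k ^ 2) :
    Lf q m (FC q (-c) * FC q d) = if c = d then 1 else 0 := by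
  induction d using sort_induction generalizing c with
  | _ d ih =>
    have hc : Gen c := hd.cong hcd
    rcases desc_cases d with h' | ⟨i, j, hij, h'⟩
    · have hm := mono_of_adj h'
      -- smaller exponents do not contribute
      have h1 : ∀ f ∈ Submodule.span K (mo '' {ν : Fin m → ℚ | ∑ k, ν k ^ 2 < ∑ k, d k ^ 2}),
          Lf q m (f * mo d) = 0 := by
        intro f hf
        refine Submodule.span_induction (p := fun f _ => Lf q m (f * mo d) = 0) ?_ ?_ ?_ ?_ hf
        · rintro _ ⟨ν, hν, rfl⟩
          rw [Set.mem_ofPred_eq] at hν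
          rw [mo_mul]
          by_contra h2
          have h3 := hL.pos _ h2 d hm
          have h4 := sum_sq_add ν d
          have h5 : 0 ≤ ∑ k, (ν + d) k ^ 2 := sum_nonneg fun k _ => sq_nonneg _
          linarith
        · rw [zero_mul, map_zero]
        · intro f g _ _ hf hg
          rw [add_mul, map_add, hf, hg, add_zero]
        · intro r f _ hf
          rw [smul_mul_assoc, map_smul, hf, smul_zero]
      have h2 := FC_lead q (-c) hc.neg
      have h3 : ∑ k, (-c) k ^ 2 = ∑ k, c k ^ 2 := by simp
      rw [h3] at h2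
      have h4 : FC q (-c) - mo (-c) ∈
          Submodule.span K (mo '' {ν : Fin m → ℚ | ∑ k, ν k ^ 2 < ∑ k, d k ^ 2}) := by
        refine Submodule.span_mono (Set.image_mono ?_) h2
        intro ν hν
        rw [Set.mem_ofPred_eq] at hν ⊢
        exact lt_of_lt_of_le hν hn
      have h5 := h1 _ h4
      rw [sub_mul, map_sub, sub_eq_zero] at h5
      rw [FC_mono q h', h5, mo_mul]
      split_ifs with h6
      · rw [h6, neg_add_cancel, mo_zero, hL.one]
      · by_contra h7
        apply h6
        have h8 := hL.pos _ h7 d hm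
        have h9 := sum_sq_add (-c) d
        rw [h3] at h9
        have h10 : ∑ k, (-c + d) k ^ 2 = 0 :=
          le_antisymm (by linarith) (sum_nonneg fun k _ => sq_nonneg _)
        rw [sum_eq_zero_iff_of_nonneg (fun k _ => sq_nonneg _)] at h10
        funext k
        have h11 := h10 k (mem_univ k)
        have h12 : (-c + d) k = 0 := by
          rwa [sq_eq_zero_iff] at h11
        simp only [Pi.add_apply, Pi.neg_apply] at h12
        linarith
    · have hne := ne_of_adj hij
      have hg1 := hd.comp (Equiv.swap i j)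
      have h1 := ih (d ∘ Equiv.swap i j) (by have := card_Inv_swap hij h'; omega)
        (c ∘ Equiv.swap i j) hg1 (hcd.comp _) (by rw [sum_sq_swap, sum_sq_swap]; exact hn)
      have h2 : FC q (-c) ∈ Cos K (-((d ∘ Equiv.swap i j) ∘ Equiv.swap i j)) := by
        rw [comp_swap_swap, ← Cos_congr (show Cong (-c) (-d) from fun k => by
          obtain ⟨n, hn⟩ := hcd k
          exact ⟨-n, by simp only [Pi.neg_apply, hn]; push_cast; ring⟩)]
        exact FC_mem_Cos q _
      rw [FC_step q d hd hij h', hL.adj i j hij _ hg1 _ _ h2 (FC_mem_Cos q _)]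
      have h3 : (-c) ∘ Equiv.swap i j = -(c ∘ Equiv.swap i j) := rfl
      have h4 : c ∘ Equiv.swap i j = d ∘ Equiv.swap i j ↔ c = d := by
        constructor
        · intro h
          have := congrArg (fun f : Fin m → ℚ => f ∘ Equiv.swap i j) h
          simpa [comp_swap_swap] using this
        · rintro rfl; rfl
      simp only [h4] at h1
      rcases lt_or_gt_of_ne (hc.neg.ne hne) with h5 | h5
      · rw [T_FC_of_lt q hc.neg hij h5, h3, h1]
      · rw [T_FC_of_gt q hc.neg hij h5, h3, smul_mul_assoc, map_smul, h1]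
        have h6 : c ≠ d := by
          rintro rfl
          simp only [Pi.neg_apply] at h5
          linarith
        rw [if_neg h6, smul_zero]

theorem orth_of_LProp {q : K} (hL : LProp q m) : Orth q m := by
  intro c d hd hcd
  rcases le_total (∑ k, c k ^ 2) (∑ k, d k ^ 2) with h | h
  · exact orth_aux hL c d hd hcd h
  · have hc : Gen c := hd.cong hcd
    have h1 := orth_aux hL (-d) (-c) hc.neg (by
      intro k
      obtain ⟨n, hn⟩ := hcd k
      exact ⟨n, by simp only [Pi.neg_apply, hn]; ring⟩) (by simpa using h)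
    rw [neg_neg, mul_comm] at h1
    rw [h1]
    simp only [neg_inj, eq_comm]

end Pool.Agent.Lib.MP0e7911H38
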