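import Pool.Agent.Lib.MP_0e7911_co_h31.Kern
import Pool.Agent.Lib.MP_0e7911_co_h38.Orth

/-!
# The properties of the functional `Lf`
-/

set_option autoImplicit false

namespace Pool.Agent.Lib.MP0e7911H38

open Finset Pool.Agent.Lib.MP0e7911H31

variable {K : Type*} [Field K] {m : ℕ}

/-! ### the polynomials `H_a` -/

theorem coeff_Eh {R : Type*} [CommRing R] [Algebra K R] (q : K) (z : R) (k : ℕ) :
    PowerSeries.coeff k (Eh q z) = eta q k • z ^ k := by
  simp [Eh]

theorem good_Hser (q : K) (m : ℕ) : Good (Hser q m) := by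
  refine Good.prod _ _ fun j n => ?_
  rw [coeff_Eh]
  exact Submodule.smul_mem _ _ (zz_pow_mem_Hom _ _)

theorem Hom_le_Cos (m n : ℕ) : Hom K m n ≤ Cos K 0 := by
  rw [Hom, Cos]
  refine Submodule.span_mono (Set.image_mono ?_)
  rintro ν ⟨b, -, rfl⟩ k
  exact ⟨b k, by simp [nexp]⟩

theorem Hc_mem (q : K) (a : ℕ) : Hc q m a ∈ Cos K 0 := Hom_le_Cos _ _ (good_Hser q m a)

theorem sw_Hc (q : K) (i j : Fin m) (a : ℕ) : sw i j (Hc q m a) = Hc q m a := by
  have h1 : PowerSeries.map (sw i j : LR K m →ₐ[K] LR K m).toRingHom (Hser q m) = Hser q m := by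
    rw [Hser, map_prod]
    have h2 : ∀ k : Fin m, PowerSeries.map (sw i j : LR K m →ₐ[K] LR K m).toRingHom (Eh q (zz k)) =
        Eh q (zz (Equiv.swap i j k)) := by
      intro k
      ext n
      rw [PowerSeries.coeff_map, coeff_Eh, coeff_Eh]
      have : (sw i j : LR K m →ₐ[K] LR K m).toRingHom (eta q n • (zz k) ^ n) =
        sw i j (eta q n • (zz k) ^ n) := rfl
      rw [this, map_smul, map_pow, sw_zz]
    rw [prod_congr rfl fun k _ => h2 k]
    exact Equiv.prod_comp (Equiv.swap i j) (fun k => Eh q (zz k : LR K m))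
  have h3 := congrArg (PowerSeries.coeff a) h1
  rw [PowerSeries.coeff_map] at h3
  exact h3

theorem Hc_zero (q : K) : Hc q m 0 = 1 := by
  rw [Hc, PowerSeries.coeff_zero_eq_constantCoeff_apply, Hser, map_prod]
  refine prod_eq_one fun j _ => ?_
  rw [← PowerSeries.coeff_zero_eq_constantCoeff_apply, coeff_Eh, eta, pow_zero, one_smul]

theorem map_up_Hser (q : K) (m : ℕ) :
    PowerSeries.map (up (K := K) (m := m)).toRingHom (Hser q m) =
      ∏ j : Fin m, Eh q (zz j.succ : LR K (m + 1)) := by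
  rw [Hser, map_prod]
  refine Finset.prod_congr rfl fun j _ => ?_
  ext n
  rw [PowerSeries.coeff_map, coeff_Eh, coeff_Eh]
  have : (up (K := K) (m := m)).toRingHom (eta q n • (zz j) ^ n) =
      up (eta q n • (zz j) ^ n) := rfl
  rw [this, map_smul, map_pow, up_zz]

theorem Hc_succ (q : K) (m a : ℕ) :
    Hc q (m + 1) a = ∑ k ∈ range (a + 1),
      eta q k • (mo (Fin.cons (k : ℚ) 0 : Fin (m + 1) → ℚ) * up (Hc q m (a - k))) := by
  rw [Hc, Hser, Fin.prod_univ_succ, ← map_up_Hser, PowerSeries.coeff_mul,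
    Finset.Nat.sum_antidiagonal_eq_sum_range_succ (fun i j =>
      PowerSeries.coeff i (Eh q (zz (0 : Fin (m + 1)))) *
        PowerSeries.coeff j (PowerSeries.map (up (K := K) (m := m)).toRingHom (Hser q m)))]
  refine sum_congr rfl fun k _ => ?_
  rw [coeff_Eh, zz_zero_pow, PowerSeries.coeff_map, smul_mul_assoc]
  rfl

theorem cons_self : (Fin.cons 0 0 : Fin (m + 1) → ℚ) = 0 := by
  funext k
  refine Fin.cases ?_ (fun k => ?_) k <;> simp

theorem Lf_one (q : K) : Lf q m 1 = 1 := by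
  induction m with
  | zero => rw [← mo_zero, Lf, lin_mo]
  | succ m ih =>
    have h1 : (1 : LR K (m + 1)) = mo (Fin.cons 0 0 : Fin (m + 1) → ℚ) * up 1 := by
      rw [map_one, mul_one, cons_self, mo_zero]
    rw [h1, Lf_peel', if_pos (by simp), Nat.floor_zero, Hc_zero, mul_one, ih]

theorem Lf_pos (q : K) (γ : Fin m → ℚ) (h : Lf q m (mo γ) ≠ 0) (d : Fin m → ℚ)
    (hd : Monotone d) : ∑ k, γ k * d k ≤ 0 := by
  induction m with
  | zero => simp
  | succ m ih =>
    rw [← Fin.cons_self_tail γ, mo_cons, Lf_peel'] at h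
    split_ifs at h with h1
    swap
    · exact absurd rfl h
    set a := ⌊γ 0⌋₊ with ha
    have h2 := good_Hser q m a
    -- some monomial contributes
    have h3 : ∃ b : Fin m → ℕ, ∑ k, b k = a ∧ Lf q m (mo (nexp b) * mo (Fin.tail γ)) ≠ 0 := by
      by_contra h4
      push Not at h4
      apply h
      refine Hom_induction (P := fun f => Lf q m (f * mo (Fin.tail γ)) = 0) h2 ?_ ?_ ?_ ?_
      · rw [zero_mul, map_zero]
      · intro b hb
        exact h4 b hb
      · intro f g hf hg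
        rw [add_mul, map_add, hf, hg, add_zero]
      · intro r f hf
        rw [smul_mul_assoc, map_smul, hf, smul_zero]
    obtain ⟨b, hb1, hb2⟩ := h3
    rw [mo_mul] at hb2
    have hdt : Monotone (Fin.tail d) := fun x y hxy => hd (Fin.succ_le_succ_iff.2 hxy)
    have h4 := ih _ hb2 (Fin.tail d) hdt
    simp only [Pi.add_apply, add_mul, sum_add_distrib, nexp] at h4
    rw [Fin.sum_univ_succ]
    have h5 : ∑ k, (b k : ℚ) * d 0 ≤ ∑ k, (b k : ℚ) * Fin.tail d k := by
      refine sum_le_sum fun k _ => mul_le_mul_of_nonneg_left ?_ (Nat.cast_nonneg _)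
      exact hd (Fin.zero_le _)
    rw [← sum_mul] at h5
    have h6 : ∑ k, (b k : ℚ) = γ 0 := by
      rw [h1, ← hb1]
      push_cast
      rfl
    rw [h6] at h5
    have h7 : ∑ k : Fin m, Fin.tail γ k * Fin.tail d k = ∑ k : Fin m, γ k.succ * d k.succ := rfl
    linarith

/-! ### the first two variables -/

/-- `N_G(x, y)` -/
noncomputable def Nf (q : K) (m : ℕ) (c : Fin m → ℚ) (x y : ℚ) : K :=
  if x = (⌊x⌋₊ : ℚ) ∧ y = (⌊y⌋₊ : ℚ) then Lf q m (Hc q m ⌊x⌋₊ * Hc q m ⌊y⌋₊ * mo c) else 0

theorem Nf_comm (q : K) (c : Fin m → ℚ) (x y : ℚ) : Nf q m c x y = Nf q m c y x := by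
  unfold Nf
  by_cases h : x = (⌊x⌋₊ : ℚ) ∧ y = (⌊y⌋₊ : ℚ)
  · rw [if_pos h, if_pos h.symm, mul_comm (Hc q m ⌊x⌋₊)]
  · rw [if_neg h, if_neg (fun h' => h h'.symm)]

theorem Nf_neg (q : K) (c : Fin m → ℚ) {x : ℚ} (hx : x < 0) (y : ℚ) : Nf q m c x y = 0 := by
  rw [Nf, if_neg]
  rintro ⟨h, -⟩
  rw [Nat.floor_of_nonpos hx.le] at h
  push_cast at h
  linarith

/-- `S(x, y) = ∑_k q^k N(x - k, y + k)` -/
noncomputable def Sm (q : K) (m : ℕ) (c : Fin m → ℚ) (x y : ℚ) : K :=
  ∑ k ∈ range (⌊x⌋₊ + 1), q ^ k * Nf q m c (x - k) (y + k)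

theorem Sm_eq (q : K) (c : Fin m → ℚ) (x y : ℚ) :
    Sm q m c x y = Nf q m c x y + q * Sm q m c (x - 1) (y + 1) := by
  rcases lt_or_ge x 1 with h | h
  · have h1 : ⌊x⌋₊ = 0 := Nat.floor_eq_zero.2 h
    have h2 : ⌊x - 1⌋₊ = 0 := Nat.floor_of_nonpos (by linarith)
    rw [Sm, Sm, h1, h2]
    simp only [zero_add, range_one, sum_singleton, pow_zero, one_mul, Nat.cast_zero, sub_zero,
      add_zero]
    rw [Nf_neg q c (show x - 1 < 0 by linarith), mul_zero, add_zero]
  · have h1 : ⌊x⌋₊ = ⌊x - 1⌋₊ + 1 := by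
      have := Nat.floor_sub_one x
      have h2 : 1 ≤ ⌊x⌋₊ := Nat.le_floor (by exact_mod_cast h)
      omega
    rw [Sm, h1, sum_range_succ', Sm, mul_sum, add_comm]
    congr 1
    · simp
    · refine sum_congr rfl fun k _ => ?_
      rw [pow_succ', mul_assoc]
      congr 3
      · push_cast; ring
      · push_cast; ring

/-- the monomial functional of `L` in terms of `N` -/
theorem Lf_two (q : K) (c : Fin m → ℚ) (x y : ℚ) :
    Lf q (m + 2) (mo (Fin.cons x (Fin.cons y c : Fin (m + 1) → ℚ) : Fin (m + 2) → ℚ)) =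
      ∑ k ∈ range (⌊x⌋₊ + 1), eta q k * Nf q m c (x - k) (y + k) := by
  rw [mo_cons, Lf_peel']
  split_ifs with h
  · set a := ⌊x⌋₊ with ha
    rw [Hc_succ, sum_mul, map_sum]
    refine sum_congr rfl fun k hk => ?_
    rw [smul_mul_assoc, map_smul, smul_eq_mul, mo_cons y c]
    have h1 : (mo (Fin.cons (k : ℚ) 0 : Fin (m + 1) → ℚ) * up (Hc q m (a - k)) *
        (mo (Fin.cons y 0 : Fin (m + 1) → ℚ) * up (mo c)) : LR K (m + 1)) =
        mo (Fin.cons (y + k) 0 : Fin (m + 1) → ℚ) * up (Hc q m (a - k) * mo c) := by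
      have h2 : (mo (Fin.cons (y + k) 0 : Fin (m + 1) → ℚ) : LR K (m + 1)) =
          mo (Fin.cons (k : ℚ) 0 : Fin (m + 1) → ℚ) * mo (Fin.cons y 0 : Fin (m + 1) → ℚ) := by
        rw [mo_mul]
        congr 1
        funext l
        refine Fin.cases ?_ (fun l => ?_) l
        · simp; ring
        · simp
      rw [h2, map_mul]
      ring
    rw [h1, Lf_peel']
    have hk' : k ≤ a := by rw [mem_range] at hk; omega
    have h3 : ⌊x - k⌋₊ = a - k := by
      rw [Nat.floor_sub_natCast]
    have h4 : x - k = (⌊x - k⌋₊ : ℚ) := by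
      rw [h3, Nat.cast_sub hk']
      linarith
    rw [Nf]
    congr 1
    by_cases h5 : y + k = (⌊y + k⌋₊ : ℚ)
    · rw [if_pos h5, if_pos ⟨h4, h5⟩, h3]
      congr 1
      ring
    · rw [if_neg h5, if_neg (fun h6 => h5 h6.2)]
  · symm
    refine sum_eq_zero fun k hk => ?_
    have h1 : Nf q m c (x - k) (y + k) = 0 := by
      rw [Nf, if_neg]
      rintro ⟨h2, -⟩
      apply h
      have h3 : x = ((⌊x - k⌋₊ + k : ℕ) : ℚ) := by push_cast; linarith
      rw [h3, Nat.floor_natCast]
    rw [h1, mul_zero]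

theorem Lf_two' (q : K) (c : Fin m → ℚ) (x y : ℚ) :
    Lf q (m + 2) (mo (Fin.cons x (Fin.cons y c : Fin (m + 1) → ℚ) : Fin (m + 2) → ℚ)) =
      Sm q m c x y - Sm q m c (x - 1) (y + 1) := by
  rw [Lf_two]
  rcases lt_or_ge x 1 with h | h
  · have h1 : ⌊x⌋₊ = 0 := Nat.floor_eq_zero.2 h
    have h2 : ⌊x - 1⌋₊ = 0 := Nat.floor_of_nonpos (by linarith)
    rw [Sm, Sm, h1, h2]
    simp only [zero_add, range_one, sum_singleton, pow_zero, one_mul, Nat.cast_zero, sub_zero,
      add_zero, eta]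
    rw [Nf_neg q c (show x - 1 < 0 by linarith), sub_zero]
  · have h1 : ⌊x⌋₊ = ⌊x - 1⌋₊ + 1 := by
      have := Nat.floor_sub_one x
      have h2 : 1 ≤ ⌊x⌋₊ := Nat.le_floor (by exact_mod_cast h)
      omega
    rw [Sm, Sm, h1, sum_range_succ' (fun k => eta q k * Nf q m c (x - k) (y + k)),
      sum_range_succ' (fun k => q ^ k * Nf q m c (x - k) (y + k)), add_sub_right_comm,
      ← sum_sub_distrib]
    congr 1
    · refine sum_congr rfl fun k _ => ?_
      have e1 : x - 1 - (k : ℚ) = x - ((k + 1 : ℕ) : ℚ) := by push_cast; ring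
      have e2 : y + 1 + (k : ℚ) = y + ((k + 1 : ℕ) : ℚ) := by push_cast; ring
      rw [eta, e1, e2, sub_mul]
    · simp [eta]


/-- the symmetric functional -/
noncomputable def Mf (q : K) (m : ℕ) : LR K (m + 2) →ₗ[K] K :=
  lin fun c => Nf q m (Fin.tail (Fin.tail c)) (c 0) (c 1)

/-- the auxiliary functional -/
noncomputable def Sf (q : K) (m : ℕ) : LR K (m + 2) →ₗ[K] K :=
  lin fun c => Sm q m (Fin.tail (Fin.tail c)) (c 0) (c 1)

theorem al01_zero : (al 0 1 : Fin (m + 2) → ℚ) 0 = 1 := al_self _ _ (by simp)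

theorem al01_one : (al 0 1 : Fin (m + 2) → ℚ) 1 = -1 := al_right _ _ (by simp)

theorem tail_tail_sub (c : Fin (m + 2) → ℚ) :
    Fin.tail (Fin.tail (c + -al 0 1) : Fin (m + 1) → ℚ) = Fin.tail (Fin.tail c : Fin (m + 1) → ℚ) := by
  funext k
  simp only [Fin.tail, Pi.add_apply, Pi.neg_apply]
  rw [al_other (Fin.succ_ne_zero _) (by
    intro h
    have := congrArg Fin.val h
    simp at this)]
  ring

theorem Sf_rec (q : K) (f : LR K (m + 2)) :
    Sf q m ((1 - q • mo (-al 0 1)) * f) = Mf q m f := by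
  have : Sf q m ∘ₗ LinearMap.mulLeft K (1 - q • mo (-al 0 1)) = Mf q m := by
    refine lin_ext fun c => ?_
    simp only [LinearMap.comp_apply, LinearMap.mulLeft_apply, sub_mul, one_mul, smul_mul_assoc,
      mo_mul, map_sub, map_smul, smul_eq_mul]
    rw [Sf, Mf, lin_mo, lin_mo, lin_mo, add_comm (-al 0 1) c, tail_tail_sub, Sm_eq]
    simp only [Pi.add_apply, Pi.neg_apply, al01_zero, al01_one, neg_neg]
    rw [← sub_eq_add_neg (c 0) 1]
    ring
  exact LinearMap.congr_fun this f

theorem Lf_Sf (q : K) (f : LR K (m + 2)) :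
    Lf q (m + 2) f = Sf q m ((1 - mo (-al 0 1)) * f) := by
  have : Lf q (m + 2) = Sf q m ∘ₗ LinearMap.mulLeft K (1 - mo (-al 0 1)) := by
    refine lin_ext fun c => ?_
    simp only [LinearMap.comp_apply, LinearMap.mulLeft_apply, sub_mul, one_mul,
      mo_mul, map_sub]
    rw [Sf, lin_mo, lin_mo, add_comm (-al 0 1) c, tail_tail_sub]
    simp only [Pi.add_apply, Pi.neg_apply, al01_zero, al01_one, neg_neg]
    rw [← sub_eq_add_neg (c 0) 1, ← Lf_two']
    congr 2
    funext k
    refine Fin.cases ?_ (fun k => ?_) k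
    · simp
    · refine Fin.cases ?_ (fun k => ?_) k
      · simp
      · simp [Fin.tail]
  exact LinearMap.congr_fun this f

theorem Mf_sw (q : K) (f : LR K (m + 2)) : Mf q m (sw 0 1 f) = Mf q m f := by
  have : Mf q m ∘ₗ (sw 0 1 : LR K (m + 2) →ₐ[K] LR K (m + 2)).toLinearMap = Mf q m := by
    refine lin_ext fun c => ?_
    simp only [LinearMap.comp_apply, AlgHom.toLinearMap_apply, sw_mo]
    rw [Mf, lin_mo, lin_mo, Nf_comm]
    have h1 : Fin.tail (Fin.tail (c ∘ Equiv.swap 0 1) : Fin (m + 1) → ℚ) =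
        Fin.tail (Fin.tail c : Fin (m + 1) → ℚ) := by
      funext k
      simp only [Fin.tail, Function.comp_apply]
      rw [Equiv.swap_apply_of_ne_of_ne (Fin.succ_ne_zero _) (by
        intro h
        have := congrArg Fin.val h
        simp at this)]
    rw [h1]
    simp
  exact LinearMap.congr_fun this f

theorem adj_zero (q : K) {φ : Fin (m + 2) → ℚ} (hφ : Gen φ) {f g : LR K (m + 2)}
    (hf : f ∈ Cos K (-(φ ∘ Equiv.swap 0 1))) (hg : g ∈ Cos K φ) :
    Lf q (m + 2) (f * T q 0 1 g) = Lf q (m + 2) (T q 0 1 f * g) := by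
  have hne : (0 : Fin (m + 2)) ≠ 1 := by simp
  have h1 := div_T q hne (hφ 0 1 hne) hg
  have h2 := div_T q hne ((hφ.comp (Equiv.swap 0 1)).neg 0 1 hne) hf
  have hW : Wr K 0 1 (-(φ ∘ Equiv.swap 0 1)) = (Wr K 0 1 φ : LR K (m + 2)) := by
    have : (-(φ ∘ Equiv.swap 0 1)) 1 - (-(φ ∘ Equiv.swap 0 1)) 0 = φ 1 - φ 0 := by
      simp only [Pi.neg_apply, Function.comp_apply, Equiv.swap_apply_left, Equiv.swap_apply_right]
      ring
    rw [Wr, Wr, this]
  rw [hW] at h2
  have hu : (mo (-ei 0) * (zz 0 - zz 1) : LR K (m + 2)) = 1 - mo (-al 0 1) := by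
    rw [mul_sub, zz, zz, mo_mul, mo_mul, neg_add_cancel, mo_zero]
    congr 2
    rw [al]
    abel
  have hv : (mo (-ei 0) * (zz 0 - q • zz 1) : LR K (m + 2)) = 1 - q • mo (-al 0 1) := by
    rw [mul_sub, mul_smul_comm, zz, zz, mo_mul, mo_mul, neg_add_cancel, mo_zero]
    congr 3
    rw [al]
    abel
  have e1 : (1 - mo (-al 0 1)) * (f * T q 0 1 g) =
      (1 - q • mo (-al 0 1)) * (f * sw 0 1 g) -
        (1 - q) • (mo (-ei 0) * Wr K 0 1 φ * f * g) := by
    rw [← hu, ← hv]
    simp only [Algebra.smul_def] at h1 ⊢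
    linear_combination (mo (-ei 0) * f) * h1
  have e2 : (1 - mo (-al 0 1)) * (T q 0 1 f * g) =
      (1 - q • mo (-al 0 1)) * (sw 0 1 f * g) -
        (1 - q) • (mo (-ei 0) * Wr K 0 1 φ * f * g) := by
    rw [← hu, ← hv]
    simp only [Algebra.smul_def] at h2 ⊢
    linear_combination (mo (-ei 0) * g) * h2
  rw [Lf_Sf, Lf_Sf, e1, e2, map_sub, map_sub, Sf_rec, Sf_rec, ← Mf_sw q (f * sw 0 1 g), map_mul,
    sw_sw]

/-- adjointness -/
theorem Lf_adj (q : K) {i j : Fin m} (hij : (i : ℕ) + 1 = j) {φ : Fin m → ℚ} (hφ : Gen φ)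
    {f g : LR K m} (hf : f ∈ Cos K (-(φ ∘ Equiv.swap i j))) (hg : g ∈ Cos K φ) :
    Lf q m (f * T q i j g) = Lf q m (T q i j f * g) := by
  induction m with
  | zero => exact i.elim0
  | succ m ih =>
    rcases Fin.eq_zero_or_eq_succ i with rfl | ⟨i, rfl⟩
    · match m, j, hij with
      | 0, j, hij => exact absurd hij (by have := j.isLt; simp)
      | m + 1, j, hij =>
        have hj : j = 1 := by
          apply Fin.ext
          rw [← hij]
          simp
        subst hj
        exact adj_zero q hφ hf hg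
    · obtain ⟨j, rfl⟩ : ∃ j', j = Fin.succ j' := by
        rcases Fin.eq_zero_or_eq_succ j with rfl | h
        · exact absurd hij (by simp)
        · exact h
      have hij' : (i : ℕ) + 1 = j := by simpa using hij
      have hne := ne_of_adj hij'
      -- reduce to monomials
      refine Cos_induction (P := fun f => Lf q (m + 1) (f * T q i.succ j.succ g) =
        Lf q (m + 1) (T q i.succ j.succ f * g)) hf ?_ ?_ ?_ ?_
      · simp
      · intro c hc
        refine Cos_induction (P := fun g => Lf q (m + 1) (mo c * T q i.succ j.succ g) =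
          Lf q (m + 1) (T q i.succ j.succ (mo c) * g)) hg ?_ ?_ ?_ ?_
        · simp
        · intro d hd
          have hT : ∀ e : Fin (m + 1) → ℚ, T q i.succ j.succ (mo e) =
              mo (Fin.cons (e 0) 0 : Fin (m + 1) → ℚ) * up (T q i j (mo (Fin.tail e))) := by
            intro e
            conv_lhs => rw [← Fin.cons_self_tail e, mo_cons, T_mo_mul q (by simp), T_up]
          have hm : ∀ e : Fin (m + 1) → ℚ, (mo e : LR K (m + 1)) =
              mo (Fin.cons (e 0) 0 : Fin (m + 1) → ℚ) * up (mo (Fin.tail e)) := by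
            intro e
            rw [← mo_cons, Fin.cons_self_tail]
          have hc2 : (mo (Fin.cons (c 0) 0 : Fin (m + 1) → ℚ) * mo (Fin.cons (d 0) 0 : Fin (m + 1) → ℚ) :
              LR K (m + 1)) = mo (Fin.cons (c 0 + d 0) 0 : Fin (m + 1) → ℚ) := by
            rw [mo_mul]
            congr 1
            funext k
            refine Fin.cases ?_ (fun k => ?_) k <;> simp
          have e1 : (mo c * T q i.succ j.succ (mo d) : LR K (m + 1)) =
              mo (Fin.cons (c 0 + d 0) 0 : Fin (m + 1) → ℚ) *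
                up (mo (Fin.tail c) * T q i j (mo (Fin.tail d))) := by
            rw [hT, hm c, ← hc2, map_mul]
            ring
          have e2 : (T q i.succ j.succ (mo c) * mo d : LR K (m + 1)) =
              mo (Fin.cons (c 0 + d 0) 0 : Fin (m + 1) → ℚ) *
                up (T q i j (mo (Fin.tail c)) * mo (Fin.tail d)) := by
            rw [hT, hm d, ← hc2, map_mul]
            ring
          rw [e1, e2, Lf_peel', Lf_peel']
          split_ifs with h1
          · set a := ⌊c 0 + d 0⌋₊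
            have hφ' : Gen (Fin.tail φ) := by
              have := hφ
              rw [← Fin.cons_self_tail φ] at this
              exact this.tail
            have hd' : (mo (Fin.tail d) : LR K m) ∈ Cos K (Fin.tail φ) :=
              mo_mem_Cos fun k => hd k.succ
            have hc' : (mo (Fin.tail c) : LR K m) ∈ Cos K (-(Fin.tail φ ∘ Equiv.swap i j)) := by
              refine mo_mem_Cos fun k => ?_
              obtain ⟨n, hn⟩ := hc k.succ
              refine ⟨n, ?_⟩
              simp only [Pi.neg_apply, Function.comp_apply] at hn ⊢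
              rw [← (Fin.succ_injective m).map_swap] at hn
              exact hn
            have hHd : Hc q m a * mo (Fin.tail d) ∈ Cos K (Fin.tail φ) := by
              have := mul_mem_Cos (Hc_mem q a) hd'
              rwa [zero_add] at this
            have h3 := ih hij' hφ' hc' hHd
            rw [T_mul_sym q hne (hφ' i j hne) (Hc_mem q a) (sw_Hc q i j a) hd'] at h3
            have h4 : Hc q m a * (mo (Fin.tail c) * T q i j (mo (Fin.tail d))) =
                mo (Fin.tail c) * (Hc q m a * T q i j (mo (Fin.tail d))) := by ring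
            have h5 : Hc q m a * (T q i j (mo (Fin.tail c)) * mo (Fin.tail d)) =
                T q i j (mo (Fin.tail c)) * (Hc q m a * mo (Fin.tail d)) := by ring
            rw [h4, h5, h3]
          · rfl
        · intro f g hf hg
          simp only [map_add, mul_add, hf, hg]
        · intro r f hf
          simp only [map_smul, mul_smul_comm, hf]
      · intro f g hf hg
        simp only [map_add, add_mul, hf, hg]
      · intro r f hf
        simp only [map_smul, smul_mul_assoc, hf]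

theorem lProp (q : K) (m : ℕ) : LProp q m where
  one := Lf_one q
  pos := Lf_pos q
  adj := fun _ _ hij _ hφ _ _ hf hg => Lf_adj q hij hφ hf hg

theorem orth (q : K) (m : ℕ) : Orth q m := orth_of_LProp (lProp q m)

end Pool.Agent.Lib.MP0e7911H38
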