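import Mathlib

/-!
# Demazure-Lusztig operators on Laurent polynomials with rational exponents

`LR K m` is the ring of Laurent polynomials in `z_1, ..., z_m` with rational exponents,
`mo c` is the monomial `z ^ c`.  For `i ≠ j` and an exponent `c` with `c i - c j` not an integer,
`T q i j (mo c)` is the generic Demazure-Lusztig operator.
-/

set_option autoImplicit false

namespace Pool.Agent.Lib.MP0e7911H38

open Finset

/-- Laurent polynomials in `m` variables with rational exponents. -/
abbrev LR (K : Type*) [Field K] (m : ℕ) := AddMonoidAlgebra K (Fin m → ℚ)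

variable {K : Type*} [Field K] {m : ℕ}

/-- The monomial `z ^ c`. -/
noncomputable def mo (c : Fin m → ℚ) : LR K m := AddMonoidAlgebra.single c 1

/-- The exponent of the variable `z_i`. -/
def ei (i : Fin m) : Fin m → ℚ := Pi.single i 1

/-- The variable `z_i`. -/
noncomputable def zz (i : Fin m) : LR K m := mo (ei i)

theorem mo_mul (c d : Fin m → ℚ) : (mo c * mo d : LR K m) = mo (c + d) := by
  simp [mo, AddMonoidAlgebra.single_mul_single]

theorem mo_zero : (mo 0 : LR K m) = 1 := rfl

theorem mo_ne_zero (c : Fin m → ℚ) : (mo c : LR K m) ≠ 0 := by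
  rw [mo, AddMonoidAlgebra.single_ne_zero]; exact one_ne_zero

theorem mo_inj {c d : Fin m → ℚ} : (mo c : LR K m) = mo d ↔ c = d :=
  AddMonoidAlgebra.single_left_inj one_ne_zero

/-- Linear extension of a function given on monomials. -/
noncomputable def lin {V : Type*} [AddCommGroup V] [Module K V] (f : (Fin m → ℚ) → V) :
    LR K m →ₗ[K] V :=
  (Finsupp.linearCombination K f).comp (AddMonoidAlgebra.coeffLinearEquiv K).toLinearMap

theorem lin_mo {V : Type*} [AddCommGroup V] [Module K V] (f : (Fin m → ℚ) → V) (c : Fin m → ℚ) :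
    lin f (mo c : LR K m) = f c := by
  simp [lin, mo, AddMonoidAlgebra.coeffLinearEquiv]

theorem lin_ext {V : Type*} [AddCommGroup V] [Module K V] {f g : LR K m →ₗ[K] V}
    (h : ∀ c, f (mo c) = g (mo c)) : f = g := by
  refine AddMonoidAlgebra.lhom_ext' fun c => ?_
  ext
  simpa [mo] using h c

theorem mo_induction {P : LR K m → Prop} (f : LR K m) (h0 : P 0) (hm : ∀ c, P (mo c))
    (ha : ∀ f g, P f → P g → P (f + g)) (hs : ∀ (r : K) f, P f → P (r • f)) : P f := by
  induction f using AddMonoidAlgebra.induction_linear with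
  | zero => exact h0
  | add f g hf hg => exact ha f g hf hg
  | single c r =>
    have : (AddMonoidAlgebra.single c r : LR K m) = r • mo c := by simp [mo]
    rw [this]
    exact hs _ _ (hm c)

/-- permutation of the variables -/
noncomputable def sw (i j : Fin m) : LR K m →ₐ[K] LR K m :=
  AddMonoidAlgebra.mapDomainAlgHom K K
    { toFun := fun c => c ∘ Equiv.swap i j
      map_zero' := rfl
      map_add' := fun _ _ => rfl }

theorem sw_mo (i j : Fin m) (c : Fin m → ℚ) :
    sw i j (mo c : LR K m) = mo (c ∘ Equiv.swap i j) := by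
  simp [sw, mo]


/-- `ε_i - ε_j` -/
def al (i j : Fin m) : Fin m → ℚ := ei i - ei j

/-- The operator on monomials. -/
noncomputable def Tm (q : K) (i j : Fin m) (c : Fin m → ℚ) : LR K m :=
  if c i < c j then
    mo (c ∘ Equiv.swap i j) + (1 - q) • ∑ k ∈ Ico 1 ⌈c j - c i⌉₊, mo (c ∘ Equiv.swap i j - (k : ℚ) • al i j)
  else
    q • mo (c ∘ Equiv.swap i j) - (1 - q) • ∑ k ∈ Ico 1 ⌈c i - c j⌉₊, mo (c ∘ Equiv.swap i j + (k : ℚ) • al i j)

/-- The generic Demazure-Lusztig operator. -/
noncomputable def T (q : K) (i j : Fin m) : LR K m →ₗ[K] LR K m := lin (Tm q i j)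

theorem T_mo (q : K) (i j : Fin m) (c : Fin m → ℚ) : T q i j (mo c) = Tm q i j c := lin_mo _ _

/-- The rounding exponent. -/
def rho (i j : Fin m) (c : Fin m → ℚ) : Fin m → ℚ :=
  c + Int.fract (c j - c i) • ei i + (1 - Int.fract (c j - c i)) • ei j

theorem ei_self (i : Fin m) : ei i i = 1 := by simp [ei]

theorem ei_ne {i j : Fin m} (h : j ≠ i) : ei i j = 0 := by simp [ei, h]

theorem swap_apply_exp (i j : Fin m) (hij : i ≠ j) (c : Fin m → ℚ) :
    c ∘ Equiv.swap i j = c + (c j - c i) • al i j := by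
  funext k
  by_cases h1 : k = i
  · subst h1
    simp [al, ei_self, ei_ne hij]
  · by_cases h2 : k = j
    · subst h2
      simp [al, ei_self, ei_ne h1]
    · simp [al, ei_ne h1, ei_ne h2, Equiv.swap_apply_of_ne_of_ne h1 h2]

theorem natCeil_sub_one {g : ℚ} (hg : 0 < g) (hn : ∀ n : ℤ, g ≠ n) :
    ∃ J : ℕ, ⌈g⌉₊ = J + 1 ∧ (J : ℚ) < g ∧ g < J + 1 ∧ Int.fract g = g - J := by
  obtain ⟨J, hJ⟩ : ∃ J : ℕ, ⌈g⌉₊ = J + 1 := ⟨⌈g⌉₊ - 1, by have := Nat.ceil_pos.2 hg; omega⟩
  have h1 : (J : ℚ) < g := by
    have : J < ⌈g⌉₊ := by omega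
    exact Nat.lt_ceil.1 this
  have h2 : g < J + 1 := by
    have h3 : g ≤ ((J + 1 : ℕ) : ℚ) := by rw [← hJ]; exact Nat.le_ceil g
    have h4 := hn ((J + 1 : ℕ) : ℤ)
    push_cast at h3 h4
    exact lt_of_le_of_ne h3 h4
  refine ⟨J, hJ, h1, h2, ?_⟩
  have : ⌊g⌋ = (J : ℤ) := by
    rw [Int.floor_eq_iff]
    push_cast
    exact ⟨h1.le, h2⟩
  rw [Int.fract, this]
  push_cast
  ring

theorem smul_mo_mul (r : K) (f g : LR K m) : (r • f) * g = r • (f * g) := smul_mul_assoc r f g

/-- The division identity. -/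
theorem div_mo (q : K) {i j : Fin m} (hij : i ≠ j) (c : Fin m → ℚ) (hc : ∀ n : ℤ, c j - c i ≠ n) :
    (zz i - zz j) * Tm q i j c =
      (zz i - q • zz j) * mo (c ∘ Equiv.swap i j) - (1 - q) • mo (rho i j c) := by
  have hsw := swap_apply_exp i j hij c
  by_cases h : c i < c j
  · obtain ⟨J, hJ, h1, h2, h3⟩ := natCeil_sub_one (sub_pos.2 h) hc
    rw [Tm, if_pos h, hJ, hsw]
    -- telescoping
    have key : (zz i - zz j : LR K m) * ∑ k ∈ Ico 1 (J + 1), mo (c + (c j - c i) • al i j - (k : ℚ) • al i j) =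
        mo (c + (c j - c i) • al i j - ((1 : ℕ) : ℚ) • al i j + ei i) -
          mo (c + (c j - c i) • al i j - ((J + 1 : ℕ) : ℚ) • al i j + ei i) := by
      rw [mul_sum, ← neg_sub (mo (c + (c j - c i) • al i j - ((J + 1 : ℕ) : ℚ) • al i j + ei i)),
        ← Finset.sum_Ico_sub (fun k : ℕ => (mo (c + (c j - c i) • al i j - (k : ℚ) • al i j + ei i) : LR K m))
          (Nat.succ_le_succ (Nat.zero_le J)), ← Finset.sum_neg_distrib]
      refine sum_congr rfl fun k _ => ?_
      rw [sub_mul, zz, zz, mo_mul, mo_mul, neg_sub]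
      congr 2
      · rw [add_comm]
      · push_cast
        rw [al]
        module
    rw [mul_add, mul_smul_comm, key, rho, h3]
    have e1 : (c + (c j - c i) • al i j - ((1 : ℕ) : ℚ) • al i j + ei i) =
        ei j + (c + (c j - c i) • al i j) := by
      push_cast
      rw [al]
      module
    have e2 : (c + (c j - c i) • al i j - ((J + 1 : ℕ) : ℚ) • al i j + ei i) =
        c + (c j - c i - (J : ℚ)) • ei i + (1 - (c j - c i - (J : ℚ))) • ei j := by
      push_cast
      rw [al]
      module
    rw [e1, e2, ← mo_mul (ei j), ← zz]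
    simp only [sub_mul, smul_mo_mul, smul_sub, sub_smul, one_smul]
    abel
  · have h' : c j < c i := by
      rcases lt_trichotomy (c i) (c j) with h4 | h4 | h4
      · exact absurd h4 h
      · exact absurd (by rw [h4]; simp) (hc 0)
      · exact h4
    have hc' : ∀ n : ℤ, c i - c j ≠ n := fun n hn => hc (-n) (by push_cast; linarith)
    obtain ⟨J, hJ, h1, h2, h3⟩ := natCeil_sub_one (sub_pos.2 h') hc'
    have h5 : Int.fract (c j - c i) = J + 1 - (c i - c j) := by
      rw [Int.fract_eq_iff]
      refine ⟨by linarith, by linarith, -(J + 1 : ℕ), ?_⟩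
      push_cast
      ring
    rw [Tm, if_neg h, hJ, hsw]
    have key : (zz i - zz j : LR K m) * ∑ k ∈ Ico 1 (J + 1), mo (c + (c j - c i) • al i j + (k : ℚ) • al i j) =
        mo (c + (c j - c i) • al i j + (J : ℚ) • al i j + ei i) -
          mo (c + (c j - c i) • al i j + ei i) := by
      have h6 : ∀ k ∈ Ico 1 (J + 1), (zz i - zz j : LR K m) * mo (c + (c j - c i) • al i j + (k : ℚ) • al i j) =
          mo (c + (c j - c i) • al i j + (((k + 1 : ℕ) : ℚ) - 1) • al i j + ei i) -
            mo (c + (c j - c i) • al i j + ((k : ℚ) - 1) • al i j + ei i) := by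
        intro k _
        rw [sub_mul, zz, zz, mo_mul, mo_mul]
        congr 2
        · push_cast
          rw [al]
          module
        · rw [al]
          module
      rw [mul_sum, sum_congr rfl h6, Finset.sum_Ico_sub (fun k : ℕ => (mo (c + (c j - c i) • al i j + ((k : ℚ) - 1) • al i j + ei i) : LR K m))
          (Nat.succ_le_succ (Nat.zero_le J))]
      congr 2
      · push_cast
        module
      · push_cast
        module
    rw [mul_sub, mul_smul_comm, mul_smul_comm, key, rho, h5]
    have e1 : (c + (c j - c i) • al i j + ei i) =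
        ei i + (c + (c j - c i) • al i j) := by
      module
    have e2 : (c + (c j - c i) • al i j + (J : ℚ) • al i j + ei i) =
        c + ((J : ℚ) + 1 - (c i - c j)) • ei i + (1 - ((J : ℚ) + 1 - (c i - c j))) • ei j := by
      rw [al]
      module
    rw [e1, e2, ← mo_mul (ei i), ← zz]
    simp only [sub_mul, smul_mo_mul, smul_sub, sub_smul, one_smul]
    abel

end Pool.Agent.Lib.MP0e7911H38
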