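import Pool.Agent.Lib.MP_0e7911_co_h38.Ops

set_option autoImplicit false

namespace Pool.Agent.Lib.MP0e7911H38

open Finset

variable {K : Type*} [Field K] {m : ℕ}

/-- `c` and `φ` differ by integers. -/
def Cong (c φ : Fin m → ℚ) : Prop := ∀ k, ∃ n : ℤ, c k = φ k + n

theorem Cong.refl (c : Fin m → ℚ) : Cong c c := fun _ => ⟨0, by simp⟩

theorem Cong.symm {c φ : Fin m → ℚ} (h : Cong c φ) : Cong φ c := fun k => by
  obtain ⟨n, hn⟩ := h k
  exact ⟨-n, by rw [hn]; push_cast; ring⟩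

theorem Cong.trans {a b c : Fin m → ℚ} (h : Cong a b) (h' : Cong b c) : Cong a c := fun k => by
  obtain ⟨n, hn⟩ := h k
  obtain ⟨n', hn'⟩ := h' k
  exact ⟨n + n', by rw [hn, hn']; push_cast; ring⟩

theorem Cong.add {a b c d : Fin m → ℚ} (h : Cong a b) (h' : Cong c d) : Cong (a + c) (b + d) :=
  fun k => by
  obtain ⟨n, hn⟩ := h k
  obtain ⟨n', hn'⟩ := h' k
  exact ⟨n + n', by rw [Pi.add_apply, Pi.add_apply, hn, hn']; push_cast; ring⟩

theorem Cong.comp {a b : Fin m → ℚ} (h : Cong a b) (σ : Fin m → Fin m) : Cong (a ∘ σ) (b ∘ σ) :=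
  fun k => h (σ k)

/-- The span of the monomials with exponents congruent to `φ`. -/
noncomputable def Cos (K : Type*) [Field K] (φ : Fin m → ℚ) : Submodule K (LR K m) :=
  Submodule.span K (mo '' {c | Cong c φ})

theorem mo_mem_Cos {c φ : Fin m → ℚ} (h : Cong c φ) : (mo c : LR K m) ∈ Cos K φ :=
  Submodule.subset_span ⟨c, h, rfl⟩

theorem Cos_congr {φ ψ : Fin m → ℚ} (h : Cong φ ψ) : Cos K φ = Cos K ψ := by
  rw [Cos, Cos]
  congr 2
  ext c
  exact ⟨fun h' => Cong.trans h' h, fun h' => Cong.trans h' h.symm⟩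

theorem Cos_induction {φ : Fin m → ℚ} {P : LR K m → Prop} {f : LR K m} (hf : f ∈ Cos K φ)
    (h0 : P 0) (hm : ∀ c, Cong c φ → P (mo c))
    (ha : ∀ f g, P f → P g → P (f + g)) (hs : ∀ (r : K) f, P f → P (r • f)) : P f := by
  refine Submodule.span_induction (p := fun f _ => P f) ?_ h0 (fun f g _ _ => ha f g)
    (fun r f _ => hs r f) hf
  rintro _ ⟨c, hc, rfl⟩
  exact hm c hc

theorem mul_mem_Cos {φ ψ : Fin m → ℚ} {f g : LR K m} (hf : f ∈ Cos K φ) (hg : g ∈ Cos K ψ) :
    f * g ∈ Cos K (φ + ψ) := by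
  refine Cos_induction (P := fun f => f * g ∈ Cos K (φ + ψ)) hf ?_ ?_ ?_ ?_
  · simp
  · intro c hc
    refine Cos_induction (P := fun g => mo c * g ∈ Cos K (φ + ψ)) hg ?_ ?_ ?_ ?_
    · simp
    · intro d hd
      rw [mo_mul]
      exact mo_mem_Cos (hc.add hd)
    · intro f g hf hg
      rw [mul_add]
      exact Submodule.add_mem _ hf hg
    · intro r f hf
      rw [mul_smul_comm]
      exact Submodule.smul_mem _ _ hf
  · intro f g hf hg
    rw [add_mul]
    exact Submodule.add_mem _ hf hg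
  · intro r f hf
    rw [smul_mul_assoc]
    exact Submodule.smul_mem _ _ hf

theorem sw_mem_Cos {φ : Fin m → ℚ} {f : LR K m} (i j : Fin m) (hf : f ∈ Cos K φ) :
    sw i j f ∈ Cos K (φ ∘ Equiv.swap i j) := by
  refine Cos_induction (P := fun f => sw i j f ∈ Cos K (φ ∘ Equiv.swap i j)) hf ?_ ?_ ?_ ?_
  · simp
  · intro c hc
    rw [sw_mo]
    exact mo_mem_Cos (hc.comp _)
  · intro f g hf hg
    rw [map_add]
    exact Submodule.add_mem _ hf hg
  · intro r f hf
    rw [map_smul]
    exact Submodule.smul_mem _ _ hf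

theorem ei_cong (i : Fin m) : Cong (ei i) 0 := by
  intro k
  by_cases h : k = i
  · exact ⟨1, by simp [h, ei_self]⟩
  · exact ⟨0, by simp [ei_ne h]⟩

theorem al_cong (i j : Fin m) (r : ℤ) : Cong ((r : ℚ) • al i j) 0 := by
  intro k
  obtain ⟨a, ha⟩ := ei_cong i k
  obtain ⟨b, hb⟩ := ei_cong j k
  refine ⟨r * (a - b), ?_⟩
  simp only [Pi.smul_apply, al, Pi.sub_apply, ha, hb, Pi.zero_apply, smul_eq_mul]
  push_cast
  ring

theorem T_mem_Cos {φ : Fin m → ℚ} {f : LR K m} (q : K) (i j : Fin m) (hf : f ∈ Cos K φ) :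
    T q i j f ∈ Cos K (φ ∘ Equiv.swap i j) := by
  refine Cos_induction (P := fun f => T q i j f ∈ Cos K (φ ∘ Equiv.swap i j)) hf ?_ ?_ ?_ ?_
  · simp
  · intro c hc
    have h1 : ∀ r : ℤ, Cong (c ∘ Equiv.swap i j + (r : ℚ) • al i j) (φ ∘ Equiv.swap i j) := by
      intro r
      have := (hc.comp (Equiv.swap i j)).add (al_cong i j r)
      rwa [add_zero] at this
    have h0 := h1 0
    rw [Int.cast_zero, zero_smul, add_zero] at h0
    rw [T_mo, Tm]
    split_ifs with h
    · refine Submodule.add_mem _ (mo_mem_Cos h0) (Submodule.smul_mem _ _ (Submodule.sum_mem _ ?_))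
      intro k _
      have := h1 (-(k : ℤ))
      refine mo_mem_Cos ?_
      convert this using 1
      push_cast
      module
    · refine Submodule.sub_mem _ (Submodule.smul_mem _ _ (mo_mem_Cos h0))
        (Submodule.smul_mem _ _ (Submodule.sum_mem _ ?_))
      intro k _
      exact mo_mem_Cos (by exact_mod_cast h1 (k : ℤ))
  · intro f g hf hg
    rw [map_add]
    exact Submodule.add_mem _ hf hg
  · intro r f hf
    rw [map_smul]
    exact Submodule.smul_mem _ _ hf

/-- The rounding multiplier. -/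
noncomputable def Wr (K : Type*) [Field K] (i j : Fin m) (φ : Fin m → ℚ) : LR K m :=
  mo (Int.fract (φ j - φ i) • ei i + (1 - Int.fract (φ j - φ i)) • ei j)

theorem fract_cong {c φ : Fin m → ℚ} (h : Cong c φ) (i j : Fin m) :
    Int.fract (c j - c i) = Int.fract (φ j - φ i) := by
  obtain ⟨a, ha⟩ := h i
  obtain ⟨b, hb⟩ := h j
  rw [ha, hb, show φ j + (b : ℚ) - (φ i + a) = φ j - φ i + ((b - a : ℤ) : ℚ) by push_cast; ring,
    Int.fract_add_intCast]

theorem nint_cong {c φ : Fin m → ℚ} (h : Cong c φ) {i j : Fin m} (hφ : ∀ n : ℤ, φ j - φ i ≠ n) :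
    ∀ n : ℤ, c j - c i ≠ n := by
  obtain ⟨a, ha⟩ := h i
  obtain ⟨b, hb⟩ := h j
  intro n hn
  apply hφ (n - b + a)
  push_cast
  rw [← hn, ha, hb]
  ring

/-- The division identity on a coset. -/
theorem div_T (q : K) {i j : Fin m} (hij : i ≠ j) {φ : Fin m → ℚ} (hφ : ∀ n : ℤ, φ j - φ i ≠ n)
    {f : LR K m} (hf : f ∈ Cos K φ) :
    (zz i - zz j) * T q i j f =
      (zz i - q • zz j) * sw i j f - (1 - q) • (Wr K i j φ * f) := by
  refine Cos_induction (P := fun f => (zz i - zz j) * T q i j f =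
      (zz i - q • zz j) * sw i j f - (1 - q) • (Wr K i j φ * f)) hf ?_ ?_ ?_ ?_
  · simp
  · intro c hc
    rw [T_mo, div_mo q hij c (nint_cong hc hφ), sw_mo, Wr, mo_mul, rho, fract_cong hc]
    congr 3
    abel
  · intro f g hf hg
    simp only [map_add, mul_add, hf, hg, smul_add]
    abel
  · intro r f hf
    simp only [map_smul, mul_smul_comm, hf, smul_sub]
    rw [smul_comm (1 - q) r]

theorem sw_sw (i j : Fin m) (f : LR K m) : sw i j (sw i j f) = f := by
  have : ((sw i j).comp (sw i j)).toLinearMap = (LinearMap.id : LR K m →ₗ[K] LR K m) := by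
    refine lin_ext fun c => ?_
    simp [sw_mo, Function.comp_assoc]
    rw [← Equiv.coe_trans, Equiv.swap_swap] 
    rfl
  exact LinearMap.congr_fun this f

theorem sw_zz (i j k : Fin m) : sw i j (zz k : LR K m) = zz (Equiv.swap i j k) := by
  rw [zz, sw_mo, zz]
  congr 1
  funext l
  simp only [Function.comp, ei]
  by_cases h : l = Equiv.swap i j k
  · subst h
    simp
  · rw [Pi.single_eq_of_ne h, Pi.single_eq_of_ne]
    intro h'
    apply h
    rw [← h', Equiv.swap_apply_self]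

theorem zz_sub_ne_zero {i j : Fin m} (hij : i ≠ j) : (zz i - zz j : LR K m) ≠ 0 := by
  rw [sub_ne_zero, zz, zz, Ne, mo_inj]
  intro h
  have := congrFun h i
  rw [ei_self, ei_ne hij] at this
  exact one_ne_zero this

/-- `T ∘ T = q` on generic exponents. -/
theorem T_T (q : K) {i j : Fin m} (hij : i ≠ j) {φ : Fin m → ℚ} (hφ : ∀ n : ℤ, φ j - φ i ≠ n)
    {f : LR K m} (hf : f ∈ Cos K φ) : T q i j (T q i j f) = q • f := by
  have hφ' : ∀ n : ℤ, (φ ∘ Equiv.swap i j) j - (φ ∘ Equiv.swap i j) i ≠ n := by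
    intro n hn
    simp only [Function.comp, Equiv.swap_apply_left, Equiv.swap_apply_right] at hn
    exact hφ (-n) (by push_cast; linarith)
  have h1 := div_T q hij hφ hf
  have h2 := div_T q hij hφ' (T_mem_Cos q i j hf)
  have h3 := congrArg (sw i j) h1
  simp only [map_mul, map_sub, map_smul, sw_zz, sw_sw, Equiv.swap_apply_left,
    Equiv.swap_apply_right] at h3
  -- the multipliers
  have hW1 : Wr K i j (φ ∘ Equiv.swap i j) * Wr K i j φ = zz i * zz j := by
    have h4 : Int.fract (φ i - φ j) = 1 - Int.fract (φ j - φ i) := by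
      rw [← neg_sub (φ j), Int.fract_neg]
      intro h5
      obtain ⟨n, hn⟩ := Int.fract_eq_zero_iff.1 h5
      exact hφ n hn.symm
    simp only [Wr, Function.comp, Equiv.swap_apply_left, Equiv.swap_apply_right, h4, mo_mul, zz]
    congr 1
    module
  have hW2 : sw i j (Wr K i j φ) = Wr K i j (φ ∘ Equiv.swap i j) := by
    have h4 : Int.fract (φ i - φ j) = 1 - Int.fract (φ j - φ i) := by
      rw [← neg_sub (φ j), Int.fract_neg]
      intro h5
      obtain ⟨n, hn⟩ := Int.fract_eq_zero_iff.1 h5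
      exact hφ n hn.symm
    simp only [Wr, Function.comp, Equiv.swap_apply_left, Equiv.swap_apply_right, h4, sw_mo]
    congr 1
    funext k
    by_cases h1 : k = i
    · subst h1
      simp [ei_self, ei_ne hij, ei_ne hij.symm]
    · by_cases h2 : k = j
      · subst h2
        simp [ei_self, ei_ne hij, ei_ne hij.symm]
      · simp [ei_ne h1, ei_ne h2, Equiv.swap_apply_of_ne_of_ne h1 h2]
  rw [hW2] at h3
  have hD := zz_sub_ne_zero (K := K) hij
  apply mul_left_cancel₀ (mul_ne_zero hD hD)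
  simp only [Algebra.smul_def, map_sub, map_one] at *
  linear_combination (zz i - zz j) * h2 - (zz i - (algebraMap K (LR K m) q) * zz j) * h3 -
    (1 - algebraMap K (LR K m) q) * Wr K i j (φ ∘ Equiv.swap i j) * h1 +
    (1 - algebraMap K (LR K m) q) ^ 2 * f * hW1

end Pool.Agent.Lib.MP0e7911H38
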