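import Pool.Agent.Lib.MP_0e7911_co_h38.LP

/-!
# Part (B), complete: the path formula without hypotheses
-/

set_option autoImplicit false

namespace Pool.Agent.Lib.MP0e7911H38

open Finset Pool.Agent.Lib.MP0e7911H31

variable {K : Type*} [Field K] {m : ℕ}

theorem cauchy (q : K) (m : ℕ) : Cauchy q m := by
  intro w φ h0 h1 hφ e
  refine cauchy_of q ?_ (FC_poly q h0 h1 hφ) (FC_poly_neg q h0 h1 hφ) e
  intro a b
  rw [orth q m (nexp a + φ) (nexp b + φ) (hφ.nexp_add b) (fun k => ⟨(a k : ℤ) - b k, by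
    simp only [Pi.add_apply, nexp]
    push_cast
    ring⟩)]
  by_cases h : a = b
  · rw [if_pos h, if_pos (by rw [h])]
  · rw [if_neg h, if_neg]
    intro h'
    exact h (nexp_injective (add_right_cancel h'))

/-- (W), degree `n` in `t`, with `m + 1` columns; `φ = (φ_1, ..., φ_m)`, `a ∈ ℕ^m`. -/
theorem path_W (q : K) (n : ℕ) (p φ0 φl w : ℚ)
    (φ : Fin m → ℚ) (h0 : ∀ k, w ≤ φ k)
    (h1 : ∀ k, φ k < w + 1) (h00 : ∀ k, φ0 < φ k + 1) (h0l : ∀ k, φl < φ k + 1)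
    (hg0 : Gen (Fin.cons φ0 φ : Fin (m + 1) → ℚ)) (hgl : Gen (Fin.snoc φ φl : Fin (m + 1) → ℚ))
    (b : Fin (m + 1) → ℤ)
    (hb : ∀ k, (b k : ℚ) = p + (Fin.snoc φ φl : Fin (m + 1) → ℚ) k - (Fin.cons φ0 φ : Fin (m + 1) → ℚ) k)
    (xs : List K) :
    ∑ e ∈ Finset.Nat.antidiagonalTuple m n,
        Lf q (m + 1) (mo (fun k => -(b k : ℚ)) * Om (m + 1) xs * dn (mo (-(nexp e))) * up (Qe q m e)) =
      ∑ a ∈ Finset.Nat.antidiagonalTuple m n,
        chain q xs (Fin.cons φ0 (nexp a + φ) : Fin (m + 1) → ℚ)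
          ((Fin.snoc (nexp a + φ) φl : Fin (m + 1) → ℚ) + fun _ => p) :=
  final_W (orth q (m + 1)) (cauchy q m) n p φ0 φl w φ h0 h1 h00 h0l hg0 hgl b hb xs

end Pool.Agent.Lib.MP0e7911H38
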