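import Pool.Agent.Lib.MP_0e7911_co_h38.PartB
import Pool.Agent.Lib.MP_0e7911_co_full.PathDefs

/-!
# The path formula with geometric ranks
-/

set_option autoImplicit false

namespace Pool.Agent.Lib.MP0e7911H38

open Finset

variable {L : Type*} [Field L] {m : ℕ}

/-- the vector before the step of the label `α` -/
def bef {N : ℕ} (c : Fin m → ℚ) (S : Fin N → Finset (Fin m)) (α : Fin N) : Fin m → ℚ :=
  c + ∑ β : Fin N, if β < α then ind (S β) else 0

theorem chain_ofFn (q : L) {N : ℕ} (x : Fin N → L) (c d : Fin m → ℚ) :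
    chain q (List.ofFn x) c d = ∑ S : Fin N → Finset (Fin m),
      if d = c + ∑ α, ind (S α) then
        ∏ α, (x α ^ (S α).card * q ^ stat (bef c S α) (S α)) else 0 := by
  induction N generalizing c with
  | zero =>
    rw [List.ofFn_zero, chain, Fintype.sum_unique]
    simp only [univ_eq_empty, sum_empty, add_zero, prod_empty, eq_comm]
  | succ N ih =>
    rw [List.ofFn_succ, chain, ← (Fin.consEquiv (fun _ : Fin (N + 1) => Finset (Fin m))).sum_comp,
      Fintype.sum_prod_type]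
    refine sum_congr rfl fun S0 _ => ?_
    rw [ih, mul_sum]
    refine sum_congr rfl fun S _ => ?_
    have h1 : (Fin.consEquiv (fun _ : Fin (N + 1) => Finset (Fin m))) (S0, S) =
        (Fin.cons S0 S : Fin (N + 1) → Finset (Fin m)) := rfl
    rw [h1, Fin.sum_univ_succ, Fin.prod_univ_succ]
    simp only [Fin.cons_zero, Fin.cons_succ]
    have h2 : bef c (Fin.cons S0 S : Fin (N + 1) → Finset (Fin m)) 0 = c := by
      rw [bef, sum_eq_zero, add_zero]
      intro β _
      rw [if_neg (Fin.not_lt_zero β)]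
    have h3 : ∀ α : Fin N, bef c (Fin.cons S0 S : Fin (N + 1) → Finset (Fin m)) α.succ =
        bef (c + ind S0) S α := by
      intro α
      rw [bef, bef, Fin.sum_univ_succ, if_pos (Fin.succ_pos α)]
      simp only [Fin.cons_zero, Fin.cons_succ, Fin.succ_lt_succ_iff]
      rw [add_assoc]
    rw [h2]
    simp only [h3, add_assoc]
    split_ifs
    · rfl
    · rw [mul_zero]

theorem chain_le {q : L} {xs : List L} {c d : Fin m → ℚ} (h : chain q xs c d ≠ 0) (i : Fin m) :
    c i ≤ d i := by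
  induction xs generalizing c with
  | nil =>
    rw [chain] at h
    split_ifs at h with h1
    · rw [h1]
    · exact absurd rfl h
  | cons x xs ih =>
    rw [chain] at h
    obtain ⟨S, -, hS⟩ := exists_ne_zero_of_sum_ne_zero h
    have h1 := ih (right_ne_zero_of_mul hS)
    have h2 : 0 ≤ ind S i := by
      rw [ind]; split_ifs <;> norm_num
    rw [Pi.add_apply] at h1
    linarith

/-- ranks divided by the unit -/
def rdiv (U : ℕ) (v : Fin m → ℕ) : Fin m → ℚ := fun i => (v i : ℚ) / U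

theorem sum_ind_apply {N : ℕ} (S : Fin N → Finset (Fin m)) (i : Fin m) :
    (∑ α, ind (S α)) i = ((univ.filter (fun β : Fin N => i ∈ S β)).card : ℚ) := by
  rw [Finset.sum_apply, card_filter]
  push_cast
  rfl

theorem bef_rdiv {U : ℕ} (hU : 0 < U) {N : ℕ} (v : Fin m → ℕ) (S : Fin N → Finset (Fin m))
    (α : Fin N) :
    bef (rdiv U v) S α = rdiv U (MP_0e7911_co_full.cbef U v S α) := by
  have hU' : (U : ℚ) ≠ 0 := by exact_mod_cast hU.ne'
  funext i
  rw [bef, Pi.add_apply, Finset.sum_apply, rdiv, rdiv, MP_0e7911_co_full.cbef]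
  have h1 : ∑ β : Fin N, (if β < α then ind (S β) else 0 : Fin m → ℚ) i =
      ((univ.filter (fun β : Fin N => β < α ∧ i ∈ S β)).card : ℚ) := by
    rw [card_filter]
    push_cast
    refine sum_congr rfl fun β _ => ?_
    by_cases h1 : β < α
    · simp [h1, ind]
    · simp [h1]
  rw [h1]
  push_cast
  field_simp

theorem stat_rdiv {U : ℕ} (hU : 0 < U) (v : Fin m → ℕ) (S : Finset (Fin m)) :
    stat (rdiv U v) S = MP_0e7911_co_full.cstat U v S := by
  have hU' : (0 : ℚ) < U := by exact_mod_cast hU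
  rw [stat, MP_0e7911_co_full.cstat]
  congr 1
  refine filter_congr fun p _ => ?_
  have h1 : rdiv U v p.2 < rdiv U v p.1 ↔ v p.2 < v p.1 := by
    rw [rdiv, rdiv, div_lt_div_iff_of_pos_right hU', Nat.cast_lt]
  have h2 : rdiv U v p.1 < rdiv U v p.2 + 1 ↔ v p.1 < v p.2 + U := by
    rw [rdiv, rdiv, div_add_one hU'.ne', div_lt_div_iff_of_pos_right hU', ← Nat.cast_add, Nat.cast_lt]
  rw [h1, h2]

/-- the path chains and the rational chains -/
theorem aeval_chain {K : Type*} [Field K] [Algebra K L] (q : K) {U : ℕ} (hU : 0 < U) {N : ℕ}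
    (x : Fin N → L) (v v' : Fin m → ℕ) :
    MvPolynomial.aeval x (MP_0e7911_co_full.chain q U N v v') =
      chain (algebraMap K L q) (List.ofFn x) (rdiv U v) (rdiv U v') := by
  have hU' : (U : ℚ) ≠ 0 := by exact_mod_cast hU.ne'
  rw [chain_ofFn, MP_0e7911_co_full.chain, map_sum]
  refine sum_congr rfl fun S _ => ?_
  have h1 : (∀ i, v' i = v i + U * (univ.filter (fun β : Fin N => i ∈ S β)).card) ↔
      rdiv U v' = rdiv U v + ∑ α, ind (S α) := by
    rw [funext_iff]
    refine forall_congr' fun i => ?_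
    rw [Pi.add_apply, sum_ind_apply, rdiv, rdiv, div_add' _ _ _ hU', div_left_inj' hU']
    constructor
    · intro h
      rw [h]
      push_cast
      ring
    · intro h
      have : ((v' i : ℕ) : ℚ) = ((v i + U * (univ.filter (fun β : Fin N => i ∈ S β)).card : ℕ) : ℚ) := by
        rw [h]
        push_cast
        ring
      exact_mod_cast this
  by_cases h : ∀ i, v' i = v i + U * (univ.filter (fun β : Fin N => i ∈ S β)).card
  · rw [if_pos h, if_pos (h1.1 h), map_prod]
    refine prod_congr rfl fun α _ => ?_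
    simp only [map_mul, map_pow, MvPolynomial.aeval_X, MvPolynomial.aeval_C, bef_rdiv hU,
      stat_rdiv hU]
    rw [mul_comm]
  · rw [if_neg h, if_neg (fun h' => h (h1.2 h')), map_zero]


/-! ### heights -/

open MP_0e7911_co_full (rk lineSum)

/-- the heights `H = B + a` -/
def Hof {M : ℕ} (B : ℕ → ℕ) (a : Fin M → ℕ) : Fin (M + 2) → ℕ := fun x =>
  B x + (Fin.cons 0 (Fin.snoc a 0 : Fin (M + 1) → ℕ) : Fin (M + 2) → ℕ) x

/-- the fractional parts -/
def phi (M n : ℕ) (B : ℕ → ℕ) : Fin M → ℚ := fun x =>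
  (rk (M + 1) n (x + 1) (B (x + 1)) : ℚ) / ((M + 1 + 1) * (M + 1) : ℕ)

theorem rk_cast {m n x h : ℕ} (hh : n * x ≤ m * h) :
    (rk m n x h : ℚ) = (m + 1) * (m * h - n * x) + x := by
  rw [rk]
  push_cast [Nat.cast_sub hh]
  ring

theorem rdiv_start {M n : ℕ} {B : ℕ → ℕ} (hB0 : B 0 = 0)
    (hBd : ∀ x, x ≤ M + 1 → n * x ≤ (M + 1) * B x) (a : Fin M → ℕ) :
    rdiv ((M + 1 + 1) * (M + 1)) (fun x : Fin (M + 1) => rk (M + 1) n x (Hof B a x.castSucc)) =
      (Fin.cons 0 (nexp a + phi M n B) : Fin (M + 1) → ℚ) := by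
  funext x
  refine Fin.cases ?_ (fun k => ?_) x
  · simp [rdiv, Hof, hB0, rk]
  · have h1 : Hof B a k.succ.castSucc = B (k + 1) + a k := by
      rw [Hof, ← Fin.succ_castSucc, Fin.cons_succ, Fin.snoc_castSucc]
      simp
    have h2 := hBd (k + 1) (by have := k.isLt; omega)
    have h3 : n * ((k.succ : Fin (M + 1)) : ℕ) ≤ (M + 1) * (B (k + 1) + a k) := by
      rw [Fin.val_succ, mul_add (M + 1)]
      exact h2.trans (Nat.le_add_right _ _)
    simp only [rdiv]
    rw [h1, Fin.cons_succ, Pi.add_apply, nexp, phi, rk_cast h3, rk_cast h2]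
    push_cast [Fin.val_succ]
    field_simp
    ring

theorem rdiv_end {M n : ℕ} {B : ℕ → ℕ} (hBm : B (M + 1) = n)
    (hBd : ∀ x, x ≤ M + 1 → n * x ≤ (M + 1) * B x) (a : Fin M → ℕ) :
    rdiv ((M + 1 + 1) * (M + 1)) (fun x : Fin (M + 1) => rk (M + 1) n x (Hof B a x.succ)) =
      (Fin.snoc (nexp a + phi M n B) ((M + 1 : ℚ) / ((M + 1 + 1) * (M + 1) : ℕ)) : Fin (M + 1) → ℚ) +
        fun _ => (n : ℚ) / (M + 1) - 1 / ((M + 1 + 1) * (M + 1) : ℕ) := by
  funext x
  refine Fin.lastCases ?_ (fun k => ?_) x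
  · have h1 : Hof B a (Fin.last M).succ = n := by
      rw [Hof, Fin.cons_succ, Fin.snoc_last]
      simp [hBm]
    have h3 : n * ((Fin.last M : Fin (M + 1)) : ℕ) ≤ (M + 1) * n := by
      rw [Fin.val_last, mul_comm]
      exact Nat.mul_le_mul_right _ (Nat.le_succ _)
    simp only [rdiv]
    rw [h1, Pi.add_apply, Fin.snoc_last, rk_cast h3]
    push_cast [Fin.val_last]
    field_simp
    ring
  · have h1 : Hof B a k.castSucc.succ = B (k + 1) + a k := by
      rw [Hof, Fin.cons_succ, Fin.snoc_castSucc]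
      simp
    have h2 := hBd (k + 1) (by have := k.isLt; omega)
    have h3 : n * ((k.castSucc : Fin (M + 1)) : ℕ) ≤ (M + 1) * (B (k + 1) + a k) := by
      rw [Fin.val_castSucc]
      nlinarith [Nat.zero_le (a k), Nat.zero_le M, Nat.zero_le n]
    simp only [rdiv]
    rw [h1, Pi.add_apply, Fin.snoc_castSucc, Pi.add_apply, nexp, phi, rk_cast h3, rk_cast h2]
    push_cast [Fin.val_castSucc]
    field_simp
    ring


theorem Hof_zero {M : ℕ} {B : ℕ → ℕ} (hB0 : B 0 = 0) (a : Fin M → ℕ) : Hof B a 0 = 0 := by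
  simp [Hof, hB0]

theorem Hof_last {M n : ℕ} {B : ℕ → ℕ} (hBm : B (M + 1) = n) (a : Fin M → ℕ) :
    Hof B a (Fin.last (M + 1)) = n := by
  rw [Hof, ← Fin.succ_last, Fin.cons_succ, Fin.snoc_last]
  simp [hBm]

theorem Hof_ge {M : ℕ} (B : ℕ → ℕ) (a : Fin M → ℕ) (x : Fin (M + 2)) : B x ≤ Hof B a x := by
  rw [Hof]
  exact Nat.le_add_right _ _

theorem Hof_mid {M : ℕ} (B : ℕ → ℕ) (a : Fin M → ℕ) (k : Fin M) :
    Hof B a k.castSucc.succ = B (k + 1) + a k := by
  rw [Hof, Fin.cons_succ, Fin.snoc_castSucc]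
  simp

theorem sum_Hof {M : ℕ} (B : ℕ → ℕ) (a : Fin M → ℕ) :
    ∑ x : Fin (M + 2), (Hof B a x - B x) = ∑ k, a k := by
  have h1 : ∀ x : Fin (M + 2), Hof B a x - B x =
      (Fin.cons 0 (Fin.snoc a 0 : Fin (M + 1) → ℕ) : Fin (M + 2) → ℕ) x := by
    intro x
    rw [Hof, Nat.add_sub_cancel_left]
  rw [sum_congr rfl fun x _ => h1 x, Fin.sum_univ_succ, Fin.cons_zero, zero_add]
  simp only [Fin.cons_succ]
  rw [Fin.sum_univ_castSucc]
  simp

/-- the chain sum of a height vector -/
noncomputable def Gch (q : L) (M n : ℕ) {N : ℕ} (x : Fin N → L) (H : Fin (M + 2) → ℕ) : L :=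
  chain q (List.ofFn x)
    (rdiv ((M + 1 + 1) * (M + 1)) (fun x : Fin (M + 1) => rk (M + 1) n x (H x.castSucc)))
    (rdiv ((M + 1 + 1) * (M + 1)) (fun x : Fin (M + 1) => rk (M + 1) n x (H x.succ)))

theorem Gch_mono {q : L} {M n : ℕ} {N : ℕ} {x : Fin N → L} {B : ℕ → ℕ}
    (hBd : ∀ x, x ≤ M + 1 → n * x ≤ (M + 1) * B x) {H : Fin (M + 2) → ℕ} (hH : ∀ x : Fin (M + 2), B x ≤ H x)
    (h : Gch q M n x H ≠ 0) (k : Fin (M + 1)) : H k.castSucc ≤ H k.succ := by
  have h1 := chain_le h k
  have hU : (0 : ℚ) < ((M + 1 + 1) * (M + 1) : ℕ) := by positivity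
  rw [rdiv, rdiv, div_le_div_iff_of_pos_right hU, Nat.cast_le, rk, rk] at h1
  have h2 := hBd (k.castSucc : ℕ) (by have := k.isLt; rw [Fin.val_castSucc]; omega)
  have h3 := hBd (k.succ : ℕ) (by have := k.isLt; rw [Fin.val_succ]; omega)
  have h4 := Nat.mul_le_mul_left (M + 1) (hH k.castSucc)
  have h5 := Nat.mul_le_mul_left (M + 1) (hH k.succ)
  simp only [Fin.val_castSucc, Fin.val_succ, mul_add] at h2 h3 h4 h5
  have h6 : (M + 1) * H k.castSucc - n * k ≤ (M + 1) * H k.succ - n * k := by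
    have := Nat.le_of_add_le_add_right h1
    exact Nat.le_of_mul_le_mul_left this (by omega)
  have h7 : (M + 1) * H k.castSucc ≤ (M + 1) * H k.succ := by omega
  exact Nat.le_of_mul_le_mul_left h7 (by omega)

theorem Gch_le {q : L} {M n : ℕ} {N : ℕ} {x : Fin N → L} {B : ℕ → ℕ}
    (hBd : ∀ x, x ≤ M + 1 → n * x ≤ (M + 1) * B x) {H : Fin (M + 2) → ℕ} (hH : ∀ x : Fin (M + 2), B x ≤ H x)
    (hn : H (Fin.last (M + 1)) = n) (h : Gch q M n x H ≠ 0) (k : Fin (M + 2)) : H k ≤ n := by
  have h1 : Monotone H := Fin.monotone_iff_le_succ.2 fun k => Gch_mono hBd hH h k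
  rw [← hn]
  exact h1 (Fin.le_last k)

theorem lineSum_Gch {K : Type*} [Field K] [Algebra K L] (q t : K) (M n N : ℕ) (B : ℕ → ℕ)
    (hB0 : B 0 = 0) (hBm : B (M + 1) = n)
    (hBd : ∀ x, x ≤ M + 1 → n * x ≤ (M + 1) * B x) (x : Fin N → L) (R : ℕ) (hR : M * n < R) :
    MvPolynomial.aeval x (lineSum q t (M + 1) n N B) =
      ∑ k ∈ range R, algebraMap K L t ^ k * ∑ a ∈ Finset.Nat.antidiagonalTuple M k,
        Gch (algebraMap K L q) M n x (Hof B a) := by
  classical
  set f : (Fin M → ℕ) → L := fun a => algebraMap K L t ^ (∑ k, a k) *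
    Gch (algebraMap K L q) M n x (Hof B a) with hf
  set T2 : Finset (Fin M → ℕ) := Fintype.piFinset fun _ => range (n + 1) with hT2
  have hz : ∀ a, a ∉ T2 → f a = 0 := by
    intro a ha
    by_contra h
    apply ha
    rw [hT2, Fintype.mem_piFinset]
    intro k
    have h1 := Gch_le hBd (Hof_ge B a) (Hof_last hBm a) (right_ne_zero_of_mul h) k.castSucc.succ
    rw [Hof_mid] at h1
    rw [mem_range]
    omega
  have hR' : ∑ k ∈ range R, algebraMap K L t ^ k * ∑ a ∈ Finset.Nat.antidiagonalTuple M k,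
        Gch (algebraMap K L q) M n x (Hof B a) = ∑ a ∈ T2, f a := by
    rw [← sum_fiberwise_of_maps_to (s := T2) (t := range R) (g := fun a : Fin M → ℕ => ∑ k, a k)]
    · refine sum_congr rfl fun k _ => ?_
      rw [mul_sum]
      have h1 : ∀ a ∈ Finset.Nat.antidiagonalTuple M k, algebraMap K L t ^ k *
          Gch (algebraMap K L q) M n x (Hof B a) = f a := by
        intro a ha
        rw [hf]
        simp only
        rw [Finset.Nat.mem_antidiagonalTuple.1 ha]
      rw [sum_congr rfl h1]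
      symm
      refine sum_subset ?_ ?_
      · intro a ha
        rw [mem_filter] at ha
        exact Finset.Nat.mem_antidiagonalTuple.2 ha.2
      · intro a ha ha'
        apply hz
        intro h2
        exact ha' (mem_filter.2 ⟨h2, Finset.Nat.mem_antidiagonalTuple.1 ha⟩)
    · intro a ha
      rw [hT2, Fintype.mem_piFinset] at ha
      rw [mem_range]
      refine lt_of_le_of_lt ?_ hR
      calc ∑ k, a k ≤ ∑ _k : Fin M, n := sum_le_sum fun k _ => by
            have := ha k
            rw [mem_range] at this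
            omega
        _ = M * n := by simp
  rw [hR', lineSum, map_sum]
  symm
  refine sum_bij_ne_zero (fun a _ _ => Hof B a) ?_ ?_ ?_ ?_
  · intro a _ ha
    rw [Fintype.mem_piFinset]
    intro k
    rw [mem_range]
    have := Gch_le hBd (Hof_ge B a) (Hof_last hBm a) (right_ne_zero_of_mul ha) k
    omega
  · intro a _ _ a' _ _ h
    funext k
    have := congrFun h k.castSucc.succ
    rw [Hof_mid, Hof_mid] at this
    omega
  · intro H hH hne
    have hc : H 0 = 0 ∧ H (Fin.last (M + 1)) = n ∧ ∀ x : Fin (M + 1 + 1), B x ≤ H x := by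
      by_contra h
      rw [if_neg h, map_zero] at hne
      exact hne rfl
    have hHof : Hof B (fun k : Fin M => H k.castSucc.succ - B (k + 1)) = H := by
      funext y
      refine Fin.cases ?_ (fun y => ?_) y
      · rw [Hof_zero hB0, hc.1]
      · refine Fin.lastCases ?_ (fun y => ?_) y
        · rw [Fin.succ_last, Hof_last hBm, hc.2.1]
        · rw [Hof_mid]
          have := hc.2.2 y.castSucc.succ
          simp only [Fin.val_succ, Fin.val_castSucc] at this
          omega
    refine ⟨fun k => H k.castSucc.succ - B (k + 1), ?_, ?_, hHof⟩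
    · rw [hT2, Fintype.mem_piFinset]
      intro k
      rw [Fintype.mem_piFinset] at hH
      have := hH k.castSucc.succ
      rw [mem_range] at this ⊢
      omega
    · rw [if_pos hc, map_mul, aeval_chain q (by positivity)] at hne
      rw [hf]
      simp only
      rw [hHof]
      intro h0
      apply hne
      rcases mul_eq_zero.1 h0 with h1 | h1
      · rw [MvPolynomial.aeval_C, map_pow]
        have h2 := sum_Hof B (fun k : Fin M => H k.castSucc.succ - B (k + 1))
        rw [hHof] at h2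
        rw [h2, h1, zero_mul]
      · rw [Gch] at h1
        rw [h1, mul_zero]
  · intro a _ _
    have hc : Hof B a 0 = 0 ∧ Hof B a (Fin.last (M + 1)) = n ∧
        ∀ x : Fin (M + 1 + 1), B x ≤ Hof B a x :=
      ⟨Hof_zero hB0 a, Hof_last hBm a, Hof_ge B a⟩
    rw [if_pos hc, map_mul, aeval_chain q (by positivity), MvPolynomial.aeval_C, map_pow, sum_Hof]
    rfl


theorem Gen_rdiv {M' U D : ℕ} (hU : 0 < U) (hD : D ∣ U) (v : Fin M' → ℕ)
    (hv : ∀ i j, i ≠ j → v i % D ≠ v j % D) : Gen (rdiv U v) := by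
  intro i j hij k hk
  have hU' : (U : ℚ) ≠ 0 := by exact_mod_cast hU.ne'
  rw [rdiv, rdiv, div_sub_div_same, div_eq_iff hU'] at hk
  have h1 : (v j : ℤ) - v i = k * U := by exact_mod_cast hk
  apply hv i j hij
  have h2 : (D : ℤ) ∣ (v j : ℤ) - v i := by
    rw [h1]
    exact Dvd.dvd.mul_left (Int.natCast_dvd_natCast.2 hD) _
  exact (Nat.modEq_iff_dvd.2 h2)

theorem start_eq {M n : ℕ} {B : ℕ → ℕ} (hB0 : B 0 = 0)
    (hBd : ∀ x, x ≤ M + 1 → n * x ≤ (M + 1) * B x) :
    (Fin.cons 0 (phi M n B) : Fin (M + 1) → ℚ) =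
      rdiv ((M + 1 + 1) * (M + 1)) (fun x : Fin (M + 1) => rk (M + 1) n x (B x)) := by
  have h1 := rdiv_start hB0 hBd (fun _ : Fin M => 0)
  have h2 : nexp (fun _ : Fin M => 0) = 0 := by
    funext k
    simp [nexp]
  rw [h2, zero_add] at h1
  rw [← h1]
  congr 1
  funext x
  congr 1
  rw [Hof]
  refine Fin.cases ?_ (fun k => ?_) x
  · simp
  · rw [← Fin.succ_castSucc, Fin.cons_succ, Fin.snoc_castSucc]
    simp

theorem end_eq {M n : ℕ} {B : ℕ → ℕ} (hBm : B (M + 1) = n) :
    (Fin.snoc (phi M n B) ((M + 1 : ℚ) / ((M + 1 + 1) * (M + 1) : ℕ)) : Fin (M + 1) → ℚ) =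
      rdiv ((M + 1 + 1) * (M + 1)) (fun x : Fin (M + 1) => rk (M + 1) n (x + 1) (B (x + 1))) := by
  funext x
  refine Fin.lastCases ?_ (fun k => ?_) x
  · rw [Fin.snoc_last]
    simp only [rdiv, Fin.val_last, hBm]
    rw [rk, mul_comm n (M + 1), Nat.sub_self]
    push_cast
    ring
  · rw [Fin.snoc_castSucc]
    simp only [rdiv, phi, Fin.val_castSucc]

/-- The line sums through the functional `Lf`. -/
theorem lineSum_path {K : Type*} [Field K] [Algebra K L] (q t : K) (M n N : ℕ) (B : ℕ → ℕ)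
    (hB0 : B 0 = 0) (hBm : B (M + 1) = n)
    (hBd : ∀ x, x ≤ M + 1 → n * x ≤ (M + 1) * B x) (w' : ℕ)
    (hw : ∀ x, 1 ≤ x → x ≤ M → w' ≤ rk (M + 1) n x (B x) ∧
      rk (M + 1) n x (B x) < w' + (M + 1 + 1) * (M + 1))
    (x : Fin N → L) (R : ℕ) (hR : M * n < R) :
    MvPolynomial.aeval x (lineSum q t (M + 1) n N B) =
      ∑ k ∈ range R, algebraMap K L t ^ k * ∑ e ∈ Finset.Nat.antidiagonalTuple M k,
        Lf (algebraMap K L q) (M + 1)
          (mo (fun j : Fin (M + 1) => -(((B (j + 1) : ℤ) - B j : ℤ) : ℚ)) * Om (M + 1) (List.ofFn x) *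
            dn (mo (-(nexp e))) * up (Qe (algebraMap K L q) M e)) := by
  rw [lineSum_Gch q t M n N B hB0 hBm hBd x R hR]
  refine sum_congr rfl fun k _ => ?_
  congr 1
  have hU : (0 : ℚ) < ((M + 1 + 1) * (M + 1) : ℕ) := by positivity
  have hUn : 0 < (M + 1 + 1) * (M + 1) := by positivity
  have hs := start_eq hB0 hBd
  have he := end_eq (n := n) hBm
  have hsmod : ∀ (y h : ℕ), y ≤ M + 1 → rk (M + 1) n y h % (M + 1 + 1) = y := by
    intro y h hy
    rw [rk, Nat.mul_add_mod, Nat.mod_eq_of_lt (by omega)]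
  have hphi : ∀ k : Fin M, 0 ≤ phi M n B k := fun k => by
    rw [phi]
    positivity
  have hW := path_W (algebraMap K L q) k ((n : ℚ) / (M + 1) - 1 / ((M + 1 + 1) * (M + 1) : ℕ)) 0
    ((M + 1 : ℚ) / ((M + 1 + 1) * (M + 1) : ℕ)) ((w' : ℚ) / ((M + 1 + 1) * (M + 1) : ℕ))
    (phi M n B)
    (fun k => by
      have := (hw (k + 1) (by omega) (by have := k.isLt; omega)).1
      rw [phi]
      exact div_le_div_of_nonneg_right (by exact_mod_cast this) hU.le)
    (fun k => by
      have := (hw (k + 1) (by omega) (by have := k.isLt; omega)).2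
      rw [phi, div_add_one hU.ne', div_lt_div_iff_of_pos_right hU]
      exact_mod_cast this)
    (fun k => by have := hphi k; linarith)
    (fun k => by
      have h1 := hphi k
      have h2 : ((M + 1 : ℚ) / ((M + 1 + 1) * (M + 1) : ℕ)) < 1 := by
        rw [div_lt_one hU]
        push_cast
        nlinarith [Nat.cast_nonneg (α := ℚ) M]
      linarith)
    (by
      rw [hs]
      refine Gen_rdiv hUn (Dvd.intro _ rfl) _ fun i j hij => ?_
      rw [hsmod _ _ (by have := i.isLt; omega), hsmod _ _ (by have := j.isLt; omega)]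
      exact fun h => hij (Fin.ext h))
    (by
      rw [he]
      refine Gen_rdiv hUn (Dvd.intro _ rfl) _ fun i j hij => ?_
      rw [hsmod _ _ (by have := i.isLt; omega), hsmod _ _ (by have := j.isLt; omega)]
      exact fun h => hij (Fin.ext (by omega)))
    (fun j => (B (j + 1) : ℤ) - B j)
    (fun j => by
      rw [hs, he]
      simp only [rdiv]
      have h1 := hBd j (by have := j.isLt; omega)
      have h2 := hBd (j + 1) (by have := j.isLt; omega)
      rw [rk_cast h1, rk_cast h2]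
      push_cast
      field_simp
      ring)
    (List.ofFn x)
  rw [hW]
  refine sum_congr rfl fun a _ => ?_
  rw [Gch, rdiv_start hB0 hBd, rdiv_end hBm hBd]

end Pool.Agent.Lib.MP0e7911H38
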