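import Pool.Agent.Lib.MP_0e7911_co_h38.BhtLem

/-!
# The line sums are homogeneous of degree `n` in the labels
-/

set_option autoImplicit false

namespace Pool.Agent.Lib.MP0e7911H38

open Finset MP_0e7911_co_full

variable {K L : Type*} [Field K] [Field L] [Algebra K L]

theorem chain_neg (q : K) (U : ℕ) {m N : ℕ} (n : ℕ) (x : Fin N → L) (v v' : Fin m → ℕ)
    (h : ∀ c : Fin m → ℕ, (∀ i, v' i = v i + U * c i) → ∑ i, c i = n) :
    MvPolynomial.aeval (fun α => -x α) (MP_0e7911_co_full.chain q U N v v') =
      (-1) ^ n * MvPolynomial.aeval x (MP_0e7911_co_full.chain q U N v v') := by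
  rw [MP_0e7911_co_full.chain, map_sum, map_sum, mul_sum]
  refine sum_congr rfl fun S _ => ?_
  by_cases hS : ∀ i, v' i = v i + U * (univ.filter (fun β : Fin N => i ∈ S β)).card
  · have h1 := h _ hS
    have h2 : ∑ α : Fin N, (S α).card = n := by
      rw [← h1]
      have h3 : ∀ α : Fin N, (S α).card = ∑ i : Fin m, if i ∈ S α then 1 else 0 := by
        intro α
        rw [sum_boole, filter_mem_eq_inter, univ_inter]
        simp
      rw [sum_congr rfl fun α _ => h3 α, sum_comm]
      refine sum_congr rfl fun i _ => ?_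
      rw [card_filter]
    rw [if_pos hS, map_prod, map_prod, ← h2, ← prod_pow_eq_pow_sum, ← prod_mul_distrib]
    refine prod_congr rfl fun α _ => ?_
    simp only [map_mul, map_pow, MvPolynomial.aeval_X, MvPolynomial.aeval_C]
    rw [neg_pow]
    ring
  · rw [if_neg hS, map_zero, map_zero, mul_zero]

theorem lineSum_neg (q t : K) {m n N : ℕ} (hm : 0 < m) (B : ℕ → ℕ)
    (hBd : ∀ y, y ≤ m → n * y ≤ m * B y) (x : Fin N → L) :
    MvPolynomial.aeval (fun α => -x α) (lineSum q t m n N B) =
      (-1) ^ n * MvPolynomial.aeval x (lineSum q t m n N B) := by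
  rw [lineSum, map_sum, map_sum, mul_sum]
  refine sum_congr rfl fun H _ => ?_
  by_cases hc : H 0 = 0 ∧ H (Fin.last m) = n ∧ ∀ x : Fin (m + 1), B x ≤ H x
  · rw [if_pos hc, map_mul, map_mul, chain_neg q ((m + 1) * m) n x]
    · simp only [MvPolynomial.aeval_C]
      ring
    · intro c hcc
      have h1 : ∀ i : Fin m, (c i : ℤ) = (H i.succ : ℤ) - H i.castSucc := by
        intro i
        have h2 := hBd (i.castSucc : ℕ) (by have := i.isLt; rw [Fin.val_castSucc]; omega)
        have h3 := hBd (i.succ : ℕ) (by have := i.isLt; rw [Fin.val_succ]; omega)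
        have h4 := Nat.mul_le_mul_left m (hc.2.2 i.castSucc)
        have h5 := Nat.mul_le_mul_left m (hc.2.2 i.succ)
        have h6 := hcc i
        have h7 : n * (i : ℕ) ≤ m * H i.castSucc := by
          rw [Fin.val_castSucc] at h2 h4; exact h2.trans h4
        have h8 : n * (i : ℕ) ≤ m * H i.succ := by
          rw [Fin.val_succ] at h3 h5
          have : n * (i : ℕ) ≤ n * (i + 1) := Nat.mul_le_mul_left _ (Nat.le_succ _)
          exact this.trans (h3.trans h5)
        rw [rk, rk] at h6
        have h9 : ((m + 1) * (m * H i.succ - n * i) + i : ℤ) =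
            (m + 1) * (m * H i.castSucc - n * i) + i + (m + 1) * m * c i := by
          have := congrArg (Nat.cast : ℕ → ℤ) h6
          push_cast [Nat.cast_sub h7, Nat.cast_sub h8] at this
          exact this
        have h10 : ((m : ℤ) + 1) * m * ((H i.succ : ℤ) - H i.castSucc - c i) = 0 := by
          linear_combination h9
        have h11 : ((m : ℤ) + 1) * m ≠ 0 := by positivity
        have := (mul_eq_zero.1 h10).resolve_left h11
        omega
      have h2 : ((∑ i, c i : ℕ) : ℤ) = n := by
        push_cast
        rw [sum_congr rfl fun i _ => h1 i]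
        have h3 : ∑ i : Fin m, ((H i.succ : ℤ) - H i.castSucc) = (H (Fin.last m) : ℤ) - H 0 := by
          have h4 := Fin.sum_univ_succ (fun i => (H i : ℤ))
          have h5 := Fin.sum_univ_castSucc (fun i => (H i : ℤ))
          rw [sum_sub_distrib]
          linarith
        rw [h3, hc.1, hc.2.1]
        simp
      exact_mod_cast h2
  · rw [if_neg hc, map_zero, map_zero, mul_zero]

end Pool.Agent.Lib.MP0e7911H38
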